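import Pool.Agent.Lib.Pc0b458S.Defs

/-!
# Module MMBasic: products of pairs of unit vectors (about 1.2h)

* `Fits.neg`: negate; `nb b` is the complementary sign vector.
* `MM_nb`: factor by factor `ev u v * ev u' v' = -(ev u u' * ev v v')` (`DegAux.ev_cross`) and `DegAux.ev_bool`
  (file `Pc0b458P/Deg.lean`, compare the proof of `m4_m4` there); the signs `-1` multiply to `(-1)^k`; use
  `Fintype.prod_prod_type` for `sg` and for the product of the `Dc`, `Fin.prod_univ_two`.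
* `MM_self`: a factor is zero (`k ≠ 0`), `ev_sq`.
* `MM_top`: `∏ p, Dc (J p) = ∏ s ∈ sup η, Dc s` (`prod_image`, `Fits`), `topF = ∏ s, Dc s` (`DegAux.topF_unit`), `zer η` and
  `sup η` are complementary (`Finset.prod_filter_mul_prod_filter_not`).
* `MM_pow`: `MM J b * Dc (J p) = 0` for all `p` (a vector occurs twice: `ev_left` and `ev_swap` of `Deg.lean`), so
  `Dc (J p)` may be dropped: expand as in `DegAux.sum_pow_gen` (file `Deg.lean`), which gives for a family `x` with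
  `x i * x i = 0`: `(∏ i ∈ S, x i) * (∑ i, x i)^(N - |S|) = (N - |S|)! ∏ i, x i`. Here apply it to the family `x s = Dc s` for
  `s ∈ zer η` and `x s = 0` otherwise, after showing `MM J b * (∑ s, Dc s)^j = MM J b * (∑ s ∈ zer η, Dc s)^j` by
  induction on `j`; or prove the finset version `(∑ s ∈ S, x s)^(card S) = (card S)! ∏ s ∈ S, x s` by induction.
* `MM_four`, `sg_four`: unfold, `Fin.prod_univ_two`, `Fin.prod_univ_four`, `Fintype.prod_prod_type`.
-/

open Finset Pc0b458 Pc0b458P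

namespace Pc0b458S

variable {Φ : Type} [DecidableEq Φ]

theorem nb_nb {k : ℕ} (b : Fin k × Fin 2 → Bool) : nb (nb b) = b := by
  funext p
  simp [nb]

namespace BasicAux

theorem sgn_nb (b : Bool) : (if (!b) = true then (1 : ℂ) else -1) = -(if b = true then 1 else -1) := by
  cases b <;> simp

theorem sgn_sq (b : Bool) : (if b = true then (1 : ℂ) else -1) * (if b = true then 1 else -1) = 1 := by
  cases b <;> simp

theorem Dc_eq (s : Φ) (b : Bool) : (Dc s : HC Φ Unit) =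
    (if b then (1 : ℂ) else -1) • ev (ee s b ()) (ee s (!b) ()) := by
  rw [DegAux.ev_bool, smul_smul, sgn_sq, one_smul]

theorem ev_Dc (s : Φ) (b : Bool) (v : HV Φ Unit) : (ev (ee s b ()) v * Dc s : HC Φ Unit) = 0 := by
  rw [Dc_eq s b, mul_smul_comm, DegAux.ev_left, smul_zero]

theorem ev_Dc' (s : Φ) (b : Bool) (v : HV Φ Unit) : (ev v (ee s b ()) * Dc s : HC Φ Unit) = 0 := by
  rw [DegAux.ev_swap]
  exact (neg_mul _ _).trans (by rw [ev_Dc s b v]; exact neg_zero)

theorem MM_Dc {k : ℕ} (J : Fin k × Fin 2 → Φ) (b : Fin k × Fin 2 → Bool) (p : Fin k × Fin 2) :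
    (MM J b * Dc (J p) : HC Φ Unit) = 0 := by
  obtain ⟨i, j⟩ := p
  unfold MM
  rw [← Finset.mul_prod_erase univ _ (mem_univ i), mul_right_comm]
  have h : (ev (ee (J (i, 0)) (b (i, 0)) ()) (ee (J (i, 1)) (b (i, 1)) ()) * Dc (J (i, j)) :
      HC Φ Unit) = 0 := by
    rcases Fin.exists_fin_two.1 ⟨j, rfl⟩ with rfl | rfl
    · exact ev_Dc _ _ _
    · exact ev_Dc' _ _ _
  rw [h, zero_mul]

theorem sum_pow_set {R : Type*} [CommRing R] (x : Φ → R) (hx : ∀ s, x s * x s = 0)
    (S : Finset Φ) : (∑ s ∈ S, x s) ^ S.card = (S.card.factorial : R) * ∏ s ∈ S, x s := by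
  have h := DegAux.sum_pow_gen (fun s : S => x s) (fun s => hx s) S.card ∅ (by simp)
  rw [Finset.prod_empty, one_mul, Finset.sum_coe_sort S, Finset.prod_coe_sort S] at h
  exact h

theorem prod_J [Fintype Φ] {k : ℕ} {η : Φ → ZMod 3} {J : Fin k × Fin 2 → Φ}
    {b : Fin k × Fin 2 → Bool} (h : Fits η J b) : univ.image J = sup η := by
  ext s
  rw [Finset.mem_image, sup, Finset.mem_filter]
  constructor
  · rintro ⟨p, -, rfl⟩
    refine ⟨mem_univ _, ?_⟩
    rw [h.2.1 p]
    split_ifs <;> decide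
  · rintro ⟨-, hs⟩
    obtain ⟨p, hp⟩ := h.2.2 s hs
    exact ⟨p, mem_univ p, hp⟩

theorem card_zer [Fintype Φ] {k : ℕ} {η : Φ → ZMod 3} {J : Fin k × Fin 2 → Φ}
    {b : Fin k × Fin 2 → Bool} (h : Fits η J b) : (zer η).card = Fintype.card Φ - 2 * k := by
  have h1 : (sup η).card = 2 * k := by
    rw [← prod_J h, Finset.card_image_of_injective _ h.1, Finset.card_univ, Fintype.card_prod,
      Fintype.card_fin, Fintype.card_fin, mul_comm]
  have h2 : (zer η).card + (sup η).card = Fintype.card Φ := by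
    unfold zer sup
    rw [Finset.card_filter_add_card_filter_not, Finset.card_univ]
  omega

end BasicAux

theorem Fits.neg {k : ℕ} {η : Φ → ZMod 3} {J : Fin k × Fin 2 → Φ} {b : Fin k × Fin 2 → Bool}
    (h : Fits η J b) : Fits (-η) J (nb b) := by
  refine ⟨h.1, fun p => ?_, fun s hs => h.2.2 s ?_⟩
  · rw [Pi.neg_apply, h.2.1 p, nb]
    cases b p <;> simp
  · intro h0
    apply hs
    rw [Pi.neg_apply, h0, neg_zero]

theorem sg_nb {k : ℕ} (b : Fin k × Fin 2 → Bool) : sg (nb b) = sg b := by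
  unfold sg nb
  simp only [BasicAux.sgn_nb]
  rw [Finset.prod_neg, Finset.card_univ, Fintype.card_prod, Fintype.card_fin, Fintype.card_fin,
    mul_comm k 2, pow_mul]
  simp

theorem sg_sq {k : ℕ} (b : Fin k × Fin 2 → Bool) : sg b * sg b = 1 := by
  unfold sg
  rw [← Finset.prod_mul_distrib]
  simp only [BasicAux.sgn_sq, Finset.prod_const_one]

theorem MM_nb {k : ℕ} (J : Fin k × Fin 2 → Φ) (b : Fin k × Fin 2 → Bool) :
    (MM J b * MM J (nb b) : HC Φ Unit) = ((-1) ^ k * sg b) • ∏ p, Dc (J p) := by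
  unfold MM
  rw [← Finset.prod_mul_distrib]
  have h : ∀ i : Fin k, (ev (ee (J (i, 0)) (b (i, 0)) ()) (ee (J (i, 1)) (b (i, 1)) ()) *
      ev (ee (J (i, 0)) (nb b (i, 0)) ()) (ee (J (i, 1)) (nb b (i, 1)) ()) : HC Φ Unit) =
      (-1 * ((if b (i, 0) then (1 : ℂ) else -1) * (if b (i, 1) then 1 else -1))) •
        (Dc (J (i, 0)) * Dc (J (i, 1))) := by
    intro i
    rw [DegAux.ev_cross, nb, nb, DegAux.ev_bool, DegAux.ev_bool, smul_mul_smul_comm, neg_one_mul,
      neg_smul]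
  rw [Finset.prod_congr rfl fun i _ => h i, Finset.prod_smul, Finset.prod_mul_distrib,
    Finset.prod_const, Finset.card_univ, Fintype.card_fin]
  congr 1
  · congr 1
    unfold sg
    rw [Fintype.prod_prod_type]
    refine Finset.prod_congr rfl fun i _ => ?_
    rw [Fin.prod_univ_two]
  · rw [Fintype.prod_prod_type]
    refine Finset.prod_congr rfl fun i _ => ?_
    rw [Fin.prod_univ_two]

theorem MM_self {k : ℕ} (hk : k ≠ 0) (J : Fin k × Fin 2 → Φ) (b : Fin k × Fin 2 → Bool) :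
    (MM J b * MM J b : HC Φ Unit) = 0 := by
  unfold MM
  rw [← Finset.prod_mul_distrib]
  exact Finset.prod_eq_zero (mem_univ ⟨0, Nat.pos_of_ne_zero hk⟩) (DegAux.ev_sq _ _)

theorem MM_top [Fintype Φ] {k : ℕ} {η : Φ → ZMod 3} {J : Fin k × Fin 2 → Φ}
    {b : Fin k × Fin 2 → Bool} (h : Fits η J b) :
    (MM J b * MM J (nb b) * ∏ s ∈ zer η, Dc s : HC Φ Unit) = ((-1) ^ k * sg b) • topF := by
  rw [MM_nb, smul_mul_assoc]
  congr 1
  have h1 : (∏ p, Dc (J p) : HC Φ Unit) = ∏ s ∈ sup η, Dc s := by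
    rw [← BasicAux.prod_J h]
    exact (Finset.prod_image fun a _ b _ hab => h.1 hab).symm
  rw [h1, DegAux.topF_unit, mul_comm]
  unfold zer sup
  exact Finset.prod_filter_mul_prod_filter_not _ _ _

theorem MM_pow [Fintype Φ] {k : ℕ} {η : Φ → ZMod 3} {J : Fin k × Fin 2 → Φ}
    {b : Fin k × Fin 2 → Bool} (h : Fits η J b) :
    (MM J b * (∑ s, Dc s) ^ (Fintype.card Φ - 2 * k) : HC Φ Unit) =
      ((Fintype.card Φ - 2 * k).factorial : ℂ) • (MM J b * ∏ s ∈ zer η, Dc s) := by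
  have h0 : (MM J b * ∑ s ∈ sup η, Dc s : HC Φ Unit) = 0 := by
    rw [Finset.mul_sum]
    refine Finset.sum_eq_zero fun s hs => ?_
    rw [← BasicAux.prod_J h, Finset.mem_image] at hs
    obtain ⟨p, -, rfl⟩ := hs
    exact BasicAux.MM_Dc J b p
  have h1 : (∑ s, Dc s : HC Φ Unit) = ∑ s ∈ zer η, Dc s + ∑ s ∈ sup η, Dc s := by
    unfold zer sup
    exact (Finset.sum_filter_add_sum_filter_not _ _ _).symm
  have h2 : ∀ j : ℕ, (MM J b * (∑ s, Dc s) ^ j : HC Φ Unit) =
      MM J b * (∑ s ∈ zer η, Dc s) ^ j := by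
    intro j
    induction j with
    | zero => rw [pow_zero, pow_zero]
    | succ j ih =>
      rw [pow_succ, ← mul_assoc, ih, mul_right_comm, h1, mul_add, h0, add_zero, pow_succ,
        mul_right_comm, mul_assoc]
  rw [h2, ← BasicAux.card_zer h, BasicAux.sum_pow_set _ Dc_sq, mul_left_comm, Algebra.smul_def,
    map_natCast]

/-- comparison with `m4` -/
theorem MM_four (J : Fin 2 × Fin 2 → Φ) (b : Fin 2 × Fin 2 → Bool) :
    (MM J b : HC Φ Unit) = m4 ![J (0, 0), J (0, 1), J (1, 0), J (1, 1)]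
      ![b (0, 0), b (0, 1), b (1, 0), b (1, 1)] () := by
  unfold MM m4
  rw [Fin.prod_univ_two]
  rfl

theorem sg_four (b : Fin 2 × Fin 2 → Bool) :
    sg b = sgb ![b (0, 0), b (0, 1), b (1, 0), b (1, 1)] := by
  unfold sg sgb
  rw [Fintype.prod_prod_type, Fin.prod_univ_two, Fin.prod_univ_two, Fin.prod_univ_two,
    Fin.prod_univ_four, ← mul_assoc]
  rfl

end Pc0b458S
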