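import Pool.Agent.Lib.Pc0b458S.CombC

/-!
# Module CombD: the imaginary quadratic field (about 1.0h)

`stab K` is the subgroup of the `g` with `tr g K = K`.
* `stab_nonsplit`: `c ∉ stab K` (`K` is free and not empty); by `RankTwo` every `g` satisfies `tr g K = K` or `tr g K = tr c K`, i.e. `tr (c g) K = K`, so the
  index is two (`Subgroup.index_eq_two_iff` or `Subgroup.index_eq_two_iff'`); not `D ≤ stab K` by `IsFive.dec`.
* `stab_unique`: `X` has ten elements. Let `P = K ∩ K'`, `Q = K ∩ tr c K'`; as `K'` is free and full (`full`), `card P + card Q = 5`. If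
  `tr g K = K` and `tr g K' = tr c K'` then `tr g P = K ∩ tr c K' = Q`, so `card P = card Q`, a contradiction. Hence
  `tr g K = K` implies `tr g K' = K'` (`RankTwo K'`).
* `fix_of_index`: if `h • x = x` for `h ∈ H`, the same for `c • x`, and `g ∉ H`, then `c⁻¹ * g ∈ H` (index two: `Subgroup.mul_mem_iff_of_index_two`), so
  `g • x = c • ((c⁻¹ * g) • x) = c • x`.
-/

open Finset

namespace Pc0b458S

open Pc0b458F (CMDatum rho tr_mul tr_one card_tr IsNonsplit)

variable {G : Type} [Group G] {D : Subgroup G} {c : G} {X : CMDatum G D c}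

/-- the stabiliser of a set -/
def stab (K : Finset X.S) : Subgroup G where
  carrier := {g | X.tr g K = K}
  mul_mem' := by
    intro a b ha hb
    change X.tr (a * b) K = K
    rw [tr_mul, (hb : X.tr b K = K), (ha : X.tr a K = K)]
  one_mem' := tr_one K
  inv_mem' := by
    intro a ha
    change X.tr a⁻¹ K = K
    conv_lhs => rw [← (ha : X.tr a K = K)]
    rw [← tr_mul, inv_mul_cancel, tr_one]

theorem mem_stab {K : Finset X.S} {g : G} : g ∈ stab K ↔ X.tr g K = K := Iff.rfl

theorem tr_c_ne {K : Finset X.S} (hK : IsFive X K) : X.tr c K ≠ K := by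
  intro h
  obtain ⟨h5, hf, -⟩ := hK
  have hne : K.Nonempty := by
    rw [← Finset.card_pos, h5]
    norm_num
  obtain ⟨y, hy⟩ := hne
  have hy' := hy
  rw [← h, mem_tr_c] at hy'
  exact hf y hy hy'

theorem stab_nonsplit {K : Finset X.S} (hK : IsFive X K) : IsNonsplit D c (stab K) := by
  have hne := tr_c_ne hK
  refine ⟨?_, fun h => hne h, ?_⟩
  · rw [Subgroup.index_eq_two_iff]
    refine ⟨c, fun b => ?_⟩
    have hb : b * c ∈ stab K ↔ X.tr c (X.tr b K) = K := by
      rw [mem_stab, tr_mul, tr_comm_c]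
    rcases hK.2.2.2.1 b with h | h
    · right
      refine ⟨h, fun h' => hne ?_⟩
      rw [hb, h] at h'
      exact h'
    · left
      refine ⟨?_, fun h' => hne ?_⟩
      · rw [hb, h, tr_tr_c]
      · rw [← h]
        exact h'
  · intro hD
    obtain ⟨δ, hδ, h⟩ := hK.dec
    exact h (hD hδ)

theorem stab_le (hc : Fintype.card X.S = 10) {K K' : Finset X.S} (hK : IsFive X K)
    (hK' : IsFive X K') : stab K ≤ stab K' := by
  intro g hg
  rw [mem_stab] at hg ⊢
  rcases hK'.2.2.2.1 g with h | h
  · exact h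
  exfalso
  have hP : X.tr g (K ∩ K') = K ∩ X.tr c K' := by
    have : X.tr g (K ∩ K') = X.tr g K ∩ X.tr g K' := by
      rw [CMDatum.tr, CMDatum.tr, CMDatum.tr]
      exact Finset.image_inter _ _ (fun x y h => X.smul_inj h)
    rw [this, hg, h]
  have hcard : (K ∩ K').card = (K ∩ X.tr c K').card := by
    rw [← hP, card_tr]
  have hfull : ∀ y : X.S, y ∈ K' ∨ c • y ∈ K' :=
    fun y => full (by rw [hc, hK'.1]) hK'.2.1 y
  have hdisj : Disjoint (K ∩ K') (K ∩ X.tr c K') := by
    rw [Finset.disjoint_left]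
    intro y hy hy'
    rw [Finset.mem_inter] at hy hy'
    rw [mem_tr_c] at hy'
    exact hK'.2.1 y hy.2 hy'.2
  have hunion : (K ∩ K') ∪ (K ∩ X.tr c K') = K := by
    ext y
    rw [Finset.mem_union, Finset.mem_inter, Finset.mem_inter, mem_tr_c]
    constructor
    · rintro (h | h)
      · exact h.1
      · exact h.1
    · intro hy
      rcases hfull y with h | h
      · exact Or.inl ⟨hy, h⟩
      · exact Or.inr ⟨hy, h⟩
  have hsum := Finset.card_union_of_disjoint hdisj
  rw [hunion, hK.1] at hsum
  omega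

theorem stab_unique (hc : Fintype.card X.S = 10) {K K' : Finset X.S} (hK : IsFive X K)
    (hK' : IsFive X K') : stab K = stab K' :=
  le_antisymm (stab_le hc hK hK') (stab_le hc hK' hK)

theorem fix_of_index {H : Subgroup G} (hH : IsNonsplit D c H) {x : X.S}
    (h : ∀ g ∈ H, g • x = x) {g : G} (hg : g ∉ H) : g • x = c • x := by
  have h1 : c⁻¹ * g ∈ H := by
    rw [Subgroup.mul_mem_iff_of_index_two hH.1]
    constructor
    · intro h2
      exact absurd ((Subgroup.inv_mem_iff H).1 h2) hH.2.1
    · intro h2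
      exact absurd h2 hg
  have h2 := h _ h1
  calc g • x = c • ((c⁻¹ * g) • x) := by rw [← mul_smul, mul_inv_cancel_left]
    _ = c • x := by rw [h2]

end Pc0b458S
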