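import Pool.Agent.Lib.Pc0b458S.CombA

/-!
# Module CombE: the exceptional family (about 1.2h)

Enumerate `I = {x 0, x 1, x 2}` and `I' = {y 0, y 1, y 2}` (`Finset.equivFin`, or `Finset.card_eq_three`) and put `a i = X.a (x i)`,
`b i = X.a (y i)`. The sums are zero (`Fin.sum_univ_three`). `a i ≠ 0`, `b i ≠ 0` by hypothesis. `a i = - b j` would give the pair
`x i`, `y j` in `I ∪ I'`, and `a i = b j` the pair `c • x i`, `y j` in `I' ∪ tr c I` (`pair_iff`, `a_conj`; the elements are different).
`univ.val.map a = I.val.map X.a`, `univ.val.map (-a ·) = (tr c I).val.map X.a`, etc. For the invariance: `(I.val.map X.a).map (rho g)` is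
`(tr g I).val.map X.a` (`a_smul`, image of an injective map: `Finset.image_val_of_injOn`). The existence of `g` which maps `{a i}` to `{b i}` or `{-b i}`: by `hr` there is `g` with `tr g I ≠ I, tr c I`, so
`tr g I` is `I'` or `tr c I'` (`hg`). `X.slopes = univ.val.map X.fn`, `X.fn x = 1/2 + X.a x`, and `univ = I ∪ tr c I ∪ I' ∪ tr c I'` (disjoint union, `full`).
-/

open Finset

namespace Pc0b458S

open Pc0b458F (CMDatum rho tr_mul tr_one card_tr)

variable {G : Type} [Group G] {D : Subgroup G} {c : G} {X : CMDatum G D c}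

/-- the family of the functions `a` on a finite set -/
def aa (J : Finset X.S) : Multiset (G → ℚ) := J.val.map X.a

theorem aa_tr (g : G) (J : Finset X.S) : aa (X.tr g J) = (aa J).map (rho g) := by
  unfold aa
  rw [CMDatum.tr, Finset.image_val_of_injOn (fun x _ y _ h => X.smul_inj h), Multiset.map_map,
    Multiset.map_map]
  refine Multiset.map_congr rfl fun x _ => ?_
  exact X.a_smul g x

theorem aa_tr_c (J : Finset X.S) : aa (X.tr c J) = (aa J).map (fun v => -v) := by
  unfold aa
  rw [CMDatum.tr, Finset.image_val_of_injOn (fun x _ y _ h => X.smul_inj h), Multiset.map_map,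
    Multiset.map_map]
  refine Multiset.map_congr rfl fun x _ => ?_
  exact X.a_conj x

theorem enum {I : Finset X.S} (hI : I.card = 3) : ∃ x : Fin 3 → X.S, (∀ i, x i ∈ I) ∧
    I.val = univ.val.map x ∧ ∑ y ∈ I, X.a y = X.a (x 0) + X.a (x 1) + X.a (x 2) := by
  obtain ⟨p, q, r, hpq, hpr, hqr, rfl⟩ := Finset.card_eq_three.1 hI
  refine ⟨![p, q, r], ?_, ?_, ?_⟩
  · intro i
    fin_cases i <;> simp
  · have h1 : ({p, q, r} : Finset X.S).val = p ::ₘ q ::ₘ {r} := by
      rw [Finset.insert_val_of_notMem (by simp [hpq, hpr]), Finset.insert_val_of_notMem (by simp [hqr])]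
      rfl
    rw [h1]
    rfl
  · rw [Finset.sum_insert (by simp [hpq, hpr]), Finset.sum_insert (by simp [hqr]), Finset.sum_singleton]
    simp [add_assoc]

theorem univ_val {I I' : Finset X.S} (hc : Fintype.card X.S = 12) (hd : Disjoint I I')
    (hf : X.Free (I ∪ I')) (hI : I.card = 3) (hI' : I'.card = 3) :
    (univ : Finset X.S).val = I.val + (X.tr c I).val + I'.val + (X.tr c I').val := by
  have hJ : (I ∪ I').card = 6 := by rw [Finset.card_union_of_disjoint hd, hI, hI']
  have hfull := full (J := I ∪ I') (by rw [hJ, hc]) hf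
  have hdd : ∀ y, y ∈ I → y ∈ I' → False := fun y h h' => (Finset.disjoint_left.1 hd) h h'
  have hff : ∀ y, y ∈ I ∪ I' → c • y ∈ I ∪ I' → False := fun y h h' => hf y h h'
  refine (Multiset.Nodup.ext univ.nodup ?_).2 ?_
  · rw [Multiset.nodup_add, Multiset.nodup_add, Multiset.nodup_add]
    refine ⟨⟨⟨I.nodup, (X.tr c I).nodup, ?_⟩, I'.nodup, ?_⟩, (X.tr c I').nodup, ?_⟩
    · rw [Multiset.disjoint_left]
      intro y hy hy'
      rw [Finset.mem_val] at hy hy'
      rw [mem_tr_c] at hy'
      exact hff y (Finset.mem_union_left _ hy) (Finset.mem_union_left _ hy')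
    · rw [Multiset.disjoint_left]
      intro y hy hy'
      rw [Multiset.mem_add, Finset.mem_val, Finset.mem_val] at hy
      rw [Finset.mem_val] at hy'
      rw [mem_tr_c] at hy
      rcases hy with hy | hy
      · exact hdd y hy hy'
      · exact hff y (Finset.mem_union_right _ hy') (Finset.mem_union_left _ hy)
    · rw [Multiset.disjoint_left]
      intro y hy hy'
      rw [Multiset.mem_add, Multiset.mem_add, Finset.mem_val, Finset.mem_val, Finset.mem_val] at hy
      rw [Finset.mem_val] at hy'
      rw [mem_tr_c] at hy hy'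
      rcases hy with (hy | hy) | hy
      · exact hff y (Finset.mem_union_left _ hy) (Finset.mem_union_right _ hy')
      · exact hdd _ hy hy'
      · exact hff y (Finset.mem_union_right _ hy) (Finset.mem_union_right _ hy')
  · intro y
    rw [Multiset.mem_add, Multiset.mem_add, Multiset.mem_add, Finset.mem_val, Finset.mem_val,
      Finset.mem_val, Finset.mem_val, Finset.mem_val, mem_tr_c, mem_tr_c]
    refine ⟨fun _ => ?_, fun _ => Finset.mem_univ y⟩
    rcases hfull y with h | h
    · rcases Finset.mem_union.1 h with h | h <;> tauto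
    · rcases Finset.mem_union.1 h with h | h <;> tauto

theorem exc_of (hc : Fintype.card X.S = 12) {I I' : Finset X.S} (hd : Disjoint I I')
    (hf : X.Free (I ∪ I')) (hp : ¬ HasPair X (I ∪ I')) (hn : ∀ x ∈ I ∪ I', X.a x ≠ 0)
    (hI : I.card = 3) (hI' : I'.card = 3) (h0 : ∑ x ∈ I, X.a x = 0) (h0' : ∑ x ∈ I', X.a x = 0)
    (hp' : ¬ HasPair X (I' ∪ X.tr c I)) (hr : ¬ X.RankTwo I)
    (hg : ∀ g : G, ∀ P : Finset X.S, P = I ∨ P = I' →
      X.tr g P = I ∨ X.tr g P = X.tr c I ∨ X.tr g P = I' ∨ X.tr g P = X.tr c I') :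
    Exc X.slopes := by
  obtain ⟨x, hx, hxv, hxs⟩ := enum hI
  obtain ⟨y, hy, hyv, hys⟩ := enum hI'
  have eI : aa I = univ.val.map (fun i => X.a (x i)) := by
    unfold aa
    rw [hxv, Multiset.map_map]
    rfl
  have eI' : aa I' = univ.val.map (fun i => X.a (y i)) := by
    unfold aa
    rw [hyv, Multiset.map_map]
    rfl
  have eIc : aa (X.tr c I) = univ.val.map (fun i => -X.a (x i)) := by
    rw [aa_tr_c, eI, Multiset.map_map]
    rfl
  have eIc' : aa (X.tr c I') = univ.val.map (fun i => -X.a (y i)) := by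
    rw [aa_tr_c, eI', Multiset.map_map]
    rfl
  refine ⟨fun i => X.a (x i), fun i => X.a (y i), ?_, ?_, ?_, ?_, ?_, ?_, ?_, ?_, ?_⟩
  · rw [← h0, hxs]
  · rw [← h0', hys]
  · exact fun i => hn _ (Finset.mem_union_left _ (hx i))
  · exact fun i => hn _ (Finset.mem_union_right _ (hy i))
  · intro i j e
    apply hp'
    refine ⟨c • x i, Finset.mem_union_right _ ?_, y j, Finset.mem_union_left _ (hy j), ?_, ?_⟩
    · rw [mem_tr_c, X.conj_conj]
      exact hx i
    · intro h
      apply hf (x i) (Finset.mem_union_left _ (hx i))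
      rw [h]
      exact Finset.mem_union_right _ (hy j)
    · rw [pair_iff, X.a_conj]
      have e' : X.a (x i) = X.a (y j) := e
      rw [e', neg_add_cancel]
  · intro i j e
    apply hp
    refine ⟨x i, Finset.mem_union_left _ (hx i), y j, Finset.mem_union_right _ (hy j), ?_, ?_⟩
    · intro h
      exact (Finset.disjoint_left.1 hd) (hx i) (h ▸ hy j)
    · rw [pair_iff]
      have e' : X.a (x i) = -X.a (y j) := e
      rw [e', neg_add_cancel]
  · intro g P hP
    have key : ∀ Q : Finset X.S, Q = I ∨ Q = I' → aa Q = P →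
        P.map (rho g) = univ.val.map (fun i => X.a (x i)) ∨
        P.map (rho g) = univ.val.map (fun i => -X.a (x i)) ∨
        P.map (rho g) = univ.val.map (fun i => X.a (y i)) ∨
        P.map (rho g) = univ.val.map (fun i => -X.a (y i)) := by
      rintro Q hQ rfl
      rw [← aa_tr, ← eI, ← eIc, ← eI', ← eIc']
      rcases hg g Q hQ with h | h | h | h
      · exact Or.inl (by rw [h])
      · exact Or.inr (Or.inl (by rw [h]))
      · exact Or.inr (Or.inr (Or.inl (by rw [h])))
      · exact Or.inr (Or.inr (Or.inr (by rw [h])))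
    rcases hP with hP | hP
    · exact key I (Or.inl rfl) (by rw [eI, hP])
    · have hP' : P = univ.val.map (fun i => X.a (y i)) := hP
      exact key I' (Or.inr rfl) (by rw [eI', hP'])
  · unfold CMDatum.RankTwo at hr
    push Not at hr
    obtain ⟨g, hg1, hg2⟩ := hr
    refine ⟨g, ?_⟩
    rw [← eI, ← aa_tr, ← eI', ← eIc']
    rcases hg g I (Or.inl rfl) with h | h | h | h
    · exact absurd h hg1
    · exact absurd h hg2
    · exact Or.inl (by rw [h])
    · exact Or.inr (by rw [h])
  · have h1 : X.slopes = ((univ : Finset X.S).val.map X.a).map fun v g => 1 / 2 + v g := by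
      rw [CMDatum.slopes, Multiset.map_map]
      refine Multiset.map_congr rfl fun z _ => ?_
      funext g
      rw [CMDatum.fn, Function.comp_apply, X.a_apply]
      ring
    rw [h1, univ_val hc hd hf hI hI']
    congr 1
    rw [Multiset.map_add, Multiset.map_add, Multiset.map_add]
    change aa I + aa (X.tr c I) + aa I' + aa (X.tr c I') = _
    rw [eI, eIc, eI', eIc']
    rfl

end Pc0b458S
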