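import Pool.Agent.Lib.Pc0b458S.CombB
import Pool.Agent.Lib.Pc0b458S.CombD
import Pool.Agent.Lib.Pc0b458S.CombE

/-!
# Choice of the CM algebra
-/

universe u

open Finset Pc0b458 Pc0b458P

namespace Pc0b458S

open Pc0b458F (CMDatum rho tr_mul tr_one card_tr IsNonsplit)

theorem card_S {T : NumTheory.{u}} {W : EffData T} {A : T.AV} {L : T.Z A} {d : CMData T W A L}
    {G : Type} [Group G] {D : Subgroup G} {c : G} (γ : GalData d D c) :
    Fintype.card γ.X.S = 2 * T.dim A := by
  rw [Fintype.card_congr γ.e, Fintype.card_prod, Fintype.card_bool, d.card_Φ, mul_comm]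

theorem tr_image {G : Type} [Group G] {D : Subgroup G} {c : G} {X₀ X : CMDatum G D c}
    (ι : X₀.S → X.S) (he : ∀ (g : G) (x : X₀.S), ι (g • x) = g • ι x) (g : G)
    (K : Finset X₀.S) : X.tr g (K.image ι) = (X₀.tr g K).image ι := by
  unfold CMDatum.tr
  rw [Finset.image_image, Finset.image_image]
  refine Finset.image_congr fun x _ => ?_
  simp only [Function.comp_apply]
  exact (he g x).symm

/-- pull-back of a set with `IsFive` under an equivariant embedding which preserves the slopes -/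
theorem isFive_pull {G : Type} [Group G] {D : Subgroup G} {c : G} {X₀ X : CMDatum G D c}
    (ι : X₀.S → X.S) (hi : Function.Injective ι) (he : ∀ (g : G) (x : X₀.S), ι (g • x) = g • ι x)
    (hs : ∀ x : X₀.S, X.s (ι x) = X₀.s x) {K : Finset X₀.S} (h : IsFive X (K.image ι)) :
    IsFive X₀ K := by
  obtain ⟨h1, h2, h3, h4, h5⟩ := h
  have hss : ∀ (g : G) (x : X₀.S), X.s (g • ι x) = X₀.s (g • x) := fun g x => by
    rw [← he, hs]
  refine ⟨?_, ?_, ?_, ?_, ?_⟩
  · rwa [Finset.card_image_of_injective _ hi] at h1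
  · intro x hx hcx
    refine h2 (ι x) (Finset.mem_image_of_mem ι hx) ?_
    rw [← he]
    exact Finset.mem_image_of_mem ι hcx
  · rintro ⟨x, hx, y, hy, hxy, hp⟩
    refine h3 ⟨ι x, Finset.mem_image_of_mem ι hx, ι y, Finset.mem_image_of_mem ι hy,
      fun e => hxy (hi e), fun g => ?_⟩
    rw [hss, hss]
    exact hp g
  · intro g
    have hinj := Finset.image_injective hi
    rcases h4 g with h | h
    · left
      rw [tr_image ι he] at h
      exact hinj h
    · right
      rw [tr_image ι he, tr_image ι he] at h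
      exact hinj h
  · rw [Finset.sum_image fun x _ y _ e => hi e] at h5
    rw [← h5]
    refine Finset.sum_congr rfl fun x _ => ?_
    funext g
    rw [CMDatum.a_apply, CMDatum.a_apply, hss]

/-- a bad set contains a supersingular element -/
theorem bad_set {G : Type} [Group G] {D : Subgroup G} {c : G} {X : CMDatum G D c}
    (hc : Fintype.card X.S = 12) (hne : ¬ Exc X.slopes) {J : Finset X.S} (hT : X.Tate 3 J)
    (hf : X.Free J) (hp : ¬ HasPair X J) (hr : ¬ X.RankTwo J) (hh : ¬ HasHalf X J) :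
    ∃ x ∈ J, X.a x = 0 ∧ IsFive X (J.erase x) ∧ ∀ y : X.S, X.a y = 0 → y = x ∨ y = c • x := by
  have hJ : J.card = 6 := hT.1
  have h0 : ∑ x ∈ J, X.a x = 0 := tate_sum hT
  by_cases hn : ∀ x ∈ J, X.a x ≠ 0
  · exfalso
    obtain ⟨I, I', hd, hu, hI, hI', hs, hs', hp', hg⟩ := four_sets hc hJ hf hp h0 hn hr
    apply hne
    subst hu
    exact exc_of hc hd hf hp hn hI hI' hs hs' hp'
      (fun h => hh ⟨I, Finset.subset_union_left, hI, h, hs⟩) hg
  · push Not at hn
    obtain ⟨x, hx, hx0⟩ := hn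
    obtain ⟨h1, h2⟩ := five_of hc hJ hf hp h0 hx hx0
    exact ⟨x, hx, hx0, h1, h2⟩

theorem a_zero_iff {G : Type} [Group G] {D : Subgroup G} {c : G} {X : CMDatum G D c} {x : X.S} :
    X.a x = 0 ↔ ∀ g : G, X.s (g • x) = 1 / 2 := by
  constructor
  · intro h g
    have := congrFun h g
    rw [CMDatum.a_apply, Pi.zero_apply] at this
    linarith
  · intro h
    funext g
    rw [CMDatum.a_apply, Pi.zero_apply, h g, sub_self]

/-- the situation of a bad set -/
theorem bad_pull {G : Type} [Group G] {D : Subgroup G} {c : G} {X₀ X : CMDatum G D c}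
    (hX₀ : ∀ x : X₀.S, ∃ g : G, X₀.s (g • x) ≠ 1 / 2)
    (ι : X₀.S → X.S) (hi : Function.Injective ι) (he : ∀ (g : G) (x : X₀.S), ι (g • x) = g • ι x)
    (hs : ∀ x : X₀.S, X.s (ι x) = X₀.s x)
    (hrg : ∀ x : X.S, x ∉ Set.range ι → ∀ g : G, X.s (g • x) = 1 / 2)
    (hc : Fintype.card X.S = 12) {J : Finset X.S} (hf : X.Free J) {x : X.S} (hx : x ∈ J)
    (hx0 : X.a x = 0) (h5 : IsFive X (J.erase x)) (hy : ∀ y : X.S, X.a y = 0 → y = x ∨ y = c • x) :
    ∃ K : Finset X₀.S, IsFive X₀ K ∧ J = insert x (K.image ι) ∧ Fintype.card X₀.S = 10 ∧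
      x ∉ Set.range ι := by
  have hnr : ∀ z : X.S, X.a z = 0 → z ∉ Set.range ι := by
    rintro z hz ⟨y, rfl⟩
    obtain ⟨g, hg⟩ := hX₀ y
    apply hg
    rw [← hs, he]
    exact a_zero_iff.1 hz g
  have hcx0 : X.a (c • x) = 0 := by rw [CMDatum.a_conj, hx0, neg_zero]
  have hrg' : ∀ z : X.S, z ∉ Set.range ι → z = x ∨ z = c • x := fun z hz =>
    hy z (a_zero_iff.2 (hrg z hz))
  set K : Finset X₀.S := univ.filter fun y => ι y ∈ J.erase x with hK
  have hKJ : K.image ι = J.erase x := by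
    ext z
    rw [Finset.mem_image]
    constructor
    · rintro ⟨y, hy, rfl⟩
      exact (Finset.mem_filter.1 hy).2
    · intro hz
      have hzr : z ∈ Set.range ι := by
        by_contra hzr
        rcases hrg' z hzr with h | h
        · exact Finset.ne_of_mem_erase hz h
        · exact hf x hx (h ▸ Finset.mem_of_mem_erase hz)
      obtain ⟨y, rfl⟩ := hzr
      exact ⟨y, Finset.mem_filter.2 ⟨Finset.mem_univ _, hz⟩, rfl⟩
  refine ⟨K, ?_, ?_, ?_, hnr x hx0⟩
  · apply isFive_pull ι hi he hs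
    rw [hKJ]
    exact h5
  · rw [hKJ, Finset.insert_erase hx]
  · have h1 : (univ : Finset X₀.S).image ι = univ \ {x, c • x} := by
      ext z
      rw [Finset.mem_image, Finset.mem_sdiff, Finset.mem_insert, Finset.mem_singleton]
      constructor
      · rintro ⟨y, _, rfl⟩
        refine ⟨Finset.mem_univ _, ?_⟩
        rintro (h | h)
        · exact hnr x hx0 ⟨y, h⟩
        · exact hnr (c • x) hcx0 ⟨y, h⟩
      · rintro ⟨_, h⟩
        by_contra hz
        apply h
        apply hrg'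
        rintro ⟨y, rfl⟩
        exact hz ⟨y, Finset.mem_univ _, rfl⟩
    have h2 := congrArg Finset.card h1
    rw [Finset.card_image_of_injective _ hi, Finset.card_univ,
      Finset.card_sdiff_of_subset (Finset.subset_univ _), Finset.card_univ, hc,
      Finset.card_pair (X.conj_ne x).symm] at h2
    exact h2

theorem choice (T : FpTheory.{u}) (A : T.AV) (hA : T.dim A = 6) (hne : ¬ Exc (T.sl A)) :
    ∃ L ∈ T.Pol A, ∃ (d : CMData T.toNumTheory T.eff A L) (γ : GalData d (T.dec A) (T.conj A)),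
      (∀ J : Finset γ.X.S, γ.X.Tate 3 J → γ.X.Free J →
        HasPair γ.X J ∨ γ.X.RankTwo J ∨ HasHalf γ.X J) ∧
      ∀ H' : Subgroup (T.Gal A), IsNonsplit (T.dec A) (T.conj A) H' →
        ∃ (A' : T.AV) (L' : T.Z A') (_ : L' ∈ T.Pol A') (d' : CMData T.toNumTheory T.eff A' L')
          (γ' : GalData d' (T.dec A) (T.conj A)), Nonempty (ExtData γ γ' H') := by
  obtain ⟨X₀, hX₀, hall⟩ := T.cmg A
  by_cases hex : ∃ K₀ : Finset X₀.S, IsFive X₀ K₀
  · obtain ⟨K₀, hK₀⟩ := hex
    obtain ⟨L, hL, d, γ, ι, hi, he, hs, hr, hsl, hext⟩ := hall (stab K₀) (stab_nonsplit hK₀)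
    refine ⟨L, hL, d, γ, ?_, hext⟩
    intro J hT hf
    by_contra hcon
    push Not at hcon
    obtain ⟨hp, hrt, hhh⟩ := hcon
    have hc : Fintype.card γ.X.S = 12 := by rw [card_S, hA]
    obtain ⟨x, hx, hx0, h5, hy⟩ := bad_set hc (by rw [hsl]; exact hne) hT hf hp hrt hhh
    obtain ⟨K, hK, hJK, hc0, hxr⟩ := bad_pull hX₀ ι hi he hs (fun x hx => (hr x hx).1) hc hf hx
      hx0 h5 hy
    have hst : stab K = stab K₀ := stab_unique hc0 hK hK₀
    have hfix : ∀ h ∈ stab K₀, h • x = x := (hr x hxr).2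
    apply hrt
    intro g
    have htr : ∀ g : T.Gal A, γ.X.tr g J = insert (g • x) ((X₀.tr g K).image ι) := by
      intro g
      rw [hJK, ← tr_image ι he]
      unfold CMDatum.tr
      rw [Finset.image_insert]
    by_cases hg : g ∈ stab K₀
    · left
      rw [htr g, hfix g hg]
      have : X₀.tr g K = K := by
        rw [← hst] at hg
        exact hg
      rw [this, ← hJK]
    · right
      rw [htr g, htr (T.conj A), fix_of_index (stab_nonsplit hK₀) hfix hg]
      rcases hK.2.2.2.1 g with h | h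
      · exfalso
        apply hg
        rw [← hst]
        exact h
      · rw [h]
  · obtain ⟨H₀, hH₀⟩ := T.nonsplit A
    obtain ⟨L, hL, d, γ, ι, hi, he, hs, hr, hsl, hext⟩ := hall H₀ hH₀
    refine ⟨L, hL, d, γ, ?_, hext⟩
    intro J hT hf
    by_contra hcon
    push Not at hcon
    obtain ⟨hp, hrt, hhh⟩ := hcon
    have hc : Fintype.card γ.X.S = 12 := by rw [card_S, hA]
    obtain ⟨x, hx, hx0, h5, hy⟩ := bad_set hc (by rw [hsl]; exact hne) hT hf hp hrt hhh
    obtain ⟨K, hK, _⟩ := bad_pull hX₀ ι hi he hs (fun x hx => (hr x hx).1) hc hf hx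
      hx0 h5 hy
    exact hex ⟨K, hK⟩

end Pc0b458S
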