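import Pool.Agent.Lib.Pc0b458S.Defs

/-!
# Module CombA: full sets and their translates (about 1.2h)

`X.tr g J` is the translate (`Finset.image (g • ·)`), `X.Free J` means `x ∈ J → c • x ∉ J`; see `Pc0b458F/Datum.lean` and
`Pc0b458F/Theory.lean` (`tr_mul`, `tr_one`, `card_tr`). `a x g = s (g • x) - 1/2`, `a_smul : a (g • x) = rho g (a x)`,
`a_conj : a (c • x) = - a x`, `conj_comm : c • g • x = g • c • x`.

* `full`: `J` and `tr c J` are disjoint and have together as many elements as `S`.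
* `split`: let `U = J \ tr g J`. `tr g J` is free and full as well. If `y ∈ tr g J` and `y ∉ J` then `c • y ∈ J` (full) and
  `c • y ∉ tr g J` (free), so `c • y ∈ U` and `y = c • c • y ∈ tr c U`. If `y ∈ tr c U`, `y = c • u`, `u ∈ J`, `u ∉ tr g J`, then
  `c • u ∈ tr g J` as `tr g J` is full.
* `sum_diff`: `0 = ∑_{tr g J} a = ∑_{J \ U} a + ∑_{tr c U} a = ∑_J a - 2 ∑_U a`.
-/

open Finset

namespace Pc0b458S

open Pc0b458F (CMDatum rho tr_mul tr_one card_tr)

variable {G : Type} [Group G] {D : Subgroup G} {c : G} {X : CMDatum G D c}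

theorem mem_tr_c {J : Finset X.S} {x : X.S} : x ∈ X.tr c J ↔ c • x ∈ J := by
  rw [CMDatum.tr, Finset.mem_image]
  constructor
  · rintro ⟨y, hy, rfl⟩
    rwa [X.conj_conj]
  · intro h
    exact ⟨c • x, h, X.conj_conj x⟩

theorem tr_tr_c (J : Finset X.S) : X.tr c (X.tr c J) = J := by
  ext x
  rw [mem_tr_c, mem_tr_c, X.conj_conj]

theorem mem_tr_iff (g : G) {J : Finset X.S} {x : X.S} : g • x ∈ X.tr g J ↔ x ∈ J := by
  rw [CMDatum.tr, Finset.mem_image]
  constructor
  · rintro ⟨y, hy, e⟩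
    rwa [← X.smul_inj e]
  · intro h
    exact ⟨x, h, rfl⟩

theorem mem_tr_iff' (g : G) {J : Finset X.S} {x : X.S} : x ∈ X.tr g J ↔ g⁻¹ • x ∈ J := by
  rw [← mem_tr_iff g (x := g⁻¹ • x), smul_inv_smul]

theorem tr_comm_c (g : G) (J : Finset X.S) : X.tr g (X.tr c J) = X.tr c (X.tr g J) := by
  ext x
  rw [mem_tr_c, mem_tr_iff', mem_tr_c, mem_tr_iff', X.conj_comm]

theorem tr_free (g : G) {J : Finset X.S} (h : X.Free J) : X.Free (X.tr g J) := by
  intro x hx hx'
  rw [mem_tr_iff'] at hx hx'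
  rw [← X.conj_comm] at hx'
  exact h _ hx hx'

theorem tr_sum (g : G) (J : Finset X.S) : ∑ x ∈ X.tr g J, X.a x = rho g (∑ x ∈ J, X.a x) := by
  rw [CMDatum.tr, Finset.sum_image (fun x _ y _ h => X.smul_inj h)]
  funext h
  rw [Finset.sum_apply]
  simp only [X.a_smul]
  rw [Pc0b458F.rho_apply, Finset.sum_apply]
  rfl

theorem sum_tr_c (J : Finset X.S) : ∑ x ∈ X.tr c J, X.a x = - ∑ x ∈ J, X.a x := by
  rw [CMDatum.tr, Finset.sum_image (fun x _ y _ h => X.smul_inj h), ← Finset.sum_neg_distrib]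
  exact Finset.sum_congr rfl fun x _ => X.a_conj x

/-- a pair of Tate type, in terms of the functions `a` -/
theorem pair_iff {x y : X.S} : (∀ g : G, X.s (g • x) + X.s (g • y) = 1) ↔ X.a x + X.a y = 0 := by
  constructor
  · intro h
    funext g
    rw [Pi.add_apply, X.a_apply, X.a_apply, Pi.zero_apply]
    linarith [h g]
  · intro h g
    have := congrFun h g
    rw [Pi.add_apply, X.a_apply, X.a_apply, Pi.zero_apply] at this
    linarith

theorem hasPair_tr (g : G) {J : Finset X.S} (h : HasPair X (X.tr g J)) : HasPair X J := by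
  obtain ⟨x, hx, y, hy, hxy, h⟩ := h
  rw [mem_tr_iff'] at hx hy
  refine ⟨_, hx, _, hy, fun e => hxy (X.smul_inj e), fun k => ?_⟩
  rw [← mul_smul, ← mul_smul]
  exact h _

theorem tate_sum {n : ℕ} {J : Finset X.S} (h : X.Tate n J) : ∑ x ∈ J, X.a x = 0 := by
  funext g
  rw [Finset.sum_apply]
  simp only [X.a_apply]
  rw [Finset.sum_sub_distrib, h.2 g, Finset.sum_const, h.1, nsmul_eq_mul, Pi.zero_apply]
  push_cast
  ring

theorem full {J : Finset X.S} (hc : Fintype.card X.S = 2 * J.card) (hf : X.Free J) (x : X.S) :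
    x ∈ J ∨ c • x ∈ J := by
  have hd : Disjoint J (X.tr c J) := by
    rw [Finset.disjoint_left]
    intro y hy hy'
    rw [mem_tr_c] at hy'
    exact hf y hy hy'
  have hu : J ∪ X.tr c J = Finset.univ := by
    rw [← Finset.card_eq_iff_eq_univ, Finset.card_union_of_disjoint hd, card_tr, hc]
    ring
  have hx := Finset.mem_univ x
  rw [← hu, Finset.mem_union, mem_tr_c] at hx
  exact hx

theorem split {J : Finset X.S} (hc : Fintype.card X.S = 2 * J.card) (hf : X.Free J) (g : G) :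
    X.tr g J = (J \ (J \ X.tr g J)) ∪ X.tr c (J \ X.tr g J) := by
  have hf' := tr_free g hf
  have hc' : Fintype.card X.S = 2 * (X.tr g J).card := by rw [card_tr]; exact hc
  ext y
  rw [Finset.mem_union, mem_tr_c]
  simp only [Finset.mem_sdiff, not_and, not_not]
  have h1 := full hc hf y
  have h2 := full hc' hf' y
  have h3 := hf y
  have h4 := hf' y
  constructor
  · intro h
    by_cases hy : y ∈ J
    · exact Or.inl ⟨hy, fun _ => h⟩
    · exact Or.inr ⟨h1.resolve_left hy, h4 h⟩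
  · rintro (⟨hy, h⟩ | ⟨hy, h⟩)
    · exact h hy
    · exact h2.resolve_right h

theorem sum_diff {J : Finset X.S} (hc : Fintype.card X.S = 2 * J.card) (hf : X.Free J)
    (h0 : ∑ x ∈ J, X.a x = 0) (g : G) : ∑ x ∈ J \ X.tr g J, X.a x = 0 := by
  have h1 : ∑ x ∈ X.tr g J, X.a x = 0 := by
    rw [tr_sum, h0]
    funext h
    rw [Pc0b458F.rho_apply]
    rfl
  rw [split hc hf g, Finset.sum_union] at h1
  · rw [sum_tr_c] at h1
    have h2 := Finset.sum_sdiff (f := X.a) (Finset.sdiff_subset : J \ X.tr g J ⊆ J)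
    rw [h0] at h2
    funext k
    have h1k := congrFun h1 k
    have h2k := congrFun h2 k
    simp only [Pi.add_apply, Pi.neg_apply, Pi.zero_apply] at h1k h2k ⊢
    linarith
  · rw [Finset.disjoint_left]
    intro y hy hy'
    rw [mem_tr_c] at hy'
    exact hf y (Finset.mem_sdiff.1 hy).1 (Finset.mem_sdiff.1 hy').1

/-- `J \ tr g J` determines `tr g J` -/
theorem tr_eq_of {J : Finset X.S} (hc : Fintype.card X.S = 2 * J.card) (hf : X.Free J) {g h : G}
    (e : J \ X.tr g J = J \ X.tr h J) : X.tr g J = X.tr h J := by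
  rw [split hc hf g, split hc hf h, e]

end Pc0b458S
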