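import Pool.Agent.Lib.Pc0b458S.CombA

/-!
# Module CombB: sets without supersingular elements, the four sets (about 1.8h)

Call a set `J` good if it has 6 elements, is free, has no pair of Tate type, `∑_J a = 0` and `a x ≠ 0` for `x ∈ J`; translates of good sets
are good (`CombA`).
(i) For a good `J` and `g`, `U = J \ tr g J` has `0`, `3` or `6` elements: `∑_U a = 0 = ∑_{J \ U} a`; one element is impossible as
`a x ≠ 0`, two elements would be a pair; the same for the complement.
(ii) `card U = 0` means `tr g J = J` and `card U = 6` means `tr g J = tr c J` (`split`).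
(iii) As `J` is not `RankTwo` there is `g₀` with `card U₀ = 3`, `U₀ = J \ tr g₀ J`. Put `I = U₀`, `I' = J \ U₀`,
`J' = tr g₀ J = I' ∪ tr c I`.
(iv) For every `g`: `tr g J` is one of `J`, `tr c J`, `J'`, `tr c J'`. Let `V = J \ tr g J`. If `card V = 3`: `W = J' \ tr g J` is
`(V \ U₀) ∪ tr c (U₀ \ V)`, with `card (V \ U₀) + card (U₀ \ V) = 2 card (U₀ \ V)` elements; by (i) for the good set `J'` and its
translate `tr (g g₀⁻¹) J' = tr g J` this is `0`, `3` or `6`, so `U₀ = V` and `tr g J = J'`, or `U₀ ∩ V = ∅`, `V = I'` and `tr g J = I ∪ tr c I' = tr c J'`.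
(v) The same for `tr g J' = tr (g g₀) J`. Also `tr g J' ≠ tr g J, tr c (tr g J)` (three elements are different).
(vi) `I = J ∩ tr c J'`, `I' = J ∩ J'`, so `tr g I = tr g J ∩ tr c (tr g J')`, `tr g I' = tr g J ∩ tr g J'` (injectivity). Go through the eight
cases of (iv), (v): the intersections are `J ∩ tr c J' = I`, `J ∩ J' = I'`, `tr c J ∩ J' = tr c I`, `tr c J ∩ tr c J' = tr c I'`.
The last two statements: `∑_I a = 0` (`sum_diff`), `¬ HasPair (I' ∪ tr c I)` since this set is `J' = tr g₀ J` (`hasPair_tr`).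
-/

open Finset

namespace Pc0b458S

open Pc0b458F (CMDatum rho tr_mul tr_one card_tr)

variable {G : Type} [Group G] {D : Subgroup G} {c : G} {X : CMDatum G D c}

/-- free sets with six elements -/
theorem conj_iff (hc : Fintype.card X.S = 12) {J : Finset X.S} (hJ : J.card = 6)
    (hf : X.Free J) (x : X.S) : c • x ∈ J ↔ x ∉ J := by
  constructor
  · intro h hx
    exact hf x hx h
  · intro h
    exact (full (by omega) hf x).resolve_left h

theorem ff_ext {A C C' : Finset X.S} (hA : ∀ x, c • x ∈ A ↔ x ∉ A) (hC : ∀ x, c • x ∈ C ↔ x ∉ C)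
    (hC' : ∀ x, c • x ∈ C' ↔ x ∉ C') (h : A \ C = A \ C') : C = C' := by
  ext x
  have h1 := Finset.ext_iff.1 h x
  have h2 := Finset.ext_iff.1 h (c • x)
  simp only [mem_sdiff, hA, hC, hC'] at h1 h2
  tauto

theorem card_ne (J : Finset X.S) (hp : ¬ HasPair X J) (hn : ∀ x ∈ J, X.a x ≠ 0) {V : Finset X.S}
    (hV : V ⊆ J) (h0 : ∑ x ∈ V, X.a x = 0) : V.card ≠ 1 ∧ V.card ≠ 2 := by
  constructor
  · intro h
    obtain ⟨x, rfl⟩ := card_eq_one.1 h
    rw [sum_singleton] at h0
    exact hn x (hV (mem_singleton_self x)) h0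
  · intro h
    obtain ⟨x, y, hxy, rfl⟩ := card_eq_two.1 h
    rw [sum_pair hxy] at h0
    exact hp ⟨x, hV (by simp), y, hV (by simp), hxy, pair_iff.2 h0⟩

theorem card_diff (hc : Fintype.card X.S = 12) {J : Finset X.S} (hJ : J.card = 6)
    (hf : X.Free J) (hp : ¬ HasPair X J) (h0 : ∑ x ∈ J, X.a x = 0) (hn : ∀ x ∈ J, X.a x ≠ 0)
    (g : G) : (J \ X.tr g J).card = 0 ∨ (J \ X.tr g J).card = 3 ∨ (J \ X.tr g J).card = 6 := by
  have h1 := sum_diff (by omega) hf h0 g
  have h2 := card_ne J hp hn (V := J \ X.tr g J) sdiff_subset h1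
  have h3 : ∑ x ∈ J \ (J \ X.tr g J), X.a x = 0 := by
    have := sum_sdiff (f := X.a) (sdiff_subset : J \ X.tr g J ⊆ J)
    rw [h1, h0, add_zero] at this
    exact this
  have h4 := card_ne J hp hn (V := J \ (J \ X.tr g J)) sdiff_subset h3
  have h5 : (J \ (J \ X.tr g J)).card + (J \ X.tr g J).card = J.card :=
    card_sdiff_add_card_eq_card sdiff_subset
  have h6 : (J \ X.tr g J).card ≤ J.card := card_le_card sdiff_subset
  omega

theorem card_symm {A B C : Finset X.S} (hA : ∀ x, c • x ∈ A ↔ x ∉ A)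
    (hB : ∀ x, c • x ∈ B ↔ x ∉ B) (hC : ∀ x, c • x ∈ C ↔ x ∉ C) :
    (B \ C).card = ((A \ C) \ (A \ B)).card + ((A \ B) \ (A \ C)).card := by
  have h1 : B \ C = ((A \ C) \ (A \ B)) ∪ X.tr c ((A \ B) \ (A \ C)) := by
    ext x
    simp only [mem_union, mem_tr_c, mem_sdiff, hA, hB, hC]
    tauto
  rw [h1, card_union_of_disjoint, card_tr]
  rw [disjoint_left]
  intro x hx hx'
  simp only [mem_tr_c, mem_sdiff, hA, hB, hC] at hx hx'
  tauto

theorem key {A B C : Finset X.S} (hA : ∀ x, c • x ∈ A ↔ x ∉ A)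
    (hB : ∀ x, c • x ∈ B ↔ x ∉ B) (hC : ∀ x, c • x ∈ C ↔ x ∉ C) (h6 : A.card = 6)
    (h1 : (A \ B).card = 3)
    (h2 : (A \ C).card = 0 ∨ (A \ C).card = 3 ∨ (A \ C).card = 6)
    (h3 : (B \ C).card = 0 ∨ (B \ C).card = 3 ∨ (B \ C).card = 6) :
    C = A ∨ C = X.tr c A ∨ C = B ∨ C = X.tr c B := by
  have cc : ∀ {D' : Finset X.S}, (∀ x, c • x ∈ D' ↔ x ∉ D') →
      ∀ x, c • x ∈ X.tr c D' ↔ x ∉ X.tr c D' := by
    intro D' h x
    simp only [mem_tr_c, h]
  have h4 := card_symm hA hB hC
  rcases h2 with h2 | h2 | h2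
  · left
    apply ff_ext hA hC hA
    rw [card_eq_zero.1 h2, sdiff_self]
    rfl
  · right; right
    have h5 : ((A \ C) \ (A \ B)).card + ((A \ C) ∩ (A \ B)).card = (A \ C).card :=
      card_sdiff_add_card_inter _ _
    have h7 : ((A \ B) \ (A \ C)).card + ((A \ B) ∩ (A \ C)).card = (A \ B).card :=
      card_sdiff_add_card_inter _ _
    rw [inter_comm] at h7
    have h8 : ((A \ C) \ (A \ B)).card = 0 ∨ ((A \ C) ∩ (A \ B)).card = 0 := by omega
    rcases h8 with h8 | h8
    · left
      apply ff_ext hA hC hB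
      have h9 : A \ C ⊆ A \ B := sdiff_eq_empty_iff_subset.1 (card_eq_zero.1 h8)
      exact eq_of_subset_of_card_le h9 (by omega)
    · right
      apply ff_ext hA hC (cc hB)
      have h9 : A \ C ⊆ A \ X.tr c B := by
        intro x hx
        have h10 := Finset.ext_iff.1 (card_eq_zero.1 h8) x
        simp only [mem_inter, mem_sdiff, notMem_empty, iff_false] at h10 hx
        simp only [mem_sdiff, mem_tr_c, hB]
        tauto
      have h11 : (A \ X.tr c B).card + (A \ B).card = A.card := by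
        rw [← card_sdiff_add_card_inter A (A \ B)]
        congr 1
        · congr 1
          ext x
          simp only [mem_sdiff, mem_tr_c, hB]
          tauto
        · congr 1
          ext x
          simp only [mem_sdiff, mem_inter]
          tauto
      exact eq_of_subset_of_card_le h9 (by omega)
  · right; left
    apply ff_ext hA hC (cc hA)
    have h9 : A \ C = A := eq_of_subset_of_card_le sdiff_subset (by omega)
    rw [h9]
    ext x
    simp only [mem_sdiff, mem_tr_c, hA]
    tauto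

theorem tr_sdiff (g : G) (A B : Finset X.S) : X.tr g (A \ B) = X.tr g A \ X.tr g B :=
  image_sdiff A B fun _ _ h => X.smul_inj h

theorem tr_inter (g : G) (A B : Finset X.S) : X.tr g (A ∩ B) = X.tr g A ∩ X.tr g B :=
  image_inter A B fun _ _ h => X.smul_inj h

theorem tr_inj {g : G} {A B : Finset X.S} (h : X.tr g A = X.tr g B) : A = B := by
  have := congrArg (X.tr g⁻¹) h
  rwa [← tr_mul, ← tr_mul, inv_mul_cancel, tr_one, tr_one] at this

theorem four_sets (hc : Fintype.card X.S = 12) {J : Finset X.S} (hJ : J.card = 6)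
    (hf : X.Free J) (hp : ¬ HasPair X J) (h0 : ∑ x ∈ J, X.a x = 0) (hn : ∀ x ∈ J, X.a x ≠ 0)
    (hr : ¬ X.RankTwo J) :
    ∃ I I' : Finset X.S, Disjoint I I' ∧ I ∪ I' = J ∧ I.card = 3 ∧ I'.card = 3 ∧
      ∑ x ∈ I, X.a x = 0 ∧ ∑ x ∈ I', X.a x = 0 ∧ ¬ HasPair X (I' ∪ X.tr c I) ∧
      (∀ g : G, ∀ P : Finset X.S, P = I ∨ P = I' →
        X.tr g P = I ∨ X.tr g P = X.tr c I ∨ X.tr g P = I' ∨ X.tr g P = X.tr c I') := by
  have hJ2 : Fintype.card X.S = 2 * J.card := by omega
  have hff : ∀ g : G, ∀ x, c • x ∈ X.tr g J ↔ x ∉ X.tr g J := fun g =>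
    conj_iff hc (by rw [card_tr, hJ]) (tr_free g hf)
  have hA : ∀ x, c • x ∈ J ↔ x ∉ J := conj_iff hc hJ hf
  unfold Pc0b458F.CMDatum.RankTwo at hr
  push Not at hr
  obtain ⟨g₀, hg1, hg2⟩ := hr
  have hB := hff g₀
  have cJ : ∀ x, c • x ∈ X.tr c J ↔ x ∉ X.tr c J := by
    intro x
    simp only [mem_tr_c, hA]
  have hU : (J \ X.tr g₀ J).card = 3 := by
    rcases card_diff hc hJ hf hp h0 hn g₀ with h | h | h
    · exfalso
      apply hg1
      apply ff_ext hA hB hA
      rw [card_eq_zero.1 h, sdiff_self]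
      rfl
    · exact h
    · exfalso
      apply hg2
      apply ff_ext hA hB cJ
      have h9 : J \ X.tr g₀ J = J := eq_of_subset_of_card_le sdiff_subset (by omega)
      rw [h9]
      ext x
      simp only [mem_sdiff, mem_tr_c, hA]
      tauto
  have hI' : J \ (J \ X.tr g₀ J) = J ∩ X.tr g₀ J := by
    ext x
    simp only [mem_sdiff, mem_inter]
    tauto
  have hs := sum_diff hJ2 hf h0 g₀
  -- the translates
  have hB0 : ∑ x ∈ X.tr g₀ J, X.a x = 0 := by rw [tr_sum, h0]; rfl
  have hBp : ¬ HasPair X (X.tr g₀ J) := fun h => hp (hasPair_tr g₀ h)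
  have hBn : ∀ x ∈ X.tr g₀ J, X.a x ≠ 0 := by
    intro x hx h
    obtain ⟨y, hy, rfl⟩ := mem_image.1 hx
    rw [X.a_smul] at h
    apply hn y hy
    funext k
    have := congrFun h (k * g₀⁻¹)
    rw [Pc0b458F.rho_apply] at this
    simpa using this
  have hcase : ∀ g : G, X.tr g J = J ∨ X.tr g J = X.tr c J ∨ X.tr g J = X.tr g₀ J ∨
      X.tr g J = X.tr c (X.tr g₀ J) := by
    intro g
    refine key hA hB (hff g) hJ hU (card_diff hc hJ hf hp h0 hn g) ?_
    have := card_diff hc (by rw [card_tr, hJ]) (tr_free g₀ hf) hBp hB0 hBn (g * g₀⁻¹)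
    rwa [← tr_mul, inv_mul_cancel_right] at this
  refine ⟨J \ X.tr g₀ J, J ∩ X.tr g₀ J, ?_, ?_, hU, ?_, hs, ?_, ?_, ?_⟩
  · rw [disjoint_left]
    intro x hx hx'
    simp only [mem_sdiff, mem_inter] at hx hx'
    tauto
  · ext x
    simp only [mem_sdiff, mem_inter, mem_union]
    tauto
  · have := card_sdiff_add_card_inter J (X.tr g₀ J)
    omega
  · rw [← hI']
    have := sum_sdiff (f := X.a) (sdiff_subset : J \ X.tr g₀ J ⊆ J)
    rw [hs, h0, add_zero] at this
    exact this
  · rw [← hI', ← split hJ2 hf g₀]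
    exact hBp
  · intro g P hP
    have h1 := hcase g
    have h2 := hcase (g * g₀)
    rw [tr_mul] at h2
    have h3 : X.tr g (X.tr g₀ J) ≠ X.tr g J := fun h => hg1 (tr_inj h)
    have h4 : X.tr g (X.tr g₀ J) ≠ X.tr c (X.tr g J) := by
      rw [← tr_comm_c]
      exact fun h => hg2 (tr_inj h)
    generalize hCC : X.tr g (X.tr g₀ J) = C' at *
    generalize hC : X.tr g J = C at *
    generalize hBB : X.tr g₀ J = B at *
    rcases hP with rfl | rfl
    · rw [tr_sdiff, hC, hCC]
      rcases h1 with rfl | rfl | rfl | rfl <;> rcases h2 with rfl | rfl | rfl | rfl <;>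
        first
        | (exact absurd rfl h3)
        | (exact absurd (tr_tr_c _).symm h4)
        | (exact absurd rfl h4)
        | (left; ext x; simp only [mem_sdiff, mem_inter, mem_tr_c, hA, hB]; first | done | tauto)
        | (right; left; ext x; simp only [mem_sdiff, mem_inter, mem_tr_c, hA, hB]; first | done | tauto)
        | (right; right; left; ext x; simp only [mem_sdiff, mem_inter, mem_tr_c, hA, hB]; first | done | tauto)
        | (right; right; right; ext x; simp only [mem_sdiff, mem_inter, mem_tr_c, hA, hB]; first | done | tauto)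
    · rw [tr_inter, hC, hCC]
      rcases h1 with rfl | rfl | rfl | rfl <;> rcases h2 with rfl | rfl | rfl | rfl <;>
        first
        | (exact absurd rfl h3)
        | (exact absurd (tr_tr_c _).symm h4)
        | (exact absurd rfl h4)
        | (left; ext x; simp only [mem_sdiff, mem_inter, mem_tr_c, hA, hB]; first | done | tauto)
        | (right; left; ext x; simp only [mem_sdiff, mem_inter, mem_tr_c, hA, hB]; first | done | tauto)
        | (right; right; left; ext x; simp only [mem_sdiff, mem_inter, mem_tr_c, hA, hB]; first | done | tauto)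
        | (right; right; right; ext x; simp only [mem_sdiff, mem_inter, mem_tr_c, hA, hB]; first | done | tauto)

end Pc0b458S
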