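import Pool.Agent.Lib.Pc0b458S.CombA

/-!
# Module CombC: sets with a supersingular element (about 1.2h)

`x ∈ J`, `a x = 0`, `K = J.erase x`. Another `y ∈ J` with `a y = 0` would give a pair; if `a y = 0` and `y ∉ J` then `c • y ∈ J` (`full`)
and `a (c • y) = 0`, so `c • y = x`, `y = c • x`.
For `g : G`: `a (g • x) = 0`, so `g • x ∈ {x, c • x}`. `tr g K` is free with 5 elements and contains neither `x` nor `c • x`. Let
`V = K \ tr g K`. For `y ≠ x, c • x` exactly one of `y`, `c • y` is in `K`, and exactly one is in `tr g K` (as `tr g J` is free and full and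
`tr g K = (tr g J).erase (g • x)`). So `tr g K = (K \ V) ∪ tr c V` and `0 = ∑_{tr g K} a = ∑_K a - 2 ∑_V a` gives `∑_V a = 0 = ∑_{K \ V} a`.
`card V` is not `1`, `4` (an element of `K` with `a = 0`), not `2`, `3` (a pair). So it is `0` (`tr g K = K`) or `5` (`tr g K = tr c K`).
Finally if `tr δ K = K` for all `δ ∈ D` then `X.integral K` gives an integer `m` with `∑_K s = m`, but `∑_K s = 5/2` (from
`∑_K a = 0` at `g = 1`).
-/

open Finset

namespace Pc0b458S

open Pc0b458F (CMDatum rho tr_mul tr_one card_tr)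

variable {G : Type} [Group G] {D : Subgroup G} {c : G} {X : CMDatum G D c}

namespace CombCAux

theorem mem_tr {g : G} {K : Finset X.S} {y : X.S} : y ∈ X.tr g K ↔ g⁻¹ • y ∈ K := by
  rw [CMDatum.tr, Finset.mem_image]
  constructor
  · rintro ⟨z, hz, rfl⟩
    rwa [inv_smul_smul]
  · intro h
    exact ⟨_, h, smul_inv_smul g y⟩

theorem a_tr_zero {g : G} {x : X.S} (h : X.a x = 0) : X.a (g • x) = 0 := by
  rw [X.a_smul, h]
  funext k
  rw [Pc0b458F.rho_apply]
  rfl

/-- a subset with sum zero has neither one nor two elements -/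
theorem card_ne {K W : Finset X.S} (hp : ¬ HasPair X K) (hz : ∀ y ∈ K, X.a y ≠ 0) (hW : W ⊆ K)
    (h0 : ∑ y ∈ W, X.a y = 0) : W.card ≠ 1 ∧ W.card ≠ 2 := by
  constructor
  · intro h
    obtain ⟨u, rfl⟩ := Finset.card_eq_one.1 h
    rw [Finset.sum_singleton] at h0
    exact hz u (hW (Finset.mem_singleton_self u)) h0
  · intro h
    obtain ⟨u, v, huv, rfl⟩ := Finset.card_eq_two.1 h
    rw [Finset.sum_pair huv] at h0
    exact hp ⟨u, hW (by simp), v, hW (by simp), huv, pair_iff.2 h0⟩

end CombCAux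

open CombCAux in
theorem five_of (hc : Fintype.card X.S = 12) {J : Finset X.S} (hJ : J.card = 6)
    (hf : X.Free J) (hp : ¬ HasPair X J) (h0 : ∑ x ∈ J, X.a x = 0) {x : X.S} (hx : x ∈ J)
    (hx0 : X.a x = 0) :
    IsFive X (J.erase x) ∧ ∀ y : X.S, X.a y = 0 → y = x ∨ y = c • x := by
  have hc' : Fintype.card X.S = 2 * J.card := by rw [hJ, hc]
  have hzJ : ∀ y ∈ J, X.a y = 0 → y = x := by
    intro y hy hy0
    by_contra hne
    exact hp ⟨x, hx, y, hy, fun h => hne h.symm, pair_iff.2 (by rw [hx0, hy0, add_zero])⟩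
  have hzero : ∀ y : X.S, X.a y = 0 → y = x ∨ y = c • x := by
    intro y hy0
    rcases full hc' hf y with hy | hy
    · exact Or.inl (hzJ y hy hy0)
    · right
      have h1 : X.a (c • y) = 0 := by rw [X.a_conj, hy0, neg_zero]
      rw [← hzJ _ hy h1, X.conj_conj]
  refine ⟨?_, hzero⟩
  set K := J.erase x with hK
  have hKJ : K ⊆ J := Finset.erase_subset _ _
  have hKcard : K.card = 5 := by rw [hK, Finset.card_erase_of_mem hx, hJ]
  have hKfree : X.Free K := fun y hy h => hf y (hKJ hy) (hKJ h)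
  have hKp : ¬ HasPair X K := by
    rintro ⟨u, hu, v, hv, huv, h⟩
    exact hp ⟨u, hKJ hu, v, hKJ hv, huv, h⟩
  have hKsum : ∑ y ∈ K, X.a y = 0 := by
    have := Finset.sum_erase_eq_sub (f := fun y => X.a y) hx
    rw [hK, this, h0, hx0, sub_zero]
  have hKz : ∀ y ∈ K, X.a y ≠ 0 := by
    intro y hy hy0
    rw [hK, Finset.mem_erase] at hy
    exact hy.1 (hzJ y hy.2 hy0)
  have hxK : x ∉ K := Finset.notMem_erase x J
  have hcxK : c • x ∉ K := fun h => hf x hx (hKJ h)
  have hKfull : ∀ y, y ≠ x → y ≠ c • x → y ∈ K ∨ c • y ∈ K := by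
    intro y h1 h2
    rcases full hc' hf y with h | h
    · exact Or.inl (Finset.mem_erase.2 ⟨h1, h⟩)
    · refine Or.inr (Finset.mem_erase.2 ⟨?_, h⟩)
      intro h3
      exact h2 (by rw [← h3, X.conj_conj])
  refine ⟨hKcard, hKfree, hKp, ?_, hKsum⟩
  intro g
  set T := X.tr g K with hT
  have hTz : ∀ y ∈ T, X.a y ≠ 0 := by
    intro y hy hy0
    rw [hT, mem_tr] at hy
    exact hKz _ hy (a_tr_zero hy0)
  have hcx0 : X.a (c • x) = 0 := by rw [X.a_conj, hx0, neg_zero]
  have hTfree : X.Free T := tr_free g hKfree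
  have hTfull : ∀ y, y ≠ x → y ≠ c • x → y ∈ T ∨ c • y ∈ T := by
    intro y h1 h2
    have h3 : ¬ X.a y = 0 := fun h => (hzero y h).elim h1 h2
    have h4 : ∀ z : X.S, X.a z = 0 → g⁻¹ • y ≠ z := by
      intro z hz h
      apply h3
      have : y = g • z := by rw [← h, smul_inv_smul]
      rw [this]
      exact a_tr_zero hz
    rcases hKfull (g⁻¹ • y) (h4 x hx0) (h4 _ hcx0) with h | h
    · exact Or.inl (mem_tr.2 h)
    · right
      rw [hT, mem_tr, ← X.conj_comm]
      exact h
  set V := K \ T with hV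
  have hVK : V ⊆ K := Finset.sdiff_subset
  have hTeq : T = (K \ V) ∪ X.tr c V := by
    ext y
    rw [Finset.mem_union, mem_tr_c]
    constructor
    · intro hy
      have hyx : y ≠ x := fun h => hTz y hy (by rw [h]; exact hx0)
      have hycx : y ≠ c • x := fun h => hTz y hy (by rw [h]; exact hcx0)
      by_cases hyK : y ∈ K
      · left
        rw [Finset.mem_sdiff]
        refine ⟨hyK, fun h => ?_⟩
        rw [hV, Finset.mem_sdiff] at h
        exact h.2 hy
      · right
        rw [hV, Finset.mem_sdiff]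
        exact ⟨(hKfull y hyx hycx).resolve_left hyK, hTfree y hy⟩
    · rintro (hy | hy)
      · rw [Finset.mem_sdiff, hV, Finset.mem_sdiff] at hy
        by_contra h
        exact hy.2 ⟨hy.1, h⟩
      · rw [hV, Finset.mem_sdiff] at hy
        have hyx : y ≠ x := by
          rintro rfl
          exact hcxK hy.1
        have hycx : y ≠ c • x := by
          rintro rfl
          rw [X.conj_conj] at hy
          exact hxK hy.1
        exact (hTfull y hyx hycx).resolve_right hy.2
  have hdisj : Disjoint (K \ V) (X.tr c V) := by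
    rw [Finset.disjoint_left]
    intro y hy hy'
    rw [mem_tr_c] at hy'
    exact hKfree y (Finset.mem_sdiff.1 hy).1 (hVK hy')
  have hsT : ∑ y ∈ T, X.a y = 0 := by
    rw [hT, tr_sum, hKsum]
    funext k
    rw [Pc0b458F.rho_apply]
    rfl
  have hs1 : ∑ y ∈ K \ V, X.a y - ∑ y ∈ V, X.a y = 0 := by
    rw [hTeq, Finset.sum_union hdisj, sum_tr_c, ← sub_eq_add_neg] at hsT
    exact hsT
  have hs2 : ∑ y ∈ K \ V, X.a y + ∑ y ∈ V, X.a y = 0 := by
    rw [Finset.sum_sdiff hVK, hKsum]
  have hsV : ∑ y ∈ V, X.a y = 0 := by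
    funext k
    have h1 := congrFun hs1 k
    have h2 := congrFun hs2 k
    simp only [Pi.sub_apply, Pi.add_apply, Pi.zero_apply] at h1 h2 ⊢
    linarith
  have hsKV : ∑ y ∈ K \ V, X.a y = 0 := by
    rw [hsV, add_zero] at hs2
    exact hs2
  have c1 := card_ne hKp hKz hVK hsV
  have c2 := card_ne hKp hKz (Finset.sdiff_subset (s := K) (t := V)) hsKV
  have c3 : (K \ V).card = 5 - V.card := by
    rw [Finset.card_sdiff_of_subset hVK, hKcard]
  have c4 : V.card ≤ 5 := by
    rw [← hKcard]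
    exact Finset.card_le_card hVK
  have c5 : V.card = 0 ∨ V.card = 5 := by
    rw [c3] at c2
    omega
  rcases c5 with h | h
  · left
    rw [Finset.card_eq_zero] at h
    rw [hTeq, h]
    ext y
    rw [Finset.mem_union, mem_tr_c]
    simp
  · right
    have hVeq : V = K := Finset.eq_of_subset_of_card_le hVK (by rw [h, hKcard])
    rw [hTeq, hVeq, Finset.sdiff_self, Finset.empty_union]

/-- a set as in `IsFive` is not fixed by the decomposition group -/
theorem IsFive.dec {K : Finset X.S} (hK : IsFive X K) : ∃ δ ∈ D, X.tr δ K ≠ K := by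
  by_contra hcon
  push Not at hcon
  obtain ⟨h5, -, -, -, h0⟩ := hK
  obtain ⟨m, hm⟩ := X.integral K (by
    intro d hd x hx
    have := hcon d hd
    rw [← this, CMDatum.tr]
    exact Finset.mem_image_of_mem _ hx)
  have h1 := congrFun h0 1
  rw [Finset.sum_apply] at h1
  simp only [X.a_apply, one_smul, Pi.zero_apply] at h1
  rw [Finset.sum_sub_distrib, hm, Finset.sum_const, h5] at h1
  have h2 : (2 * m : ℚ) = 5 := by
    have : (5 : ℕ) • (1 / 2 : ℚ) = 5 / 2 := by norm_num
    rw [this] at h1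
    linarith
  have h3 : (2 * m : ℤ) = 5 := by exact_mod_cast h2
  omega

end Pc0b458S
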