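import Pool.Agent.Lib.Pc0b458S.CombD

/-!
# Module CombH: sets of three elements with two conjugates
-/

open Finset

namespace Pc0b458S

open Pc0b458F (CMDatum rho tr_mul tr_one card_tr IsNonsplit)

variable {G : Type} [Group G] {D : Subgroup G} {c : G} {X X' : CMDatum G D c}

theorem half_dec {K : Finset X.S} (hK : K.card = 3) (h0 : ∑ x ∈ K, X.a x = 0) :
    ∃ δ ∈ D, X.tr δ K ≠ K := by
  by_contra hcon
  push Not at hcon
  obtain ⟨m, hm⟩ := X.integral K (by
    intro d hd x hx
    have := hcon d hd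
    rw [← this, CMDatum.tr]
    exact Finset.mem_image_of_mem _ hx)
  have h1 := congrFun h0 1
  rw [Finset.sum_apply] at h1
  simp only [X.a_apply, one_smul, Pi.zero_apply] at h1
  rw [Finset.sum_sub_distrib, hm, Finset.sum_const, hK] at h1
  have h2 : (2 * m : ℚ) = 3 := by
    have : (3 : ℕ) • (1 / 2 : ℚ) = 3 / 2 := by norm_num
    rw [this] at h1
    linarith
  have h3 : (2 * m : ℤ) = 3 := by exact_mod_cast h2
  omega

theorem nonsplit_of {K : Finset X.S} (hf : X.Free K) (hn : K.Nonempty) (hr : X.RankTwo K)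
    (hd : ∃ δ ∈ D, X.tr δ K ≠ K) : IsNonsplit D c (stab K) := by
  have hne : X.tr c K ≠ K := by
    intro h
    obtain ⟨y, hy⟩ := hn
    have hy' := hy
    rw [← h, mem_tr_c] at hy'
    exact hf y hy hy'
  refine ⟨?_, fun h => hne h, ?_⟩
  · rw [Subgroup.index_eq_two_iff]
    refine ⟨c, fun b => ?_⟩
    have hb : b * c ∈ stab K ↔ X.tr c (X.tr b K) = K := by
      rw [mem_stab, tr_mul, tr_comm_c]
    rcases hr b with h | h
    · right
      refine ⟨h, fun h' => hne ?_⟩
      rw [hb, h] at h'
      exact h'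
    · left
      refine ⟨?_, fun h' => hne ?_⟩
      · rw [hb, h, tr_tr_c]
      · rw [← h]
        exact h'
  · intro hD
    obtain ⟨δ, hδ, h⟩ := hd
    exact h (hD hδ)

private theorem tr_ins (ι : X.S → X'.S) (he : ∀ (g : G) (x : X.S), ι (g • x) = g • ι x)
    (K : Finset X.S) (x : X'.S) (g : G) :
    X'.tr g (insert x (K.image ι)) = insert (g • x) ((X.tr g K).image ι) := by
  rw [CMDatum.tr, CMDatum.tr, Finset.image_insert, Finset.image_image, Finset.image_image]
  congr 1
  refine Finset.image_congr fun y _ => ?_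
  exact (he g y).symm

theorem half_ext (ι : X.S → X'.S) (hi : Function.Injective ι)
    (he : ∀ (g : G) (x : X.S), ι (g • x) = g • ι x) (hs : ∀ x : X.S, X'.s (ι x) = X.s x)
    {K : Finset X.S} (hK : K.card = 3) (hf : X.Free K) (hr : X.RankTwo K)
    (h0 : ∑ x ∈ K, X.a x = 0) {x : X'.S} (hx : x ∉ Set.range ι)
    (hx1 : ∀ g : G, X'.s (g • x) = 1 / 2) (hx2 : ∀ g ∈ stab K, g • x = x) :
    (insert x (K.image ι)).card = 4 ∧ X'.Free (insert x (K.image ι)) ∧
      X'.RankTwo (insert x (K.image ι)) ∧ X'.Tate 2 (insert x (K.image ι)) := by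
  have hxK : x ∉ K.image ι := by
    intro h
    obtain ⟨z, _, rfl⟩ := Finset.mem_image.1 h
    exact hx ⟨z, rfl⟩
  have hcard : (insert x (K.image ι)).card = 4 := by
    rw [Finset.card_insert_of_notMem hxK, Finset.card_image_of_injective _ hi, hK]
  have hns : IsNonsplit D c (stab K) := by
    apply nonsplit_of hf _ hr (half_dec hK h0)
    rw [← Finset.card_pos, hK]
    norm_num
  refine ⟨hcard, ?_, ?_, ?_, ?_⟩
  · intro y hy hcy
    rcases Finset.mem_insert.1 hy with rfl | hy
    · rcases Finset.mem_insert.1 hcy with h | h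
      · exact X'.conj_ne _ h
      · obtain ⟨z, _, hz⟩ := Finset.mem_image.1 h
        apply hx
        refine ⟨c • z, ?_⟩
        rw [he, hz, X'.conj_conj]
    · obtain ⟨z, hz, rfl⟩ := Finset.mem_image.1 hy
      rw [← he] at hcy
      rcases Finset.mem_insert.1 hcy with h | h
      · exact hx ⟨_, h⟩
      · obtain ⟨w, hw, hw'⟩ := Finset.mem_image.1 h
        have := hi hw'
        rw [this] at hw
        exact hf z hz hw
  · intro g
    by_cases hg : g ∈ stab K
    · left
      rw [tr_ins ι he, hx2 g hg, mem_stab.1 hg]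
    · right
      have h1 : X.tr g K = X.tr c K := (hr g).resolve_left hg
      have h2 : g • x = c • x := fix_of_index hns hx2 hg
      rw [tr_ins ι he, tr_ins ι he, h1, h2]
  · rw [hcard]
  · intro g
    rw [Finset.sum_insert hxK, Finset.sum_image (fun a _ b _ h => hi h), hx1]
    have h1 : ∀ z : X.S, X'.s (g • ι z) = X.a z g + 1 / 2 := by
      intro z
      rw [← he, hs, X.a_apply]
      ring
    simp only [h1]
    have h2 := congrFun h0 g
    rw [Finset.sum_apply, Pi.zero_apply] at h2
    rw [Finset.sum_add_distrib, h2, Finset.sum_const, hK]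
    norm_num

end Pc0b458S
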