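import Pool.Agent.Lib.Pc0b458S.Defs

/-!
# Module ExtCl: pull-back to the product with an elliptic curve (about 0.6h)

* `ext_j`: from `ε.inj` and `ε.e_ι` (apply to `γ.e.symm (s, true)`).
* `map_ee`: `incl j (ee s b ()) = ee (j s) b ()` (`funext`, `Pi.single_apply`).
* `map_MM`: `ExteriorAlgebra.map` is multiplicative, `map_apply_ι`; `MM` is a product of products of two vectors; the
  coercion `HC → HH` is multiplicative (`Subalgebra.val`, `map_prod`). See `PairAux.map_ev` in `Pc0b458P/PairPos.lean`.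
* `ext_rs`: `rs i` is the real span of the classes of cycles; span induction, `cl_p`, `p_mem`; `ExteriorAlgebra.map` is `ℂ`-linear.
-/

universe u

open Finset Pc0b458 Pc0b458P

namespace Pc0b458S

theorem incl_ee {Φ Φ' : Type} [Fintype Φ] [DecidableEq Φ] [DecidableEq Φ'] {j : Φ → Φ'}
    (s : Φ) (b : Bool) : incl j (ee s b ()) = ee (j s) b () := by
  funext i
  obtain ⟨t, b', u⟩ := i
  change (∑ s', if j s' = t then (ee s b () : HV Φ Unit) (s', (b', u)) else 0) =
    (ee (j s) b () : HV Φ' Unit) (t, (b', u))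
  rw [Finset.sum_eq_single s]
  · unfold ee
    simp only [Pi.single_apply, Prod.mk.injEq, true_and]
    by_cases h : j s = t
    · subst h
      simp
    · have h' : ¬ t = j s := fun e => h e.symm
      simp [h, h']
  · intro s' _ hs'
    unfold ee
    simp only [Pi.single_apply, Prod.mk.injEq]
    simp [hs']
  · intro h
    exact absurd (Finset.mem_univ s) h

theorem ExtCl_prod {Φ Φ' : Type} (f : HV Φ Unit →ₗ[ℂ] HV Φ' Unit) {κ : Type*}
    (S : Finset κ) (u : κ → HC Φ Unit) (v : κ → HC Φ' Unit)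
    (h : ∀ i, ExteriorAlgebra.map f ((u i : HC Φ Unit) : HH Φ Unit) =
      ((v i : HC Φ' Unit) : HH Φ' Unit)) :
    ExteriorAlgebra.map f ((∏ i ∈ S, u i : HC Φ Unit) : HH Φ Unit) =
      ((∏ i ∈ S, v i : HC Φ' Unit) : HH Φ' Unit) := by
  classical
  induction S using Finset.induction_on with
  | empty =>
    rw [Finset.prod_empty, Finset.prod_empty]
    change ExteriorAlgebra.map f (1 : HH Φ Unit) = (1 : HH Φ' Unit)
    exact map_one _
  | insert a S ha ih =>
    rw [Finset.prod_insert ha, Finset.prod_insert ha]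
    change ExteriorAlgebra.map f (((u a : HC Φ Unit) : HH Φ Unit) *
      ((∏ i ∈ S, u i : HC Φ Unit) : HH Φ Unit)) =
      ((v a : HC Φ' Unit) : HH Φ' Unit) * ((∏ i ∈ S, v i : HC Φ' Unit) : HH Φ' Unit)
    rw [map_mul, h a, ih]

theorem ExtCl_map_ev {Φ Φ' : Type} [DecidableEq Φ] [DecidableEq Φ']
    (f : HV Φ Unit →ₗ[ℂ] HV Φ' Unit) (u v : HV Φ Unit) :
    ExteriorAlgebra.map f ((ev u v : HC Φ Unit) : HH Φ Unit) =
      ((ev (f u) (f v) : HC Φ' Unit) : HH Φ' Unit) := by
  change ExteriorAlgebra.map f (ExteriorAlgebra.ι ℂ u * ExteriorAlgebra.ι ℂ v) =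
    ExteriorAlgebra.ι ℂ (f u) * ExteriorAlgebra.ι ℂ (f v)
  rw [map_mul, ExteriorAlgebra.map_apply_ι, ExteriorAlgebra.map_apply_ι]

theorem map_MM {Φ Φ' : Type} [Fintype Φ] [DecidableEq Φ] [DecidableEq Φ'] {j : Φ → Φ'} {k : ℕ}
    (J : Fin k × Fin 2 → Φ) (b : Fin k × Fin 2 → Bool) :
    ExteriorAlgebra.map (incl j) ((MM J b : HC Φ Unit) : HH Φ Unit) =
      ((MM (fun p => j (J p)) b : HC Φ' Unit) : HH Φ' Unit) := by
  unfold MM
  refine ExtCl_prod (incl j) Finset.univ _ _ fun i => ?_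
  rw [ExtCl_map_ev, incl_ee, incl_ee]

variable {T : NumTheory.{u}} {W : EffData T} {A A' : T.AV} {L : T.Z A} {L' : T.Z A'}
  {d : CMData T W A L} {d' : CMData T W A' L'} {G : Type} [Group G] {D : Subgroup G} {c : G}
  {γ : GalData d D c} {γ' : GalData d' D c} {H : Subgroup G} (ε : ExtData γ γ' H)

include ε in
theorem ext_j : Function.Injective ε.j := by
  intro s t hst
  have h1 : γ'.e (ε.ι (γ.e.symm (s, true))) = (ε.j s, true) := by
    rw [ε.e_ι, Equiv.apply_symm_apply]
  have h2 : γ'.e (ε.ι (γ.e.symm (t, true))) = (ε.j t, true) := by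
    rw [ε.e_ι, Equiv.apply_symm_apply]
  have h3 : γ'.e (ε.ι (γ.e.symm (s, true))) = γ'.e (ε.ι (γ.e.symm (t, true))) := by
    rw [h1, h2, hst]
  have h4 := γ.e.symm.injective (ε.inj (γ'.e.injective h3))
  exact congrArg Prod.fst h4

theorem ext_rs {i : ℕ} {w : HH d.Φ Unit} (hw : w ∈ d.rs i) :
    ExteriorAlgebra.map (incl ε.j) w ∈ d'.rs i := by
  unfold CMData.rs at hw ⊢
  induction hw using Submodule.span_induction with
  | mem x hx =>
    obtain ⟨z, hz, rfl⟩ := hx
    refine Submodule.subset_span ⟨ε.p z, ε.p_mem i z hz, ?_⟩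
    exact ε.cl_p z
  | zero =>
    rw [map_zero]
    exact Submodule.zero_mem _
  | add x y _ _ hx hy =>
    rw [map_add]
    exact Submodule.add_mem _ hx hy
  | smul r x _ hx =>
    have h2 := Submodule.smul_mem _ r hx
    convert h2 using 1
    exact map_smul (ExteriorAlgebra.map (incl ε.j)) (r : ℂ) x

end Pc0b458S
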