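import Pool.Agent.Lib.Pc0b458S.Defs

/-!
# Sets of homomorphisms and weights
-/

universe u

open Finset Pc0b458 Pc0b458P

namespace Pc0b458S

open Pc0b458F (CMDatum)

/-- an enumeration of a set with six elements with prescribed last pair -/
theorem exists_enum {S : Type} [DecidableEq S] (J : Finset S) (hJ : J.card = 6) {x y : S}
    (hx : x ∈ J) (hy : y ∈ J) (hxy : x ≠ y) :
    ∃ j : Fin 3 × Fin 2 → S, Function.Injective j ∧ (∀ p, j p ∈ J) ∧ (∀ w ∈ J, ∃ p, j p = w) ∧
      j (2, 0) = x ∧ j (2, 1) = y := by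
  have hcard : Fintype.card (Fin 3 × Fin 2) = Fintype.card J := by
    rw [Fintype.card_coe, hJ]
    rfl
  let e₀ : Fin 3 × Fin 2 ≃ J := Fintype.equivOfCardEq hcard
  let X : J := ⟨x, hx⟩
  let Y : J := ⟨y, hy⟩
  have hXY : X ≠ Y := fun h => hxy (congrArg Subtype.val h)
  let e₁ : Fin 3 × Fin 2 ≃ J := (Equiv.swap (e₀.symm X) (2, 0)).trans e₀
  have h1 : e₁ (2, 0) = X := by
    simp only [e₁, Equiv.trans_apply, Equiv.swap_apply_right, Equiv.apply_symm_apply]
  let e₂ : Fin 3 × Fin 2 ≃ J := (Equiv.swap (e₁.symm Y) (2, 1)).trans e₁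
  have h2 : e₂ (2, 1) = Y := by
    simp only [e₂, Equiv.trans_apply, Equiv.swap_apply_right, Equiv.apply_symm_apply]
  have h3 : e₂ (2, 0) = X := by
    have ha : ((2 : Fin 3), (0 : Fin 2)) ≠ e₁.symm Y := by
      intro h
      apply hXY
      rw [← h1, h, Equiv.apply_symm_apply]
    have hb : ((2 : Fin 3), (0 : Fin 2)) ≠ (2, 1) := by decide
    simp only [e₂, Equiv.trans_apply]
    rw [Equiv.swap_apply_of_ne_of_ne ha hb, h1]
  refine ⟨fun p => (e₂ p : S), ?_, fun p => (e₂ p).2, ?_, ?_, ?_⟩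
  · intro p q h
    exact e₂.injective (Subtype.ext h)
  · intro w hw
    exact ⟨e₂.symm ⟨w, hw⟩, by simp only [Equiv.apply_symm_apply]⟩
  · simp only [h3, X]
  · simp only [h2, Y]

variable {T : NumTheory.{u}} {W : EffData T} {A : T.AV} {L : T.Z A} {d : CMData T W A L}
  {G : Type} [Group G] {D : Subgroup G} {c : G} (γ : GalData d D c)

/-- the set of homomorphisms of weight `η` -/
def setOf (η : d.Φ → ZMod 3) : Finset γ.X.S :=
  univ.filter fun x => η (γ.e x).1 = if (γ.e x).2 then 1 else -1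

theorem mem_setOf {η : d.Φ → ZMod 3} {x : γ.X.S} :
    x ∈ setOf γ η ↔ η (γ.e x).1 = if (γ.e x).2 then 1 else -1 := by
  rw [setOf, Finset.mem_filter]
  exact ⟨fun h => h.2, fun h => ⟨Finset.mem_univ _, h⟩⟩

theorem bool_ne : ∀ b : Bool,
    ¬ ((if b then 1 else -1 : ZMod 3) = if (!b) then 1 else -1) := by decide

theorem setOf_free {η : d.Φ → ZMod 3} : γ.X.Free (setOf γ η) := by
  intro x hx hcx
  rw [mem_setOf] at hx hcx
  rw [γ.e_conj] at hcx
  simp only at hcx
  rw [hx] at hcx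
  exact bool_ne _ hcx

theorem zmod_cases : ∀ a : ZMod 3, a ≠ 0 → a = if decide (a = 1) then 1 else -1 := by decide

theorem bool_cases : ∀ b b' : Bool, ((if b then 1 else -1 : ZMod 3) = if b' then 1 else -1) →
    b = b' := by decide

theorem setOf_card {η : d.Φ → ZMod 3} (hη : sup η = univ) :
    (setOf γ η).card = Fintype.card d.Φ := by
  rw [← Finset.card_univ]
  refine Finset.card_bij (fun x _ => (γ.e x).1) (fun x _ => Finset.mem_univ _) ?_ ?_
  · intro x hx y hy h
    rw [mem_setOf] at hx hy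
    apply γ.e.injective
    have h2 : (γ.e x).2 = (γ.e y).2 := by
      apply bool_cases
      rw [← hx, ← hy, h]
    exact Prod.ext h h2
  · intro s _
    have hs : η s ≠ 0 := by
      have : s ∈ sup η := by
        rw [hη]
        exact Finset.mem_univ s
      exact (Finset.mem_filter.1 this).2
    refine ⟨γ.e.symm (s, decide (η s = 1)), ?_, ?_⟩
    · rw [mem_setOf, Equiv.apply_symm_apply]
      exact zmod_cases _ hs
    · simp only [Equiv.apply_symm_apply]

theorem zmod_sub : ∀ a : ZMod 3, ((if a = 1 then 1 else 0) - (if a = -1 then 1 else 0) : ZMod 3) = a := by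
  decide

theorem wtJ_setOf {η : d.Φ → ZMod 3} : wtJ γ.e (setOf γ η) = η := by
  funext s
  have h1 : (γ.e.symm (s, true) ∈ setOf γ η) ↔ η s = 1 := by
    rw [mem_setOf, Equiv.apply_symm_apply]
    simp
  have h2 : (γ.e.symm (s, false) ∈ setOf γ η) ↔ η s = -1 := by
    rw [mem_setOf, Equiv.apply_symm_apply]
    simp
  rw [wtJ]
  simp only [h1, h2]
  exact zmod_sub (η s)

end Pc0b458S
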