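import Pool.Agent.Lib.Pc0b458S.Half
import Pool.Agent.Lib.Pc0b458S.ExtCl
import Pool.Agent.Lib.Pc0b458S.CombH
import Pool.Agent.Lib.Pc0b458S.SixSet

/-!
# Module HalfFull: dimension six, full weights with a half of rank two (about 1.6h)

Let `J₀ = setOf γ η` (6 elements, free, weight `η`: module `SixSet`), `K ⊆ J₀` as in `HasHalf`, `H' = stab K`, which is nonsplit
(`half_dec`, `nonsplit_of`). `hext H'` gives `A'` of dimension `7`, `d'`, `γ'` and `ε : ExtData γ γ' H'`. As `card γ'.X.S = 14 > 12 = card γ.X.S`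
(by `γ.e`, `card_Φ`), there is `x₁ ∉ range ε.ι`. By `half_ext` and `γ'.markman` for `K' = insert x₁ (K.image ε.ι)` there is `v ∈ cod A' 2` whose
components at the weights `± wtJ γ'.e K'` are not zero. Choose `j : Fin 3 × Fin 2 → γ.X.S` injective with image `J₀` and with
`j (1,1), j (2,0), j (2,1)` the elements of `K` (`exists_enum3`), `J p = (γ.e (j p)).1`, `b p = (γ.e (j p)).2`, so `Fits η J b` and
`Pr η (CL d x) = c • MM J b`, `Pr (-η) (CL d x) = c' • MM J (nb b)`, with sum in `d.rs 3` (`wt_gen`, `m = 0`; `Pr_rs`). By `ext_rs` and `map_MM` the same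
combination of `MM (ε.j ∘ J) b` and `MM (ε.j ∘ J) (nb b)` is in `d'.rs 3`. With `x = (γ'.e x₁).1`, `bx = (γ'.e x₁).2` (`x` is not in the range of
`ε.j`: otherwise `x₁` or `c • x₁` would be in the range of `ε.ι`) the weight `wtJ γ'.e K'` fits
`((ε.j k0, x), (ε.j k1, ε.j k2))`, so the two components of `v` are `a • (ev .. * ev ..)`, `a' • (..)` (`wt_gen`, `Fin.prod_univ_two`)
and their sum is in `d'.rs 2` (`Pr_rs`). `half` (with `h2 d'`) gives `c c' sg b = y ≥ 0`. Finally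
`Pr η z * Pr (-η) z = c c' MM J b MM J (nb b) = - c c' sg b • topF` (`MM_top` with `k = 3`, `zer η = ∅`), so `- tr = y κ` (`kap_one`).
-/

universe u

open Finset Pc0b458 Pc0b458P

namespace Pc0b458S

open Pc0b458F (CMDatum IsNonsplit)

/-- an enumeration of a set with six elements with a prescribed subset of three elements -/
theorem exists_enum3 {S : Type} [DecidableEq S] (J K : Finset S) (hJ : J.card = 6)
    (hK : K.card = 3) (hKJ : K ⊆ J) :
    ∃ j : Fin 3 × Fin 2 → S, Function.Injective j ∧ (∀ p, j p ∈ J) ∧ (∀ w ∈ J, ∃ p, j p = w) ∧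
      j (1, 1) ∈ K ∧ j (2, 0) ∈ K ∧ j (2, 1) ∈ K := by
  classical
  let P : Finset (Fin 3 × Fin 2) := {(1, 1), (2, 0), (2, 1)}
  have hP : P.card = K.card := by rw [hK]; rfl
  have hPc : (Pᶜ : Finset (Fin 3 × Fin 2)).card = (J \ K).card := by
    rw [Finset.card_sdiff_of_subset hKJ, hJ, hK]
    rfl
  let e1 : P ≃ K := Finset.equivOfCardEq hP
  let e2 : (Pᶜ : Finset (Fin 3 × Fin 2)) ≃ (J \ K : Finset S) := Finset.equivOfCardEq hPc
  let j : Fin 3 × Fin 2 → S := fun p =>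
    if h : p ∈ P then (e1 ⟨p, h⟩ : S) else (e2 ⟨p, Finset.mem_compl.2 h⟩ : S)
  have hj1 : ∀ p (h : p ∈ P), j p = (e1 ⟨p, h⟩ : S) := fun p h => dif_pos h
  have hj2 : ∀ p (h : p ∉ P), j p = (e2 ⟨p, Finset.mem_compl.2 h⟩ : S) := fun p h => dif_neg h
  have hK1 : ∀ p ∈ P, j p ∈ K := by
    intro p h
    rw [hj1 p h]
    exact (e1 ⟨p, h⟩).2
  have hK2 : ∀ p ∉ P, j p ∈ J \ K := by
    intro p h
    rw [hj2 p h]
    exact (e2 ⟨p, Finset.mem_compl.2 h⟩).2
  refine ⟨j, ?_, ?_, ?_, hK1 _ (by decide), hK1 _ (by decide), hK1 _ (by decide)⟩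
  · intro p q h
    by_cases hp : p ∈ P <;> by_cases hq : q ∈ P
    · rw [hj1 p hp, hj1 q hq] at h
      exact congrArg Subtype.val (e1.injective (Subtype.ext h))
    · exfalso
      have h1 := hK1 p hp
      have h2 := hK2 q hq
      rw [← h] at h2
      exact (Finset.mem_sdiff.1 h2).2 h1
    · exfalso
      have h1 := hK1 q hq
      have h2 := hK2 p hp
      rw [h] at h2
      exact (Finset.mem_sdiff.1 h2).2 h1
    · rw [hj2 p hp, hj2 q hq] at h
      exact congrArg Subtype.val (e2.injective (Subtype.ext h))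
  · intro p
    by_cases hp : p ∈ P
    · exact hKJ (hK1 p hp)
    · exact (Finset.mem_sdiff.1 (hK2 p hp)).1
  · intro w hw
    by_cases h : w ∈ K
    · refine ⟨(e1.symm ⟨w, h⟩ : Fin 3 × Fin 2), ?_⟩
      rw [hj1 _ (e1.symm ⟨w, h⟩).2]
      simp
    · have h' : w ∈ J \ K := Finset.mem_sdiff.2 ⟨hw, h⟩
      refine ⟨(e2.symm ⟨w, h'⟩ : Fin 3 × Fin 2), ?_⟩
      rw [hj2 _ (Finset.mem_compl.1 (e2.symm ⟨w, h'⟩).2)]
      simp

variable {T : NumTheory.{u}} {W : EffData T} {A : T.AV} {L : T.Z A} {d : CMData T W A L}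
  {G : Type} [Group G] {D : Subgroup G} {c : G} (γ : GalData d D c)

namespace HalfAux

theorem conj_e (x : γ.X.S) : γ.e.symm ((γ.e x).1, !(γ.e x).2) = c • x := by
  rw [← γ.e_conj, Equiv.symm_apply_apply]

/-- the weight of an enumerated free set -/
theorem fits_wtJ {k : ℕ} {K : Finset γ.X.S} (hf : γ.X.Free K) (i : Fin k × Fin 2 → γ.X.S)
    (hi : Function.Injective i) (h1 : ∀ p, i p ∈ K) (h2 : ∀ w ∈ K, ∃ p, i p = w) :
    Fits (wtJ γ.e K) (fun p => (γ.e (i p)).1) (fun p => (γ.e (i p)).2) := by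
  refine ⟨?_, ?_, ?_⟩
  · intro p q h
    simp only at h
    by_cases hb : (γ.e (i p)).2 = (γ.e (i q)).2
    · exact hi (γ.e.injective (Prod.ext h hb))
    · exfalso
      have hb' : (!(γ.e (i p)).2) = (γ.e (i q)).2 := by
        revert hb
        cases (γ.e (i p)).2 <;> cases (γ.e (i q)).2 <;> simp
      have h3 := conj_e γ (i p)
      rw [h, hb', Prod.mk.eta, Equiv.symm_apply_apply] at h3
      apply hf _ (h1 p)
      rw [← h3]
      exact h1 q
  · intro p
    have h3 := conj_e γ (i p)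
    have h4 : γ.e.symm ((γ.e (i p)).1, (γ.e (i p)).2) = i p := by
      rw [Prod.mk.eta, Equiv.symm_apply_apply]
    have h5 : c • i p ∉ K := hf _ (h1 p)
    have h6 : i p ∈ K := h1 p
    unfold wtJ
    cases hb : (γ.e (i p)).2
    · rw [hb] at h3 h4
      simp only [Bool.not_false] at h3
      rw [h3, h4, if_neg h5, if_pos h6]
      simp [hb]
    · rw [hb] at h3 h4
      simp only [Bool.not_true] at h3
      rw [h3, h4, if_neg h5, if_pos h6]
      simp [hb]
  · intro s hs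
    by_cases ht : γ.e.symm (s, true) ∈ K
    · obtain ⟨p, hp⟩ := h2 _ ht
      refine ⟨p, ?_⟩
      simp only
      rw [hp, Equiv.apply_symm_apply]
    · by_cases hf' : γ.e.symm (s, false) ∈ K
      · obtain ⟨p, hp⟩ := h2 _ hf'
        refine ⟨p, ?_⟩
        simp only
        rw [hp, Equiv.apply_symm_apply]
      · exfalso
        apply hs
        unfold wtJ
        rw [if_neg ht, if_neg hf', sub_zero]

/-- the component of a class of the degree of the weight -/
theorem comp {k : ℕ} {η : d.Φ → ZMod 3} {J : Fin k × Fin 2 → d.Φ} {b : Fin k × Fin 2 → Bool}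
    (h : Fits η J b) {z : HH d.Φ Unit} (hz : z ∈ d.rs k) :
    ∃ a : ℂ, Pr η z = ((a • MM J b : HC d.Φ Unit) : HH d.Φ Unit) := by
  have h1 : Pr η z ∈ Submodule.span ℂ
      {w | ∃ f : Fin (2 * (k + 0)) → d.Φ × Bool, wt f = η ∧ w = mo f} := by
    have := Pr_span η (rs_pow d hz)
    exact this
  obtain ⟨a, ha⟩ := wt_gen h h1
  refine ⟨a ∅, ?_⟩
  rw [ha, Finset.powersetCard_zero, Finset.sum_singleton, Finset.prod_empty, one_mul]

end HalfAux

theorem six_half (hL : L ∈ T.Pol A) (hg : T.dim A = 6)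
    (h2 : ∀ (A' : T.AV) (L' : T.Z A') (_ : L' ∈ T.Pol A') (d' : CMData T W A' L'), SignOK d' 2)
    (hext : ∀ H' : Subgroup G, IsNonsplit D c H' →
      ∃ (A' : T.AV) (L' : T.Z A') (_ : L' ∈ T.Pol A') (d' : CMData T W A' L')
        (γ' : GalData d' D c), Nonempty (ExtData γ γ' H'))
    (η : d.Φ → ZMod 3) (hη : sup η = univ) (hh : HasHalf γ.X (setOf γ η))
    {x : T.Z A} (hx : x ∈ T.cod A 3) :
    ∃ r : ℝ, 0 ≤ r ∧ - d.tr (Pr η (CL d x) * Pr (-η) (CL d x)) = r := by
  classical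
  obtain ⟨K, hKJ, hK3, hKr, hK0⟩ := hh
  have hJ6 : (setOf γ η).card = 6 := by rw [setOf_card γ hη, d.card_Φ, hg]
  have hKf : γ.X.Free K := fun y hy hy' => setOf_free γ (η := η) y (hKJ hy) (hKJ hy')
  have hKne : K.Nonempty := by
    rw [← Finset.card_pos, hK3]
    norm_num
  obtain ⟨A', L', hL', d', γ', ⟨ε⟩⟩ := hext (stab K)
    (nonsplit_of hKf hKne hKr (half_dec hK3 hK0))
  have hdim : T.dim A' = 7 := by rw [ε.dim_eq, hg]
  -- a new homomorphism
  have hcard : Fintype.card γ.X.S < Fintype.card γ'.X.S := by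
    rw [Fintype.card_congr γ.e, Fintype.card_congr γ'.e, Fintype.card_prod, Fintype.card_prod,
      d.card_Φ, d'.card_Φ, hg, hdim, Fintype.card_bool]
    norm_num
  have hns : ∃ x₁, x₁ ∉ Set.range ε.ι := by
    by_contra hcon
    push Not at hcon
    exact absurd (Fintype.card_le_of_surjective ε.ι fun y => hcon y) (not_le.2 hcard)
  obtain ⟨x₁, hx₁⟩ := hns
  obtain ⟨hs1, hs2⟩ := ε.ss x₁ hx₁
  obtain ⟨hc4, hfr, hrk, htt⟩ := half_ext ε.ι ε.inj ε.smul ε.slope hK3 hKf hKr hK0 hx₁ hs1 hs2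
  obtain ⟨v, hv, hv1, hv2⟩ := γ'.markman _ hc4 hfr hrk htt ⟨x₁, Finset.mem_insert_self _ _, hs1⟩
  -- the enumeration
  obtain ⟨j, hji, hjm, hjs, hj0, hj1, hj2⟩ := exists_enum3 _ K hJ6 hK3 hKJ
  set J : Fin 3 × Fin 2 → d.Φ := fun p => (γ.e (j p)).1 with hJdef
  set b : Fin 3 × Fin 2 → Bool := fun p => (γ.e (j p)).2 with hbdef
  have hfit : Fits η J b := by
    have := HalfAux.fits_wtJ γ (setOf_free γ (η := η)) j hji hjm hjs
    rwa [wtJ_setOf] at this
  set z : HH d.Φ Unit := CL d x with hz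
  have hzrs : z ∈ d.rs 3 := Submodule.subset_span ⟨x, hx, rfl⟩
  obtain ⟨C, hC⟩ := HalfAux.comp hfit hzrs
  obtain ⟨C', hC'⟩ := HalfAux.comp hfit.neg hzrs
  have hsum : ((C • MM J b + C' • MM J (nb b) : HC d.Φ Unit) : HH d.Φ Unit) ∈ d.rs 3 := by
    have := Pr_rs d 3 η hzrs
    rw [hC, hC'] at this
    exact this
  -- pull-back
  have hpull : ((C • MM (fun p => ε.j (J p)) b + C' • MM (fun p => ε.j (J p)) (nb b) :
      HC d'.Φ Unit) : HH d'.Φ Unit) ∈ d'.rs 3 := by
    have h3 := ext_rs ε hsum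
    have h4 : ExteriorAlgebra.map (incl ε.j)
        ((C • MM J b + C' • MM J (nb b) : HC d.Φ Unit) : HH d.Φ Unit) =
        ((C • MM (fun p => ε.j (J p)) b + C' • MM (fun p => ε.j (J p)) (nb b) :
          HC d'.Φ Unit) : HH d'.Φ Unit) := by
      have e1 : ((C • MM J b + C' • MM J (nb b) : HC d.Φ Unit) : HH d.Φ Unit) =
          C • ((MM J b : HC d.Φ Unit) : HH d.Φ Unit) +
            C' • ((MM J (nb b) : HC d.Φ Unit) : HH d.Φ Unit) := rfl
      rw [e1, map_add, map_smul, map_smul, map_MM, map_MM]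
      rfl
    rw [h4] at h3
    exact h3
  -- the new element
  set x' : d'.Φ := (γ'.e x₁).1 with hx'
  set bx : Bool := (γ'.e x₁).2 with hbx
  have hne : ∀ p, ε.j (J p) ≠ x' := by
    intro p hp
    have e1 : γ'.e (ε.ι (j p)) = (x', b p) := by
      rw [ε.e_ι, ← hp]
    by_cases hb : b p = bx
    · apply hx₁
      refine ⟨j p, γ'.e.injective ?_⟩
      rw [e1, hb]
    · apply hx₁
      refine ⟨c • j p, γ'.e.injective ?_⟩
      rw [ε.smul, γ'.e_conj, e1]
      refine Prod.ext rfl ?_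
      change (!(b p)) = bx
      revert hb
      cases b p <;> cases bx <;> simp
  -- the weight of the class of Markman
  have hKeq : K = {j (1, 1), j (2, 0), j (2, 1)} := by
    symm
    apply Finset.eq_of_subset_of_card_le
    · intro y hy
      simp only [Finset.mem_insert, Finset.mem_singleton] at hy
      rcases hy with rfl | rfl | rfl
      · exact hj0
      · exact hj1
      · exact hj2
    · rw [hK3]
      have n1 : j (1, 1) ≠ j (2, 0) := fun h => absurd (hji h) (by decide)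
      have n2 : j (1, 1) ≠ j (2, 1) := fun h => absurd (hji h) (by decide)
      have n3 : j (2, 0) ≠ j (2, 1) := fun h => absurd (hji h) (by decide)
      rw [Finset.card_insert_of_notMem (by simp [n1, n2]),
        Finset.card_insert_of_notMem (by simp [n3]), Finset.card_singleton]
  let i' : Fin 2 × Fin 2 → γ'.X.S := fun p =>
    if p = (0, 0) then ε.ι (j (1, 1)) else if p = (0, 1) then x₁ else
      if p = (1, 0) then ε.ι (j (2, 0)) else ε.ι (j (2, 1))
  have i00 : i' (0, 0) = ε.ι (j (1, 1)) := rfl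
  have i01 : i' (0, 1) = x₁ := rfl
  have i10 : i' (1, 0) = ε.ι (j (2, 0)) := rfl
  have i11 : i' (1, 1) = ε.ι (j (2, 1)) := rfl
  have m1 : ∀ y, ε.ι y ≠ x₁ := fun y hy => hx₁ ⟨y, hy⟩
  have m2 : ∀ p q, p ≠ q → ε.ι (j p) ≠ ε.ι (j q) := fun p q hpq h => hpq (hji (ε.inj h))
  have hi' : Function.Injective i' := by
    intro p q h
    obtain ⟨p1, p2⟩ := p
    obtain ⟨q1, q2⟩ := q
    fin_cases p1 <;> fin_cases p2 <;> fin_cases q1 <;> fin_cases q2 <;>
      first
      | rfl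
      | (exfalso
         first
         | exact m1 _ h
         | exact m1 _ h.symm
         | exact m2 _ _ (by decide) h)
  have hfit' : Fits (wtJ γ'.e (insert x₁ (K.image ε.ι))) (fun p => (γ'.e (i' p)).1)
      (fun p => (γ'.e (i' p)).2) := by
    refine HalfAux.fits_wtJ γ' hfr i' hi' ?_ ?_
    · rintro ⟨p1, p2⟩
      rw [Finset.mem_insert, Finset.mem_image]
      fin_cases p1 <;> fin_cases p2
      · exact Or.inr ⟨_, hj0, rfl⟩
      · exact Or.inl rfl
      · exact Or.inr ⟨_, hj1, rfl⟩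
      · exact Or.inr ⟨_, hj2, rfl⟩
    · intro w hw
      rw [Finset.mem_insert, Finset.mem_image] at hw
      rcases hw with rfl | ⟨y, hy, rfl⟩
      · exact ⟨(0, 1), rfl⟩
      · rw [hKeq] at hy
        simp only [Finset.mem_insert, Finset.mem_singleton] at hy
        rcases hy with rfl | rfl | rfl
        · exact ⟨(0, 0), rfl⟩
        · exact ⟨(1, 0), rfl⟩
        · exact ⟨(1, 1), rfl⟩
  have hvrs : CL d' v ∈ d'.rs 2 := Submodule.subset_span ⟨v, hv, rfl⟩
  obtain ⟨a, ha⟩ := HalfAux.comp hfit' hvrs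
  obtain ⟨a', ha'⟩ := HalfAux.comp hfit'.neg hvrs
  have ha0 : a ≠ 0 := by
    rintro rfl
    apply hv1
    rw [ha, zero_smul]
    rfl
  have ha0' : a' ≠ 0 := by
    rintro rfl
    apply hv2
    rw [ha', zero_smul]
    rfl
  have hvm := Pr_rs d' 2 (wtJ γ'.e (insert x₁ (K.image ε.ι))) hvrs
  rw [ha, ha'] at hvm
  have g1 : ∀ p, γ'.e (ε.ι (j p)) = (ε.j (J p), b p) := fun p => ε.e_ι (j p)
  have hvfin : ((a • (ev (ee (ε.j (J (1, 1))) (b (1, 1)) ()) (ee x' bx ()) *
        ev (ee (ε.j (J (2, 0))) (b (2, 0)) ()) (ee (ε.j (J (2, 1))) (b (2, 1)) ())) +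
      a' • (ev (ee (ε.j (J (1, 1))) (!b (1, 1)) ()) (ee x' (!bx) ()) *
        ev (ee (ε.j (J (2, 0))) (!b (2, 0)) ()) (ee (ε.j (J (2, 1))) (!b (2, 1)) ())) :
        HC d'.Φ Unit) : HH d'.Φ Unit) ∈ d'.rs 2 := by
    have q1 : (MM (fun p => (γ'.e (i' p)).1) (fun p => (γ'.e (i' p)).2) : HC d'.Φ Unit) =
        ev (ee (ε.j (J (1, 1))) (b (1, 1)) ()) (ee x' bx ()) *
        ev (ee (ε.j (J (2, 0))) (b (2, 0)) ()) (ee (ε.j (J (2, 1))) (b (2, 1)) ()) := by
      unfold MM
      rw [Fin.prod_univ_two]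
      simp only [i00, i01, i10, i11, g1]
      rfl
    have q2 : (MM (fun p => (γ'.e (i' p)).1) (nb fun p => (γ'.e (i' p)).2) : HC d'.Φ Unit) =
        ev (ee (ε.j (J (1, 1))) (!b (1, 1)) ()) (ee x' (!bx) ()) *
        ev (ee (ε.j (J (2, 0))) (!b (2, 0)) ()) (ee (ε.j (J (2, 1))) (!b (2, 1)) ()) := by
      unfold MM nb
      rw [Fin.prod_univ_two]
      simp only [i00, i01, i10, i11, g1]
      rfl
    rw [q1, q2] at hvm
    exact hvm
  have hinj : Function.Injective (fun p => ε.j (J p)) := (ext_j ε).comp hfit.1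
  obtain ⟨y, hy, hyc⟩ := half d' hL' hdim (h2 A' L' hL' d') (fun p => ε.j (J p)) b hinj x' bx hne
    C C' hpull a a' ha0 ha0' hvfin
  obtain ⟨κ, hκ, hκt⟩ := kap_one d hL
  refine ⟨y * κ, by positivity, ?_⟩
  have hzer : zer η = ∅ := by
    rw [Finset.eq_empty_iff_forall_notMem]
    intro s hs
    have h3 : s ∈ sup η := by
      rw [hη]
      exact Finset.mem_univ s
    exact (Finset.mem_filter.1 h3).2 (Finset.mem_filter.1 hs).2
  have htop := MM_top hfit
  rw [hzer, Finset.prod_empty, mul_one] at htop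
  have hprod : Pr η z * Pr (-η) z = (-(C * C' * sg b)) • ((topF : HC d.Φ Unit) : HH d.Φ Unit) := by
    rw [hC, hC']
    have e1 : ((C • MM J b : HC d.Φ Unit) : HH d.Φ Unit) *
        ((C' • MM J (nb b) : HC d.Φ Unit) : HH d.Φ Unit) =
        (((C * C') • (MM J b * MM J (nb b)) : HC d.Φ Unit) : HH d.Φ Unit) := by
      rw [← smul_mul_smul_comm]
      rfl
    rw [e1, htop, smul_smul]
    have e2 : C * C' * ((-1) ^ 3 * sg b) = -(C * C' * sg b) := by ring
    rw [e2]
    rfl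
  rw [hprod, map_smul, hκt, hyc, smul_eq_mul]
  push_cast
  ring

end Pc0b458S
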