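import Pool.Agent.Lib.Pc0b458S.LefOne

/-!
# Module LefNull: weight zero (about 1.0h)

Let `z ∈ rs n`. Then `Pr 0 z ∈ rs n` (see the first lines of the proof of `lef_zero` in `LefTwo.lean`). By `wt_gen` with
`k = 0`, `m = n` (`Fits 0 J b` for the empty `J : Fin 0 × Fin 2 → Φ`, `MM J b = 1`; `zer 0 = univ`)
`Pr 0 z = ∑_R a R • ∏_R Dc` over the subsets with `n` elements (if `a R` is needed only for these `R`). Multiply with
`∏_{t ∉ R} Dc t ∈ rs (g - n)` (`LefTwoAux.prod_rs`): only the term of `R` survives, the product is `a R • topF ∈ rs g`, its trace is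
`a R * κ` with `κ > 0` real (`kap_one`) and it is real by `rs_tr`. So `a R` is real and `a R • ∏_R Dc ∈ rl n` (`prod_Dc_rl`,
`LefTwoAux.smul_rl`).
-/

universe u

open Finset Pc0b458 Pc0b458P

namespace Pc0b458S

open LefOneAux

variable {T : NumTheory.{u}} {W : EffData T} {A : T.AV} {L : T.Z A} (d : CMData T W A L)

theorem lef_null (hL : L ∈ T.Pol A) {n : ℕ} {z : HH d.Φ Unit} (hz : z ∈ d.rs n) :
    Pr 0 z ∈ d.rl n := by
  have hw : Pr 0 z ∈ d.rs n := by
    have h1 := Pr_rs d n 0 hz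
    rw [neg_zero] at h1
    have h2 := LefTwoAux.smul_rs d (1 / 2 : ℝ) h1
    have e : ((1 / 2 : ℝ) : ℂ) • (Pr 0 z + Pr 0 z) = Pr 0 z := by
      rw [← two_smul ℂ (Pr 0 z), smul_smul]
      push_cast
      norm_num
    rwa [e] at h2
  have hf : Fits (k := 0) (0 : d.Φ → ZMod 3) (fun p => p.1.elim0) (fun p => p.1.elim0) := by
    refine ⟨fun p => p.1.elim0, fun p => p.1.elim0, fun s hs => absurd rfl hs⟩
  have hMM : (MM (Φ := d.Φ) (k := 0) (fun p => p.1.elim0) (fun p => p.1.elim0) :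
      HC d.Φ Unit) = 1 := by
    unfold MM
    rw [Finset.univ_eq_empty, Finset.prod_empty]
  have hsp := Pr_span 0 (rs_pow d hz)
  have hn0 : 0 + n = n := zero_add n
  obtain ⟨a, ha⟩ : ∃ a : Finset d.Φ → ℂ,
      Pr 0 z = ((∑ R ∈ powersetCard n (zer (0 : d.Φ → ZMod 3)), a R • ((∏ t ∈ R, Dc t) *
        MM (Φ := d.Φ) (k := 0) (fun p => p.1.elim0) (fun p => p.1.elim0)) : HC d.Φ Unit) :
          HH d.Φ Unit) := by
    apply wt_gen hf
    rw [hn0]
    exact hsp
  have hzer : zer (0 : d.Φ → ZMod 3) = univ := by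
    unfold zer
    exact Finset.filter_true_of_mem fun s _ => rfl
  rw [hzer, hMM] at ha
  obtain ⟨κ, hκ, htop⟩ := kap_one d hL
  have hreal : ∀ R ∈ powersetCard n (univ : Finset d.Φ), a R = ((a R).re : ℂ) := by
    intro R hR
    have hR' := Finset.mem_powersetCard.1 hR
    have h1 := rs_mul d hw (LefTwoAux.prod_rs d hL (univ \ R))
    rw [Finset.card_sdiff_of_subset hR'.1, hR'.2, Finset.card_univ, d.card_Φ] at h1
    have hle : n ≤ T.dim A := by
      rw [← hR'.2, ← d.card_Φ, ← Finset.card_univ]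
      exact Finset.card_le_card hR'.1
    have h2 : n + (T.dim A - n) = T.dim A := by omega
    rw [h2] at h1
    have h3 : Pr 0 z * ((∏ r ∈ univ \ R, Dc r : HC d.Φ Unit) : HH d.Φ Unit) =
        a R • ((topF : HC d.Φ Unit) : HH d.Φ Unit) := by
      rw [ha]
      have h4 := pick hR a (1 : HC d.Φ Unit)
      rw [one_mul, ← DegAux.topF_unit] at h4
      exact congrArg (fun x : HC d.Φ Unit => (x : HH d.Φ Unit)) h4
    rw [h3] at h1
    obtain ⟨r, hr⟩ := rs_tr d h1
    rw [map_smul, htop, smul_eq_mul] at hr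
    have hκ' : (κ : ℂ) ≠ 0 := by exact_mod_cast hκ.ne'
    have h5 : a R = ((r / κ : ℝ) : ℂ) := by
      push_cast
      rw [eq_div_iff hκ', ← hr]
    rw [h5, Complex.ofReal_re]
  have hsum : Pr 0 z = ∑ R ∈ powersetCard n (univ : Finset d.Φ),
      ((a R).re : ℂ) • ((∏ t ∈ R, Dc t : HC d.Φ Unit) : HH d.Φ Unit) := by
    rw [ha, AddSubmonoidClass.coe_finsetSum]
    refine Finset.sum_congr rfl fun R hR => ?_
    rw [← hreal R hR, mul_one]
    rfl
  rw [hsum]
  refine Submodule.sum_mem _ fun R hR => ?_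
  have h1 := prod_Dc_rl d hL R
  rw [(Finset.mem_powersetCard.1 hR).2] at h1
  exact LefTwoAux.smul_rl d _ h1

end Pc0b458S
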