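import Pool.Agent.Lib.Pc0b458S.FourSix
import Pool.Agent.Lib.Pc0b458S.LefNull
import Pool.Agent.Lib.Pc0b458P.ExPsd

/-!
# Module SPsd: codimension three in dimension six (about 1.3h)

Follow the proof of `Pc0b458P.psd_exotic` (file `Pc0b458P/Psd.lean`), with `g = 6`, codimension `3`, `P = 1`. Let `z = CL d x`. Then
`tr (z z) = ∑_η tr (Pr η z * z) = ∑_η tr (Pr η z * Pr (-η) z)` (`sum_Pr`, `weight_orth` with the constant `1`, degrees `6 + 6 = 12 = 2 * 6`), and
`tr (w * z) = 0` for `w ∈ rl 3` by the hypothesis `h`. Distinguish the cardinality of `sup η` (at most `6`):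
* `0` (`η = 0`): `Pr 0 z ∈ rl 3` (`lef_null`).
* `2`: `Pr η z + Pr (-η) z ∈ rl 3` (`lef_one`).
* `4`: `four_six`.  `cl L * z = 0` is the image of `L ^ (6 - 6 + 1) * x = 0`.
* `6`: `sup η = univ`, hypothesis `hfull`.
* otherwise `Pr η z = 0` (`wt_none`).
So `t η + t (-η)` is a real number `≤ 0` for all `η`, where `t η = tr (Pr η z * z)`; sum over `η`.

`hsc_six`: `Pc0b458P.of_exotic_psd` with `n = 3` (`T.dim A - 2 * 3 = 0`, `pow_zero`, `mul_one`).
-/

universe u

open Finset Pc0b458 Pc0b458P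

namespace Pc0b458S

variable {T : NumTheory.{u}} {W : EffData T} {A : T.AV} {L : T.Z A} (d : CMData T W A L)

open Pc0b458P.PsdX in
include d in
theorem psd_six (hL : L ∈ T.Pol A) (hg : T.dim A = 6) (h2 : SignOK d 2)
    {x : T.Z A} (hx : x ∈ T.cod A 3) (hp : L * x = 0)
    (hfull : ∀ η : d.Φ → ZMod 3, sup η = univ →
      ∃ r : ℝ, 0 ≤ r ∧ - d.tr (Pr η (CL d x) * Pr (-η) (CL d x)) = r)
    (h : ∀ y ∈ Lef T.toCycleRings A 3, T.deg A (x * y) = 0) : T.deg A (x * x) ≤ 0 := by
  classical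
  set z : HH d.Φ Unit := CL d x with hzdef
  have hz0 : z = ((d.cl x : HC d.Φ Unit) : HH d.Φ Unit) := rfl
  have hzrs : z ∈ d.rs 3 := Submodule.subset_span ⟨x, hx, rfl⟩
  have hz6 : z ∈ ⋀[ℂ]^6 (HV d.Φ Unit) := rs_pow d hzrs
  have hcard : Fintype.card d.Φ = 6 := by rw [d.card_Φ, hg]
  have hp' : ((d.cl L : HC d.Φ Unit) : HH d.Φ Unit) * z = 0 := by
    have e : d.cl (L * x) = d.cl L * d.cl x := map_mul _ _ _
    rw [hp, map_zero] at e
    have e2 := congrArg (fun a : HC d.Φ Unit => (a : HH d.Φ Unit)) e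
    rw [hz0]
    simpa using e2.symm
  -- degrees of classes
  have hcl : ∀ y ∈ T.cod A 3, d.tr ((d.cl y : HH d.Φ Unit) * z) = (T.deg A (y * x) : ℂ) := by
    intro y hy
    have hcod : y * x ∈ T.cod A (T.dim A) := by
      have hh := T.mul_mem A 3 3 _ _ hy hx
      rw [hg]
      exact hh
    have e : d.cl (y * x) = d.cl y * d.cl x := map_mul _ _ _
    rw [← d.tr_cl _ hcod, e]
    rfl
  -- orthogonality to intersections of divisors
  have hrl : ∀ w ∈ d.rl 3, d.tr (w * z) = 0 := by
    intro w hw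
    induction hw using Submodule.span_induction with
    | mem w hw =>
      obtain ⟨y, hy, rfl⟩ := hw
      have hy' : y ∈ Lef T.toCycleRings A 3 := hy
      have h2 := h y hy'
      have h3 := hcl y (NumTheory.lef_cod A 3 hy')
      rw [mul_comm x y] at h2
      rw [h3, h2]
      simp
    | zero => simp
    | add a b _ _ ha hb => rw [add_mul, map_add, ha, hb, add_zero]
    | smul r a _ ha =>
      rw [← Complex.coe_smul, smul_mul_assoc, map_smul, ha, smul_zero]
  -- the components
  have hsum : ∑ η : d.Φ → ZMod 3, Pr η z = z := sum_Pr hz6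
  set t : (d.Φ → ZMod 3) → ℂ := fun η => d.tr (Pr η z * z) with ht
  have htsum : d.tr (z * z) = ∑ η, t η := by
    have e : z * z = ∑ η : d.Φ → ZMod 3, Pr η z * z := by
      rw [← Finset.sum_mul, hsum]
    rw [e, map_sum]
  have hone : ∀ u, tor (pt u) (1 : HH d.Φ Unit) = 1 := fun u => map_one _
  have htη : ∀ η : d.Φ → ZMod 3, t η = d.tr (Pr η z * Pr (-η) z) := by
    intro η
    have e1 : t η = ∑ η' : d.Φ → ZMod 3, d.tr (Pr η z * Pr η' z) := by
      have e : Pr η z * z = ∑ η' : d.Φ → ZMod 3, Pr η z * Pr η' z := by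
        rw [← Finset.mul_sum, hsum]
      rw [ht]
      simp only
      rw [e, map_sum]
    rw [e1]
    refine Finset.sum_eq_single (-η) (fun η' _ hne => ?_) (fun hn => absurd (mem_univ _) hn)
    have hw := weight_orth (k := 6) (l := 6) (c := 1) η η' (fun h0 => hne ?_) d.tr
      (Pr_span η hz6) (Pr_span η' hz6) hone ?_
    · rwa [mul_one] at hw
    · rw [eq_neg_iff_add_eq_zero, add_comm]; exact h0
    · rw [mul_one, hcard]
      exact mul_mem_pow (a := 6) (b := 6) (span_mem η (Pr_span η hz6))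
        (span_mem η' (Pr_span η' hz6))
  have hsup : ∀ η : d.Φ → ZMod 3, (sup (-η)).card = (sup η).card := fun η => cneg η
  have hbig : ∀ η : d.Φ → ZMod 3, (sup η).card = 4 ∨ (sup η).card = 6 →
      ∃ r : ℝ, 0 ≤ r ∧ - t η = (r : ℂ) := by
    intro η hη
    rw [htη]
    rcases hη with hη | hη
    · exact four_six d hL hg h2 η hη hzrs hp'
    · exact hfull η ((Finset.card_eq_iff_eq_univ _).1 (by rw [hη, hcard]))
  have hpair : ∀ η : d.Φ → ZMod 3, ∃ r : ℝ, 0 ≤ r ∧ -(t η + t (-η)) = (r : ℂ) := by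
    intro η
    by_cases c4 : (sup η).card = 4 ∨ (sup η).card = 6
    · obtain ⟨r, hr, e⟩ := hbig η c4
      obtain ⟨r', hr', e'⟩ := hbig (-η) (by rw [hsup]; exact c4)
      exact ⟨r + r', by positivity, by rw [neg_add, e, e']; push_cast; rfl⟩
    refine ⟨0, le_rfl, ?_⟩
    by_cases c2 : (sup η).card = 2
    · have := hrl _ (lef_one d hL (by norm_num) (by rw [hg]) η c2 hzrs)
      rw [add_mul, map_add] at this
      simp only [ht]
      rw [this]
      simp
    by_cases c0 : (sup η).card = 0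
    · have h0 : η = 0 := by
        funext s
        by_contra hs
        have : s ∈ sup η := by simp only [sup, mem_filter, mem_univ, true_and]; exact hs
        rw [Finset.card_eq_zero] at c0
        rw [c0] at this
        simp at this
      have h1 : t 0 = 0 := hrl _ (lef_null d hL hzrs)
      rw [h0, neg_zero, h1]
      simp
    · have hno : ∀ k ≤ 3, (sup η).card ≠ 2 * k := by
        intro k hk
        interval_cases k
        · simpa using c0
        · simpa using c2
        · intro hh; exact c4 (Or.inl (by omega))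
        · intro hh; exact c4 (Or.inr (by omega))
      have h1 : Pr η z = 0 := wt_none hno (Pr_span η hz6)
      have h2 : Pr (-η) z = 0 := wt_none (by intro k hk; rw [hsup]; exact hno k hk)
        (Pr_span (-η) hz6)
      simp only [ht]
      rw [h1, h2]
      simp
  choose r hr hre using hpair
  have hneg : ∑ η : d.Φ → ZMod 3, t (-η) = ∑ η, t η :=
    Equiv.sum_comp (Equiv.neg (d.Φ → ZMod 3)) t
  have hxx : d.tr (z * z) = (T.deg A (x * x) : ℂ) := hcl x hx
  have hfin : (-(2 * T.deg A (x * x)) : ℂ) = ((∑ η, r η : ℝ) : ℂ) := by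
    rw [← hxx, htsum, two_mul]
    conv_lhs => rhs; rhs; rw [← hneg]
    rw [← Finset.sum_add_distrib, ← Finset.sum_neg_distrib]
    push_cast
    exact Finset.sum_congr rfl fun η _ => hre η
  have hfin' : -(2 * ((T.deg A (x * x) : ℚ) : ℝ)) = ∑ η, r η := by
    exact_mod_cast hfin
  have hnn : 0 ≤ ∑ η, r η := Finset.sum_nonneg fun η _ => hr η
  have : ((T.deg A (x * x) : ℚ) : ℝ) ≤ 0 := by linarith
  exact_mod_cast this

include d in
theorem hsc_six (hL : L ∈ T.Pol A) (hg : T.dim A = 6) (h2 : SignOK d 2)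
    (hfull : ∀ x ∈ T.cod A 3, ∀ η : d.Φ → ZMod 3, sup η = univ →
      ∃ r : ℝ, 0 ≤ r ∧ - d.tr (Pr η (CL d x) * Pr (-η) (CL d x)) = r) :
    HSC T.toCycleRings A L 3 := by
  refine of_exotic_psd T A hL (by omega) fun x hx hp h => ?_
  have e0 : T.dim A - 2 * 3 = 0 := by omega
  rw [e0] at hp h ⊢
  rw [zero_add, pow_one] at hp
  have h' : ∀ y ∈ Lef T.toCycleRings A 3, T.deg A (x * y) = 0 := by
    intro y hy
    have := h y hy
    rwa [pow_zero, mul_one] at this
  have hfin := psd_six d hL hg h2 hx hp (hfull x hx) h'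
  rw [pow_zero, mul_one]
  nlinarith

end Pc0b458S
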