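import Pool.Agent.Lib.Pc0b458S.Defs

/-!
# Module WtGen: the monomials of a given weight, in every degree (about 2.2h)

This generalises `Pc0b458P.wt_four`, `wt_two`, `wt_zero`, `wt_other` (file `Pc0b458P/Wt.lean`; read it first, the
namespace `Pc0b458P.WtAux` contains `mo_perm`, `mo_not_inj`, `N`, `T`, `wt_eq`, `cases`, `entry`, `sum_N`, `sum_compl`,
`compl_cases`, `span_single`, `span_comb`, `sign_val`, ...).

`exists_fits`: enumerate the support of `η` by `Fin k × Fin 2` (it has `2 * k` elements, `Fintype.card_prod`,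
`Fintype.equivOfCardEq` or `Finset.equivOfCardEq`), `b p = decide (η (J p) = 1)`, `WtAux.sign_val`.

`mo_pairs`: by induction on `K`: `ιMulti_succ_apply` (or `ιMulti_apply` and `List.ofFn_succ`) twice.

`mo_fits` (corrected: `mo f = 0` or the conclusion; a sequence which is not injective may have too many entries): for `f : Fin (2 * (k + m)) → Φ × Bool` of weight `η` (with `Fits η J b`): if `f` is not injective then
`mo f = 0`. Otherwise over every `s` in the support of `η` there is exactly one entry, the one with the sign of `η s`, and the set `R` of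
the other elements over which there are entries (then there are both) has `m` elements
(`sum_N`: `2 * (k + m) = ∑ N f s`). Let `g` be the sequence of pairs `(J (i,0), b (i,0)), (J (i,1), b (i,1))`, `i : Fin k`,
followed by the pairs `(t, true), (t, false)`, `t ∈ R` (an enumeration `Fin m ≃ R`); every entry of `f` is an entry of `g`, so
`mo f = c • mo g` (`mo_perm`), and `mo g` is `(∏ t ∈ R, Dc t) * MM J b` by `mo_pairs`.
(Use `Fin.append` of the two sequences of pairs, `Fin (k + m)`, `Fin.prod_univ_add`.)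

`wt_gen`: from `mo_fits` by span induction (take the function `a = Pi.single R c` for a monomial; sums and multiples).
`wt_none`: `sum_compl`, `compl_cases` show that a nonzero monomial with `2 * n` entries has a weight whose support has `2 * k`
elements with `k ≤ n` (proof of `wt_other`).
-/

open Finset Pc0b458 Pc0b458P

namespace Pc0b458S

variable {Φ : Type} [Fintype Φ] [DecidableEq Φ]

theorem exists_fits {k : ℕ} (η : Φ → ZMod 3) (h : (sup η).card = 2 * k) :
    ∃ (J : Fin k × Fin 2 → Φ) (b : Fin k × Fin 2 → Bool), Fits η J b := by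
  have hc : Fintype.card (Fin k × Fin 2) = Fintype.card {x // x ∈ sup η} := by
    rw [Fintype.card_prod, Fintype.card_fin, Fintype.card_fin, Fintype.card_coe, h, mul_comm]
  let e := Fintype.equivOfCardEq hc
  have h0 : ∀ p, η (e p).1 ≠ 0 := by
    intro p
    have := (e p).2
    simp only [sup, mem_filter] at this
    exact this.2
  refine ⟨fun p => (e p).1, fun p => decide (η (e p).1 = 1), ?_, ?_, ?_⟩
  · intro p q hpq
    exact e.injective (Subtype.ext hpq)
  · intro p
    exact WtAux.sign_val (h0 p)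
  · intro s hs
    refine ⟨e.symm ⟨s, by simp only [sup, mem_filter]; exact ⟨mem_univ s, hs⟩⟩, ?_⟩
    simp

omit [Fintype Φ] [DecidableEq Φ] in
theorem coe_prod_fin (K : ℕ) (g : Fin K → HC Φ Unit) :
    ((∏ i, g i : HC Φ Unit) : HH Φ Unit) = (List.ofFn fun i => (g i : HH Φ Unit)).prod := by
  rw [← List.prod_ofFn]
  have h := map_list_prod (Subalgebra.center ℂ (HH Φ Unit)).val (List.ofFn g)
  rw [List.map_ofFn] at h
  exact h

omit [Fintype Φ] in
/-- the monomial of a sequence of pairs -/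
theorem mo_pairs (K : ℕ) (f : Fin (2 * K) → Φ × Bool) :
    mo f = ((∏ i : Fin K, ev (ee (f ⟨2 * i.1, by omega⟩).1 (f ⟨2 * i.1, by omega⟩).2 ())
      (ee (f ⟨2 * i.1 + 1, by omega⟩).1 (f ⟨2 * i.1 + 1, by omega⟩).2 ()) : HC Φ Unit) :
        HH Φ Unit) := by
  rw [coe_prod_fin]
  unfold mo
  rw [ExteriorAlgebra.ιMulti_apply, List.ofFn_mul', List.prod_flatten, List.map_ofFn]
  congr 2
  funext i
  simp only [Function.comp_apply, List.ofFn_succ, List.ofFn_zero, List.prod_cons, List.prod_nil,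
    mul_one]
  rfl

/-- the sequence of the pairs given by `J`, `b` and `t` -/
def pr {k m : ℕ} (J : Fin k × Fin 2 → Φ) (b : Fin k × Fin 2 → Bool) (t : Fin m → Φ) :
    Fin (k + m) → Fin 2 → Φ × Bool :=
  Fin.append (fun i r => (J (i, r), b (i, r))) fun i r => (t i, decide (r = 0))

/-- the sequence of the entries of the pairs -/
def en {K : ℕ} (P : Fin K → Fin 2 → Φ × Bool) : Fin (2 * K) → Φ × Bool := fun x =>
  P ⟨x.1 / 2, by omega⟩ ⟨x.1 % 2, by omega⟩

omit [Fintype Φ] [DecidableEq Φ] in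
theorem en_apply {K : ℕ} (P : Fin K → Fin 2 → Φ × Bool) (q : Fin K) (r : Fin 2) :
    en P ⟨2 * q.1 + r.1, by omega⟩ = P q r := by
  unfold en
  have h1 : (⟨(2 * q.1 + r.1) / 2, by omega⟩ : Fin K) = q := by
    apply Fin.ext
    change (2 * q.1 + r.1) / 2 = q.1
    omega
  have h2 : (⟨(2 * q.1 + r.1) % 2, by omega⟩ : Fin 2) = r := by
    apply Fin.ext
    change (2 * q.1 + r.1) % 2 = r.1
    omega
  exact congrArg₂ P h1 h2

omit [Fintype Φ] in
theorem mo_en {k m : ℕ} (J : Fin k × Fin 2 → Φ) (b : Fin k × Fin 2 → Bool) (t : Fin m → Φ) :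
    mo (en (pr J b t)) = ((MM J b * ∏ i, Dc (t i) : HC Φ Unit) : HH Φ Unit) := by
  rw [mo_pairs]
  congr 1
  rw [Fin.prod_univ_add]
  congr 1
  · unfold MM
    refine Finset.prod_congr rfl fun i _ => ?_
    have h0 := en_apply (pr J b t) (Fin.castAdd m i) 0
    have h1 := en_apply (pr J b t) (Fin.castAdd m i) 1
    have h2 : pr J b t (Fin.castAdd m i) = fun r => (J (i, r), b (i, r)) := Fin.append_left _ _ i
    rw [h2] at h0 h1
    exact congrArg₂ (fun u v : Φ × Bool => (ev (ee u.1 u.2 ()) (ee v.1 v.2 ()) : HC Φ Unit)) h0 h1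
  · refine Finset.prod_congr rfl fun i _ => ?_
    have h0 := en_apply (pr J b t) (Fin.natAdd k i) 0
    have h1 := en_apply (pr J b t) (Fin.natAdd k i) 1
    have h2 : pr J b t (Fin.natAdd k i) = fun r => (t i, decide (r = 0)) := Fin.append_right _ _ i
    rw [h2] at h0 h1
    exact congrArg₂ (fun u v : Φ × Bool => (ev (ee u.1 u.2 ()) (ee v.1 v.2 ()) : HC Φ Unit)) h0 h1

theorem fits_card {k : ℕ} {η : Φ → ZMod 3} {J : Fin k × Fin 2 → Φ} {b : Fin k × Fin 2 → Bool}
    (h : Fits η J b) : (WtAux.supp η).card = 2 * k := by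
  have h1 : WtAux.supp η = univ.image J := by
    ext s
    rw [WtAux.mem_supp, mem_image]
    constructor
    · intro hs
      obtain ⟨p, hp⟩ := h.2.2 s hs
      exact ⟨p, mem_univ p, hp⟩
    · rintro ⟨p, -, rfl⟩
      rw [h.2.1 p]
      cases b p
      · decide
      · decide
  rw [h1, card_image_of_injective _ h.1, card_univ, Fintype.card_prod, Fintype.card_fin,
    Fintype.card_fin, mul_comm]

theorem mo_fits {k m : ℕ} {η : Φ → ZMod 3} {J : Fin k × Fin 2 → Φ} {b : Fin k × Fin 2 → Bool}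
    (h : Fits η J b) (f : Fin (2 * (k + m)) → Φ × Bool) (hf : wt f = η) :
    mo f = 0 ∨ ∃ R ∈ powersetCard m (zer η), ∃ c : ℂ,
      mo f = c • (((∏ t ∈ R, Dc t) * MM J b : HC Φ Unit) : HH Φ Unit) := by
  by_cases hi : Function.Injective f
  swap
  · exact Or.inl (WtAux.mo_not_inj f hi)
  right
  have h1 := WtAux.sum_compl hi
  have h2 := WtAux.compl_cases hi
  rw [hf] at h1 h2
  rw [fits_card h] at h1
  let R : Finset Φ := (WtAux.supp η)ᶜ.filter fun s => WtAux.N f s = 2
  have hR : ∑ s ∈ (WtAux.supp η)ᶜ, WtAux.N f s = 2 * R.card := by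
    have h5 : 2 * R.card = ∑ s ∈ R, 2 := by rw [Finset.sum_const, smul_eq_mul]; omega
    rw [h5, Finset.sum_filter]
    refine Finset.sum_congr rfl fun s hs => ?_
    rcases h2 s hs with h3 | h3
    · rw [h3, if_neg (by omega)]
    · rw [h3, if_pos rfl]
  have hRc : R.card = m := by omega
  refine ⟨R, ?_, ?_⟩
  · rw [mem_powersetCard]
    refine ⟨?_, hRc⟩
    intro s hs
    rw [mem_filter, mem_compl, WtAux.mem_supp, not_not] at hs
    rw [zer, mem_filter]
    exact ⟨mem_univ s, hs.1⟩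
  · let t := R.equivFinOfCardEq hRc
    have h4 : (∏ s ∈ R, Dc s : HC Φ Unit) = ∏ i : Fin m, Dc ((t.symm i).1) := by
      rw [← Finset.prod_coe_sort R fun s => (Dc s : HC Φ Unit)]
      exact (Equiv.prod_comp t.symm fun s : R => (Dc s.1 : HC Φ Unit)).symm
    have h5 : ((∏ s ∈ R, Dc s) * MM J b : HC Φ Unit) =
        MM J b * ∏ i : Fin m, Dc ((t.symm i).1) := by rw [h4]; exact mul_comm _ _
    rw [h5, ← mo_en]
    apply WtAux.mo_perm
    intro j
    by_cases hj : (f j).1 ∈ WtAux.supp η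
    · obtain ⟨p, hp⟩ := h.2.2 _ ((WtAux.mem_supp _ _).1 hj)
      refine ⟨⟨2 * (Fin.castAdd m p.1).1 + p.2.1, by have := (Fin.castAdd m p.1).2; omega⟩, ?_⟩
      rw [en_apply, pr, Fin.append_left]
      have h6 := WtAux.entry hi j (b p) (by rw [hf, ← hp, h.2.1 p])
      rw [h6, hp]
    · have hjR : (f j).1 ∈ R := by
        rw [mem_filter, mem_compl]
        refine ⟨hj, ?_⟩
        have h7 := WtAux.N_pos (f := f) j
        have h8 := h2 (f j).1 (by rw [mem_compl]; exact hj)
        omega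
      have h9 : (t.symm (t ⟨(f j).1, hjR⟩)).1 = (f j).1 := by rw [Equiv.symm_apply_apply]
      rcases hb : (f j).2 with _ | _
      · refine ⟨⟨2 * (Fin.natAdd k (t ⟨(f j).1, hjR⟩)).1 + (1 : Fin 2).1, by
          have := (Fin.natAdd k (t ⟨(f j).1, hjR⟩)).2; omega⟩, ?_⟩
        rw [en_apply, pr, Fin.append_right, h9]
        exact Prod.ext rfl (by rw [hb]; rfl)
      · refine ⟨⟨2 * (Fin.natAdd k (t ⟨(f j).1, hjR⟩)).1 + (0 : Fin 2).1, by
          have := (Fin.natAdd k (t ⟨(f j).1, hjR⟩)).2; omega⟩, ?_⟩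
        rw [en_apply, pr, Fin.append_right, h9]
        exact Prod.ext rfl (by rw [hb]; rfl)

theorem wt_gen {k m : ℕ} {η : Φ → ZMod 3} {J : Fin k × Fin 2 → Φ} {b : Fin k × Fin 2 → Bool}
    (h : Fits η J b) {z : HH Φ Unit}
    (hz : z ∈ Submodule.span ℂ {w | ∃ f : Fin (2 * (k + m)) → Φ × Bool, wt f = η ∧ w = mo f}) :
    ∃ a : Finset Φ → ℂ,
      z = ((∑ R ∈ powersetCard m (zer η), a R • ((∏ t ∈ R, Dc t) * MM J b) : HC Φ Unit) :
        HH Φ Unit) := by
  classical
  induction hz using Submodule.span_induction with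
  | mem w hw =>
    obtain ⟨f, hf, rfl⟩ := hw
    rcases mo_fits h f hf with h0 | ⟨R, hR, c, hc⟩
    · refine ⟨fun _ => 0, ?_⟩
      rw [h0]
      simp
    · refine ⟨Pi.single R c, ?_⟩
      rw [hc, Finset.sum_eq_single_of_mem R hR, Pi.single_eq_same]
      · rfl
      · intro R' _ hR'
        rw [Pi.single_eq_of_ne hR', zero_smul]
  | zero =>
    refine ⟨fun _ => 0, ?_⟩
    simp
  | add x y _ _ hx hy =>
    obtain ⟨a, hx⟩ := hx
    obtain ⟨a', hy⟩ := hy
    refine ⟨fun R => a R + a' R, ?_⟩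
    simp only [add_smul, Finset.sum_add_distrib]
    rw [hx, hy]
    rfl
  | smul e x _ hx =>
    obtain ⟨a, hx⟩ := hx
    refine ⟨fun R => e * a R, ?_⟩
    simp only [mul_smul, ← Finset.smul_sum]
    rw [hx]
    rfl

theorem wt_none {n : ℕ} {η : Φ → ZMod 3} (h : ∀ k ≤ n, (sup η).card ≠ 2 * k) {z : HH Φ Unit}
    (hz : z ∈ Submodule.span ℂ {w | ∃ f : Fin (2 * n) → Φ × Bool, wt f = η ∧ w = mo f}) :
    z = 0 := by
  have hle : Submodule.span ℂ {w | ∃ f : Fin (2 * n) → Φ × Bool, wt f = η ∧ w = mo f} ≤ ⊥ := by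
    rw [Submodule.span_le]
    rintro w ⟨f, hf, rfl⟩
    change mo f = 0
    by_cases hi : Function.Injective f
    swap
    · exact WtAux.mo_not_inj f hi
    exfalso
    have h1 := WtAux.sum_compl hi
    have hc := WtAux.compl_cases hi
    rw [hf] at h1 hc
    have hev : Even (∑ s ∈ (WtAux.supp η)ᶜ, WtAux.N f s) := by
      refine Finset.even_sum _ fun s hs => ?_
      rcases hc s hs with h | h <;> rw [h]
      · exact ⟨0, rfl⟩
      · exact ⟨1, rfl⟩
    obtain ⟨r, hr⟩ := hev
    have h2 : (sup η).card = (WtAux.supp η).card := rfl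
    exact h (n - r) (by omega) (by omega)
  exact (Submodule.mem_bot ℂ).1 (hle hz)

end Pc0b458S
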