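import Pool.Agent.Lib.Pc0b458S.Basic
import Pool.Agent.Lib.Pc0b458S.WtGen

/-!
# Module SignOne: the sign in codimension one, the Hodge index theorem (about 1.5h)

Let `v = c • MM J b + c' • MM J (nb b) ∈ rs 1`, `g = dim A ≥ 2` (as `J` is injective). `v` is in the real span of `cl (cod A 1)`, so
`v = ∑ i, r i • cl (x i)` (finite sum, `x i ∈ cod A 1`, `r i` real). Put `y i = x i - (deg (x i * L^(g-1)) / deg (L^g)) • L`, which is
primitive: `L^(g-1) * y i` is in `cod A g` and has degree `0`, hence it is zero (`T.num_eq A g 0` with `cod A 0`...; if you prefer,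
avoid this: what is needed below is only `0 ≤ -deg (y y L^(g-2))` for all `y ∈ cod A 1` with `deg (y * L^(g-1)) = 0`; in the
theory `lef_pos` asks for `L ^ (g - 2 + 1) * y = 0`; `num_eq` with `i = g`, `j = 0` and `T.cod_zero`-like information is
not available in `NumTheory`, so use instead hard Lefschetz as in `NumTheory.nondeg`: `T.hl_surj A L 0`: every element of
`cod A g` is `L^g * w` with `w ∈ cod A 0`, and `num_eq A 0 g` shows ... or the lemma `top_zero` below).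

`top_zero`: if `w ∈ cod A g`, `deg w = 0` then `w = 0`, assuming `hc : ∀ x ∈ cod A 0, ∃ r : ℚ, x = algebraMap ℚ _ r` (which is
`cod_zero` of `Pc0b458P.FpTheory`): `num_eq A g 0`.

Next `∑ r i • cl (y i) = v - ρ • cl L` with `ρ` real, and `ρ * tr (cl L ^ g) = tr (v * cl L^(g-1)) = 0` since `v` has only weights `± η ≠ 0`
(`MM J b * (∑ Dc)^(g-1) = 0`: `MM_pow`-like, or the torus and `weight_orth`). So `v = ∑ r i • cl (y i)`.
The quadratic form `Q(t) = -deg (y_t y_t L^(g-2))`, `y_t = ∑ t i • y i`, is nonnegative for rational `t` (`NumTheory.lef_pos` with `n = 1`;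
`cod A 1 ⊆ Lef A 1`), hence for real `t` (continuity and density, see `Pc0b458/Real.lean`: `denseRange_ratCast`, `nonneg_of_rat`):
`0 ≤ - ∑ i j, r i r j deg (y i y j L^(g-2)) = - Re tr (v * v * cl L^(g-2))`. Finally by `MM_nb`, `MM_self`, `MM_pow`/`MM_top` (with `k = 1`)
`tr (v v cl L^(g-2)) = 2 c c' (-1) sg b (g-2)! κ` with `κ = tr topF > 0` (`kap_one`); it is real by `rs_tr`. So `c c' sg b` is real and
nonnegative.
-/

universe u

open Finset Pc0b458 Pc0b458P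

namespace Pc0b458S

variable {T : NumTheory.{u}} {W : EffData T} {A : T.AV} {L : T.Z A} (d : CMData T W A L)

theorem top_zero (hc : ∀ x ∈ T.cod A 0, ∃ r : ℚ, x = algebraMap ℚ (T.Z A) r) {w : T.Z A}
    (hw : w ∈ T.cod A (T.dim A)) (h : T.deg A w = 0) : w = 0 := by
  refine T.num_eq A (T.dim A) 0 w (by omega) hw fun y hy => ?_
  obtain ⟨r, rfl⟩ := hc y hy
  rw [mul_comm, ← Algebra.smul_def, map_smul, h, smul_zero]

/-- degrees as traces -/
theorem tr_clh {x y : T.Z A} {k : ℕ} (hxy : x * y * L ^ k ∈ T.cod A (T.dim A)) :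
    d.tr (((d.cl x : HC d.Φ Unit) : HH d.Φ Unit) * ((d.cl y : HC d.Φ Unit) : HH d.Φ Unit) *
      ((d.cl L ^ k : HC d.Φ Unit) : HH d.Φ Unit)) = (T.deg A (x * y * L ^ k) : ℂ) := by
  have e : d.cl (x * y * L ^ k) = d.cl x * d.cl y * d.cl L ^ k := by
    rw [map_mul, map_mul, map_pow]
  rw [← d.tr_cl _ hxy, e]
  rfl

theorem tr_clh' {x : T.Z A} {k : ℕ} (hx : x * L ^ k ∈ T.cod A (T.dim A)) :
    d.tr (((d.cl x : HC d.Φ Unit) : HH d.Φ Unit) *
      ((d.cl L ^ k : HC d.Φ Unit) : HH d.Φ Unit)) = (T.deg A (x * L ^ k) : ℂ) := by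
  have e : d.cl (x * L ^ k) = d.cl x * d.cl L ^ k := by
    rw [map_mul, map_pow]
  rw [← d.tr_cl _ hx, e]
  rfl

theorem cod_lef_one {x : T.Z A} (hx : x ∈ T.cod A 1) : x ∈ Lef T.toCycleRings A 1 :=
  Submodule.subset_span ⟨fun _ => x, fun _ => hx, by simp⟩

/-- the real form of the Hodge index theorem -/
theorem real_index (hc : ∀ x ∈ T.cod A 0, ∃ r : ℚ, x = algebraMap ℚ (T.Z A) r)
    (hL : L ∈ T.Pol A) (hg : 2 ≤ T.dim A) {v : HH d.Φ Unit} (hv : v ∈ d.rs 1)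
    (h0 : d.tr (v * ((d.cl L ^ (T.dim A - 1) : HC d.Φ Unit) : HH d.Φ Unit)) = 0) :
    ∃ r : ℝ, 0 ≤ r ∧ - d.tr (v * v * ((d.cl L ^ (T.dim A - 2) : HC d.Φ Unit) : HH d.Φ Unit)) = r := by
  have hL1 : L ∈ T.cod A 1 := T.pol_mem A L hL
  obtain ⟨n, r, g, hrg⟩ := Submodule.mem_span_set'.1 hv
  have hx : ∀ i, ∃ x ∈ T.cod A 1, ((d.cl x : HC d.Φ Unit) : HH d.Φ Unit) = g i := fun i => by
    obtain ⟨x, hx, hx2⟩ := (g i).2
    exact ⟨x, hx, hx2⟩
  choose x hx1 hx2 using hx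
  set D : ℚ := T.deg A (L ^ T.dim A) with hD
  have hD0 : 0 < D := T.pol_pos A L hL
  set q : Fin n → ℚ := fun i => T.deg A (x i * L ^ (T.dim A - 1)) / D with hq
  set y : Fin n → T.Z A := fun i => x i - q i • L with hy
  have hy1 : ∀ i, y i ∈ T.cod A 1 := fun i => sub_mem (hx1 i) (Submodule.smul_mem _ _ hL1)
  have hyL : ∀ i, y i * L ^ (T.dim A - 1) ∈ T.cod A (T.dim A) := fun i =>
    NumTheory.mul_mem' A (hy1 i) (NumTheory.pow_mem A hL1 _) (by omega)
  have hLL : L * L ^ (T.dim A - 1) = L ^ T.dim A := by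
    rw [← pow_succ', show T.dim A - 1 + 1 = T.dim A by omega]
  have hydeg : ∀ i, T.deg A (y i * L ^ (T.dim A - 1)) = 0 := by
    intro i
    simp only [hy, sub_mul, smul_mul_assoc, hLL, map_sub, map_smul, smul_eq_mul, hq]
    rw [← hD]
    field_simp
    ring
  have hyp : ∀ i, y i * L ^ (T.dim A - 1) = 0 := fun i => top_zero hc (hyL i) (hydeg i)
  -- `v` is the combination of the `cl (y i)`
  set ρ : ℂ := ∑ i, (r i : ℂ) * ((q i : ℝ) : ℂ) with hρ
  have hcly : ∀ i, ((d.cl (y i) : HC d.Φ Unit) : HH d.Φ Unit) =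
      ((d.cl (x i) : HC d.Φ Unit) : HH d.Φ Unit) -
        (((q i : ℝ) : ℂ)) • ((d.cl L : HC d.Φ Unit) : HH d.Φ Unit) := by
    intro i
    have e : d.cl (y i) = d.cl (x i) - d.cl (q i • L) := by rw [← map_sub]
    rw [e]
    change ((d.cl (x i) : HC d.Φ Unit) : HH d.Φ Unit) - ((d.cl (q i • L) : HC d.Φ Unit) :
      HH d.Φ Unit) = _
    rw [ConeAux.clh_smul]
    rfl
  have hrg' : v = ∑ i, (r i : ℂ) • (g i : HH d.Φ Unit) := hrg.symm
  have hvsum : v = ∑ i, (r i : ℂ) • ((d.cl (y i) : HC d.Φ Unit) : HH d.Φ Unit) +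
      ρ • ((d.cl L : HC d.Φ Unit) : HH d.Φ Unit) := by
    rw [hrg', hρ, Finset.sum_smul, ← Finset.sum_add_distrib]
    refine Finset.sum_congr rfl fun i _ => ?_
    rw [hcly, ← hx2, smul_sub, smul_smul, sub_add_cancel]
  have hρ0 : ρ = 0 := by
    rw [hvsum, add_mul, map_add, Finset.sum_mul, map_sum] at h0
    have e1 : ∀ i, d.tr (((r i : ℂ) • ((d.cl (y i) : HC d.Φ Unit) : HH d.Φ Unit)) *
        ((d.cl L ^ (T.dim A - 1) : HC d.Φ Unit) : HH d.Φ Unit)) = 0 := by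
      intro i
      rw [smul_mul_assoc, map_smul, tr_clh' d (hyL i), hydeg]
      simp
    have hLm : L * L ^ (T.dim A - 1) ∈ T.cod A (T.dim A) := by
      rw [hLL]; exact NumTheory.pow_mem A hL1 _
    rw [Finset.sum_congr rfl fun i _ => e1 i, Finset.sum_const_zero, zero_add, smul_mul_assoc,
      map_smul, tr_clh' d hLm, hLL, ← hD, smul_eq_mul] at h0
    have hD' : ((D : ℚ) : ℂ) ≠ 0 := by exact_mod_cast hD0.ne'
    exact (mul_eq_zero.1 h0).resolve_right hD'
  rw [hρ0] at hvsum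
  have hvs : v = ∑ i, (r i : ℂ) • ((d.cl (y i) : HC d.Φ Unit) : HH d.Φ Unit) := by
    rw [hvsum, zero_smul, add_zero]
  -- the quadratic form
  set B : Fin n → Fin n → ℚ := fun i j => T.deg A (y i * y j * L ^ (T.dim A - 2)) with hB
  have hyy : ∀ i j, y i * y j * L ^ (T.dim A - 2) ∈ T.cod A (T.dim A) := fun i j =>
    NumTheory.mul_mem' A (NumTheory.mul_mem' A (hy1 i) (hy1 j) rfl) (NumTheory.pow_mem A hL1 _)
      (by omega)
  have hquad : ∀ t : Fin n → ℝ, 0 ≤ - ∑ i, ∑ j, t i * t j * (B i j : ℝ) := by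
    refine nonneg_of_rat (by fun_prop) fun t => ?_
    set w : T.Z A := ∑ i, t i • y i with hw
    have hw1 : w ∈ T.cod A 1 := Submodule.sum_mem _ fun i _ => Submodule.smul_mem _ _ (hy1 i)
    have hwL : L ^ (T.dim A - 2 * 1 + 1) * w = 0 := by
      rw [show T.dim A - 2 * 1 + 1 = T.dim A - 1 by omega, hw, Finset.mul_sum]
      refine Finset.sum_eq_zero fun i _ => ?_
      rw [mul_smul_comm, mul_comm, hyp, smul_zero]
    have hdeg : T.deg A (w * w * L ^ (T.dim A - 2)) = ∑ i, ∑ j, t i * t j * B i j := by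
      rw [hw, Finset.sum_mul_sum, Finset.sum_mul, map_sum]
      refine Finset.sum_congr rfl fun i _ => ?_
      rw [Finset.sum_mul, map_sum]
      refine Finset.sum_congr rfl fun j _ => ?_
      rw [smul_mul_smul_comm, smul_mul_assoc, map_smul, smul_eq_mul]
    have hnn : 0 ≤ - T.deg A (w * w * L ^ (T.dim A - 2)) := by
      by_cases hw0 : w = 0
      · rw [hw0]; simp
      · have := NumTheory.lef_pos T A L 1 hL (by omega) w (cod_lef_one hw1) hw0 hwL
        rw [pow_one, mul_one] at this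
        linarith
    rw [hdeg] at hnn
    have : (0 : ℝ) ≤ ((- ∑ i, ∑ j, t i * t j * B i j : ℚ) : ℝ) := by exact_mod_cast hnn
    push_cast at this
    exact this
  refine ⟨- ∑ i, ∑ j, r i * r j * (B i j : ℝ), hquad r, ?_⟩
  have htr : d.tr (v * v * ((d.cl L ^ (T.dim A - 2) : HC d.Φ Unit) : HH d.Φ Unit)) =
      ∑ i, ∑ j, (r i : ℂ) * (r j : ℂ) * (B i j : ℂ) := by
    rw [hvs, Finset.sum_mul_sum, Finset.sum_mul, map_sum]
    refine Finset.sum_congr rfl fun i _ => ?_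
    rw [Finset.sum_mul, map_sum]
    refine Finset.sum_congr rfl fun j _ => ?_
    rw [smul_mul_smul_comm, smul_mul_assoc, map_smul, smul_eq_mul, tr_clh d (hyy i j)]
  rw [htr]
  push_cast
  rfl

theorem exists_weight {Φ : Type} {k : ℕ} {J : Fin k × Fin 2 → Φ}
    (hJ : Function.Injective J) (b : Fin k × Fin 2 → Bool) : ∃ η : Φ → ZMod 3, Fits η J b := by
  classical
  refine ⟨fun s => if h : ∃ p, J p = s then (if b h.choose then 1 else -1) else 0, hJ, ?_, ?_⟩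
  · intro p
    have h : ∃ p', J p' = J p := ⟨p, rfl⟩
    have e : h.choose = p := hJ h.choose_spec
    simp only [h, dif_pos]
    rw [e]
  · intro s hs
    by_contra hne
    exact hs (dif_neg hne)

/-- the square of a combination -/
theorem MM_sq {Φ : Type} [Fintype Φ] [DecidableEq Φ] {k : ℕ} (hk : k ≠ 0) {η : Φ → ZMod 3}
    {J : Fin k × Fin 2 → Φ} {b : Fin k × Fin 2 → Bool} (h : Fits η J b) (c c' : ℂ) :
    ((c • MM J b + c' • MM J (nb b)) * (c • MM J b + c' • MM J (nb b)) *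
      (∑ s, Dc s) ^ (Fintype.card Φ - 2 * k) : HC Φ Unit) =
    (2 * (c * c') * (((-1) ^ k * sg b) * ((Fintype.card Φ - 2 * k).factorial : ℂ))) • topF := by
  have h1 := MM_self hk J b
  have h2 := MM_self hk J (nb b)
  have h3 := MM_pow h
  have h4 := MM_top h
  have h5 : ((c • MM J b + c' • MM J (nb b)) * (c • MM J b + c' • MM J (nb b)) : HC Φ Unit) =
      (c * c) • (MM J b * MM J b) + (2 * (c * c')) • (MM J b * MM J (nb b)) +
      (c' * c') • (MM J (nb b) * MM J (nb b)) := by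
    rw [mul_add, add_mul, add_mul]
    simp only [smul_mul_smul_comm]
    rw [mul_comm (MM J (nb b) : HC Φ Unit) (MM J b), mul_comm c' c, two_mul, add_smul]
    abel
  rw [h5, h1, h2, smul_zero, smul_zero, zero_add, add_zero, smul_mul_assoc,
    mul_comm (MM J b : HC Φ Unit) (MM J (nb b)), mul_assoc, h3, mul_smul_comm]
  have h6 : (MM J (nb b) * (MM J b * ∏ s ∈ zer η, Dc s) : HC Φ Unit) =
      ((-1) ^ k * sg b) • topF := by
    rw [← h4]
    ring
  rw [h6, smul_smul, smul_smul]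
  congr 1
  ring

theorem neg_aux_left {R : Type} [CommRing R] {a b c : R} (h : a = -b) (h0 : b * c = 0) :
    a * c = 0 := by
  rw [h, neg_mul, h0, neg_zero]

theorem neg_aux_right {R : Type} [CommRing R] {a b c : R} (h : a = -b) (h0 : c * b = 0) :
    c * a = 0 := by
  rw [h, mul_neg, h0, neg_zero]

theorem MM_Dc_one {Φ : Type} [DecidableEq Φ] (J : Fin 1 × Fin 2 → Φ) (b : Fin 1 × Fin 2 → Bool)
    (p : Fin 1 × Fin 2) : (MM J b * Dc (J p) : HC Φ Unit) = 0 := by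
  have hev : ∀ u v w : HV Φ Unit, (ev u v * ev u w : HC Φ Unit) = 0 := DegAux.ev_left
  have hsw : ∀ u v : HV Φ Unit, (ev u v : HC Φ Unit) = -ev v u := DegAux.ev_swap
  have h1 : ∀ (s : Φ) (c : Bool) (v : HV Φ Unit), (ev (ee s c ()) v * Dc s : HC Φ Unit) = 0 := by
    intro s c v
    unfold Dc
    cases c
    · exact neg_aux_right (hsw _ _) (hev _ _ _)
    · exact hev _ _ _
  have h2 : ∀ (s : Φ) (c : Bool) (v : HV Φ Unit), (ev v (ee s c ()) * Dc s : HC Φ Unit) = 0 :=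
    fun s c v => neg_aux_left (hsw _ _) (h1 _ _ _)
  unfold MM
  rw [Fin.prod_univ_one]
  obtain ⟨i, j⟩ := p
  have hi : i = 0 := Subsingleton.elim _ _
  subst hi
  fin_cases j
  · exact h1 _ _ _
  · exact h2 _ _ _

theorem MM_pow_one {Φ : Type} [Fintype Φ] [DecidableEq Φ] {η : Φ → ZMod 3}
    {J : Fin 1 × Fin 2 → Φ} {b : Fin 1 × Fin 2 → Bool} (h : Fits η J b) :
    (MM J b * (∑ s, Dc s) ^ (Fintype.card Φ - 2 * 1 + 1) : HC Φ Unit) = 0 := by
  rw [pow_succ, ← mul_assoc, MM_pow h, smul_mul_assoc, Finset.mul_sum]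
  rw [Finset.sum_eq_zero, smul_zero]
  intro s _
  by_cases hs : η s = 0
  · have hm : s ∈ zer η := by simp [zer, hs]
    rw [mul_assoc, ← Finset.mul_prod_erase _ _ hm, mul_comm (Dc s) (∏ x ∈ (zer η).erase s, Dc x),
      mul_assoc, Dc_sq, mul_zero, mul_zero]
  · obtain ⟨p, rfl⟩ := h.2.2 s hs
    rw [mul_assoc, mul_comm (∏ s ∈ zer η, Dc s) (Dc (J p)), ← mul_assoc, MM_Dc_one, zero_mul]

theorem signOK_one (hc : ∀ x ∈ T.cod A 0, ∃ r : ℚ, x = algebraMap ℚ (T.Z A) r)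
    (hL : L ∈ T.Pol A) : SignOK d 1 := by
  intro J b hJ c c' hv
  obtain ⟨η, hη⟩ := exists_weight hJ b
  have hcard := d.card_Φ
  have hg : 2 ≤ Fintype.card d.Φ := by
    have := Fintype.card_le_of_injective J hJ
    simpa using this
  have hclL : (d.cl L : HC d.Φ Unit) = ∑ s, Dc s := by rw [d.cl_L, Dv_dls_unit]
  obtain ⟨κ, hκ, hκt⟩ := kap_one d hL
  have h0 : d.tr (((c • MM J b + c' • MM J (nb b) : HC d.Φ Unit) : HH d.Φ Unit) *
      ((d.cl L ^ (T.dim A - 1) : HC d.Φ Unit) : HH d.Φ Unit)) = 0 := by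
    have e : ((c • MM J b + c' • MM J (nb b)) * d.cl L ^ (T.dim A - 1) : HC d.Φ Unit) = 0 := by
      rw [hclL, show T.dim A - 1 = Fintype.card d.Φ - 2 * 1 + 1 by omega, add_mul, smul_mul_assoc,
        smul_mul_assoc, MM_pow_one hη, MM_pow_one hη.neg, smul_zero, smul_zero, add_zero]
    have e2 : ((c • MM J b + c' • MM J (nb b) : HC d.Φ Unit) : HH d.Φ Unit) *
      ((d.cl L ^ (T.dim A - 1) : HC d.Φ Unit) : HH d.Φ Unit) =
      (((c • MM J b + c' • MM J (nb b)) * d.cl L ^ (T.dim A - 1) : HC d.Φ Unit) : HH d.Φ Unit) := rfl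
    rw [e2, e]
    simp
  obtain ⟨r, hr, hre⟩ := real_index d hc hL (by omega) hv h0
  have e3 : ((c • MM J b + c' • MM J (nb b) : HC d.Φ Unit) : HH d.Φ Unit) *
      ((c • MM J b + c' • MM J (nb b) : HC d.Φ Unit) : HH d.Φ Unit) *
      ((d.cl L ^ (T.dim A - 2) : HC d.Φ Unit) : HH d.Φ Unit) =
      (((c • MM J b + c' • MM J (nb b)) * (c • MM J b + c' • MM J (nb b)) *
        (∑ s, Dc s) ^ (Fintype.card d.Φ - 2 * 1) : HC d.Φ Unit) : HH d.Φ Unit) := by
    rw [hclL, show T.dim A - 2 = Fintype.card d.Φ - 2 * 1 by omega]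
    rfl
  rw [e3, MM_sq one_ne_zero hη] at hre
  have e4 : ∀ a : ℂ, d.tr (((a • (topF : HC d.Φ Unit) : HC d.Φ Unit)) : HH d.Φ Unit) = a * (κ : ℂ) := by
    intro a
    rw [← hκt, ← smul_eq_mul, ← map_smul]
    rfl
  rw [e4] at hre
  have hf : ((Fintype.card d.Φ - 2 * 1).factorial : ℂ) ≠ 0 := by
    exact_mod_cast Nat.factorial_ne_zero _
  have hκ0 : (κ : ℂ) ≠ 0 := by exact_mod_cast hκ.ne'
  refine ⟨r / (2 * (Fintype.card d.Φ - 2 * 1).factorial * κ), by positivity, ?_⟩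
  push_cast
  rw [eq_div_iff (mul_ne_zero (mul_ne_zero two_ne_zero hf) hκ0), ← hre]
  ring

end Pc0b458S
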