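import Pool.Agent.Lib.Pc0b458S.Basic

/-!
# Module SignTwo: the sign in codimension two

This is `Pc0b458P.pair_nonneg` (file `PairPos.lean`), by `MM_four` and `sg_four`.
-/

universe u

open Finset Pc0b458 Pc0b458P

namespace Pc0b458S

variable {T : NumTheory.{u}} {W : EffData T} {A : T.AV} {L : T.Z A} (d : CMData T W A L)

theorem signOK_two (hL : L ∈ T.Pol A) : SignOK d 2 := by
  intro J b hJ c c' h
  have hb : (![nb b (0, 0), nb b (0, 1), nb b (1, 0), nb b (1, 1)] : Fin 4 → Bool) =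
      fun i => !((![b (0, 0), b (0, 1), b (1, 0), b (1, 1)] : Fin 4 → Bool) i) := by
    funext i
    fin_cases i <;> rfl
  have hinj : Function.Injective (![J (0, 0), J (0, 1), J (1, 0), J (1, 1)] : Fin 4 → d.Φ) := by
    have h4 : ∀ i : Fin 4, (![J (0, 0), J (0, 1), J (1, 0), J (1, 1)] : Fin 4 → d.Φ) i =
        J ((![(0, 0), (0, 1), (1, 0), (1, 1)] : Fin 4 → Fin 2 × Fin 2) i) := by
      intro i
      fin_cases i <;> rfl
    have h6 : ∀ i j : Fin 4, (![(0, 0), (0, 1), (1, 0), (1, 1)] : Fin 4 → Fin 2 × Fin 2) i =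
        (![(0, 0), (0, 1), (1, 0), (1, 1)] : Fin 4 → Fin 2 × Fin 2) j → i = j := by
      decide
    intro i j hij
    rw [h4, h4] at hij
    exact h6 i j (hJ hij)
  have h1 := pair_nonneg d hL ![J (0, 0), J (0, 1), J (1, 0), J (1, 1)] hinj
    ![b (0, 0), b (0, 1), b (1, 0), b (1, 1)] c c' (by
      rw [MM_four J b, MM_four J (nb b), hb] at h
      exact h)
  rw [← sg_four b] at h1
  exact h1

end Pc0b458S
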