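import Pool.Agent.Lib.Pc0b458S.SixPair
import Pool.Agent.Lib.Pc0b458S.SixSet

/-!
# Dimension six, weights with full support
-/

universe u

open Finset Pc0b458 Pc0b458P

namespace Pc0b458S

variable {T : NumTheory.{u}} {W : EffData T} {A : T.AV} {L : T.Z A} {d : CMData T W A L}
  {G : Type} [Group G] {D : Subgroup G} {c : G} (γ : GalData d D c)

/-- the component of weight `η` of a class of the smallest possible degree -/
theorem comp_MM {Φ : Type} [Fintype Φ] [DecidableEq Φ] {k : ℕ} {η : Φ → ZMod 3}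
    {J : Fin k × Fin 2 → Φ} {b : Fin k × Fin 2 → Bool} (h : Fits η J b) {z : HH Φ Unit}
    (hz : z ∈ ⋀[ℂ]^(2 * k) (HV Φ Unit)) :
    ∃ a : ℂ, Pr η z = ((a • MM J b : HC Φ Unit) : HH Φ Unit) := by
  obtain ⟨a, ha⟩ := wt_gen (m := 0) h (Pr_span η hz)
  rw [powersetCard_zero, sum_singleton, prod_empty, one_mul] at ha
  exact ⟨a ∅, ha⟩

theorem wtJ_mem {F : Finset γ.X.S} (hF : γ.X.Free F) {x : γ.X.S} (hx : x ∈ F) :
    wtJ γ.e F (γ.e x).1 = if (γ.e x).2 then 1 else -1 := by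
  have h1 : γ.e.symm ((γ.e x).1, (γ.e x).2) = x := γ.e.symm_apply_apply x
  have h2 : γ.e.symm ((γ.e x).1, !(γ.e x).2) = c • x := by
    rw [← γ.e_conj, Equiv.symm_apply_apply]
  have h3 := hF x hx
  rw [wtJ]
  cases hb : (γ.e x).2
  · rw [hb] at h1 h2
    rw [Bool.not_false] at h2
    rw [h1, h2, if_neg h3, if_pos hx, if_neg (by decide), zero_sub]
  · rw [hb] at h1 h2
    rw [Bool.not_true] at h2
    rw [h1, h2, if_neg h3, if_pos hx, if_pos rfl, sub_zero]

theorem wtJ_ne {F : Finset γ.X.S} {s : d.Φ} (hs : wtJ γ.e F s ≠ 0) :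
    ∃ x ∈ F, (γ.e x).1 = s := by
  by_contra hcon
  push Not at hcon
  have h1 : γ.e.symm (s, true) ∉ F := fun h => hcon _ h (by rw [Equiv.apply_symm_apply])
  have h2 : γ.e.symm (s, false) ∉ F := fun h => hcon _ h (by rw [Equiv.apply_symm_apply])
  apply hs
  rw [wtJ, if_neg h1, if_neg h2, sub_zero]

theorem fits_enum {k : ℕ} {F : Finset γ.X.S} (hF : γ.X.Free F) (j : Fin k × Fin 2 → γ.X.S)
    (hj : Function.Injective j) (hjF : ∀ p, j p ∈ F) (hFj : ∀ w ∈ F, ∃ p, j p = w) :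
    Fits (wtJ γ.e F) (fun p => (γ.e (j p)).1) (fun p => (γ.e (j p)).2) := by
  refine ⟨?_, fun p => wtJ_mem γ hF (hjF p), ?_⟩
  · intro p q h
    have h' : (γ.e (j p)).1 = (γ.e (j q)).1 := h
    apply hj
    apply γ.e.injective
    refine Prod.ext h' (bool_cases _ _ ?_)
    rw [← wtJ_mem γ hF (hjF p), ← wtJ_mem γ hF (hjF q), h']
  · intro s hs
    obtain ⟨x, hx, hxs⟩ := wtJ_ne γ hs
    obtain ⟨p, rfl⟩ := hFj x hx
    exact ⟨p, hxs⟩

theorem six_full (hL : L ∈ T.Pol A) (hg : T.dim A = 6) (h1 : SignOK d 1) (h2 : SignOK d 2)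
    (η : d.Φ → ZMod 3) (hη : sup η = univ)
    (hgood : γ.X.Tate 3 (setOf γ η) → HasPair γ.X (setOf γ η) ∨ γ.X.RankTwo (setOf γ η))
    {x : T.Z A} (hx : x ∈ T.cod A 3) :
    ∃ r : ℝ, 0 ≤ r ∧ - d.tr (Pr η (CL d x) * Pr (-η) (CL d x)) = r := by
  have hΦ : Fintype.card d.Φ = 6 := by rw [d.card_Φ, hg]
  set J₀ := setOf γ η with hJ₀
  have hcard : J₀.card = 2 * 3 := by rw [hJ₀, setOf_card γ hη, hΦ]
  have hfree : γ.X.Free J₀ := setOf_free γ
  have hwt : wtJ γ.e J₀ = η := wtJ_setOf γ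
  have hzer : zer η = ∅ := by
    ext s
    have hs : s ∈ sup η := by rw [hη]; exact mem_univ s
    have hs' : η s ≠ 0 := (mem_filter.1 hs).2
    constructor
    · intro h
      exact absurd (mem_filter.1 h).2 hs'
    · intro h
      exact absurd h (notMem_empty s)
  by_cases h0 : Pr η (CL d x) = 0
  · exact ⟨0, le_rfl, by rw [h0, zero_mul, map_zero, neg_zero, Complex.ofReal_zero]⟩
  have hzrs : CL d x ∈ d.rs 3 := Submodule.subset_span ⟨x, hx, rfl⟩
  have hz6 : CL d x ∈ ⋀[ℂ]^(2 * 3) (HV d.Φ Unit) := rs_pow d hzrs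
  have hT : γ.X.Tate 3 J₀ := γ.tate 3 J₀ hcard hfree x hx (by rw [hwt]; exact h0)
  obtain ⟨κ, hκ, hκt⟩ := kap_one d hL
  -- the product of the components
  have hprod : ∀ {J : Fin 3 × Fin 2 → d.Φ} {b : Fin 3 × Fin 2 → Bool}, Fits η J b →
      ∀ a a' : ℂ, Pr η (CL d x) = ((a • MM J b : HC d.Φ Unit) : HH d.Φ Unit) →
      Pr (-η) (CL d x) = ((a' • MM J (nb b) : HC d.Φ Unit) : HH d.Φ Unit) →
      d.tr (Pr η (CL d x) * Pr (-η) (CL d x)) = -(a * a' * sg b * κ) := by
    intro J b hJb a a' e1 e2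
    have e3 := MM_top hJb
    rw [hzer, prod_empty, mul_one] at e3
    have e4 : Pr η (CL d x) * Pr (-η) (CL d x) =
        (((a * a') • (MM J b * MM J (nb b)) : HC d.Φ Unit) : HH d.Φ Unit) := by
      rw [e1, e2]
      have : (a * a') • (MM J b * MM J (nb b) : HC d.Φ Unit) =
          (a • MM J b) * (a' • MM J (nb b)) := by
        rw [smul_mul_smul_comm]
      rw [this]
      rfl
    rw [e4, e3, smul_smul]
    have e5 : (((a * a' * ((-1) ^ 3 * sg b)) • (topF : HC d.Φ Unit) : HC d.Φ Unit) :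
        HH d.Φ Unit) = (a * a' * ((-1) ^ 3 * sg b)) • ((topF : HC d.Φ Unit) : HH d.Φ Unit) := rfl
    rw [e5, map_smul, hκt, smul_eq_mul]
    ring
  rcases hgood hT with hpair | hrank
  · obtain ⟨x₀, hx₀, y₀, hy₀, hne, hsl⟩ := hpair
    obtain ⟨j, hj, hjJ, hJj, hj0, hj1⟩ := exists_enum J₀ hcard hx₀ hy₀ hne
    have hfit := fits_enum γ hfree j hj hjJ hJj
    rw [hwt] at hfit
    set J : Fin 3 × Fin 2 → d.Φ := fun p => (γ.e (j p)).1 with hJdef
    set b : Fin 3 × Fin 2 → Bool := fun p => (γ.e (j p)).2 with hbdef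
    obtain ⟨a, ha⟩ := comp_MM hfit hz6
    obtain ⟨a', ha'⟩ := comp_MM hfit.neg hz6
    have hreal : ((a • MM J b + a' • MM J (nb b) : HC d.Φ Unit) : HH d.Φ Unit) ∈ d.rs 3 := by
      have := Pr_rs d 3 η hzrs
      rw [ha, ha'] at this
      exact this
    have hy₀' : y₀ ≠ c • x₀ := by
      intro h
      exact hfree x₀ hx₀ (h ▸ hy₀)
    obtain ⟨v, hv, hv1, hv2⟩ := γ.lef x₀ y₀ hne hy₀' hsl
    have hsub : ({x₀, y₀} : Finset γ.X.S) ⊆ J₀ := by
      intro w hw
      rw [mem_insert, mem_singleton] at hw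
      rcases hw with rfl | rfl
      · exact hx₀
      · exact hy₀
    have hfree1 : γ.X.Free ({x₀, y₀} : Finset γ.X.S) := fun w hw hcw =>
      hfree w (hsub hw) (hsub hcw)
    let j₁ : Fin 1 × Fin 2 → γ.X.S := fun p => j (2, p.2)
    have hj₁ : Function.Injective j₁ := by
      rintro ⟨p, q⟩ ⟨p', q'⟩ h
      have h' := hj h
      rw [Prod.mk.injEq] at h'
      exact Prod.ext (Subsingleton.elim _ _) h'.2
    have hj₁F : ∀ p, j₁ p ∈ ({x₀, y₀} : Finset γ.X.S) := by
      rintro ⟨p, q⟩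
      rw [mem_insert, mem_singleton]
      fin_cases q
      · left
        exact hj0
      · right
        exact hj1
    have hFj₁ : ∀ w ∈ ({x₀, y₀} : Finset γ.X.S), ∃ p, j₁ p = w := by
      intro w hw
      rw [mem_insert, mem_singleton] at hw
      rcases hw with rfl | rfl
      · exact ⟨(0, 0), hj0⟩
      · exact ⟨(0, 1), hj1⟩
    have hfit1 := fits_enum γ hfree1 j₁ hj₁ hj₁F hFj₁
    have hvrs : CL d v ∈ d.rs 1 := Submodule.subset_span ⟨v, hv, rfl⟩
    have hv2' : CL d v ∈ ⋀[ℂ]^(2 * 1) (HV d.Φ Unit) := rs_pow d hvrs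
    obtain ⟨e, he⟩ := comp_MM hfit1 hv2'
    obtain ⟨e', he'⟩ := comp_MM hfit1.neg hv2'
    have hM1 : (MM (fun p => (γ.e (j₁ p)).1) (fun p => (γ.e (j₁ p)).2) : HC d.Φ Unit) =
        ev (ee (J (2, 0)) (b (2, 0)) ()) (ee (J (2, 1)) (b (2, 1)) ()) := by
      rw [MM, Fin.prod_univ_one]
    have hM2 : (MM (fun p => (γ.e (j₁ p)).1) (nb fun p => (γ.e (j₁ p)).2) : HC d.Φ Unit) =
        ev (ee (J (2, 0)) (!b (2, 0)) ()) (ee (J (2, 1)) (!b (2, 1)) ()) := by
      rw [MM, Fin.prod_univ_one]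
      rfl
    rw [hM1] at he
    rw [hM2] at he'
    have hreal1 := Pr_rs d 1 (wtJ γ.e {x₀, y₀}) hvrs
    rw [he, he'] at hreal1
    have he0 : e ≠ 0 := by
      rintro rfl
      apply hv1
      rw [he, zero_smul]
      rfl
    have he0' : e' ≠ 0 := by
      rintro rfl
      apply hv2
      rw [he', zero_smul]
      rfl
    obtain ⟨y, hy, hyc⟩ := six_pair d hL hg h1 h2 J b hfit.1 a a' hreal e e' he0 he0' hreal1
    refine ⟨y * κ, by positivity, ?_⟩
    rw [hprod hfit a a' ha ha', hyc, neg_neg]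
    push_cast
    ring
  · obtain ⟨x', hx', hxe⟩ := γ.orbit 3 J₀ (by norm_num) hcard hfree hrank x hx
    rw [hwt] at hxe
    have hsupc : (sup η).card = 2 * 3 := by rw [hη, card_univ, hΦ]
    obtain ⟨J, b, hfit⟩ := exists_fits η hsupc
    obtain ⟨a, ha⟩ := comp_MM hfit hz6
    obtain ⟨a', ha'⟩ := comp_MM hfit.neg hz6
    have hneg : ¬ (-η = η) := by
      intro h
      have hs : ∃ s : d.Φ, η s ≠ 0 := by
        have hpos : 0 < (sup η).card := by rw [hsupc]; norm_num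
        obtain ⟨s, hs⟩ := card_pos.1 hpos
        exact ⟨s, (mem_filter.1 hs).2⟩
      obtain ⟨s, hs⟩ := hs
      have h3 : ∀ t : ZMod 3, -t = t → t = 0 := by decide
      exact hs (h3 _ (congrFun h s))
    have hneg' : ¬ (η = -η) := fun h => hneg h.symm
    have hs1 := Pr_span η hz6
    have hs2 := Pr_span (-η) hz6
    have hp1 : Pr η (CL d x') = Pr η (CL d x) := by
      rw [hxe, Pr_add, LefTwoAux.Pr_of_span η η hs1, LefTwoAux.Pr_of_span η (-η) hs2, if_pos rfl,
        if_neg hneg, add_zero]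
    have hp2 : Pr (-η) (CL d x') = Pr (-η) (CL d x) := by
      rw [hxe, Pr_add, LefTwoAux.Pr_of_span (-η) η hs1, LefTwoAux.Pr_of_span (-η) (-η) hs2,
        if_neg hneg', if_pos rfl, zero_add]
    have hx'0 : x' ≠ 0 := by
      rintro rfl
      apply h0
      rw [← hp1]
      have hz : CL d (0 : T.Z A) = 0 := by
        rw [CL, map_zero]
        rfl
      rw [hz]
      have h0' := Pr_smul η (0 : ℂ) (0 : HH d.Φ Unit)
      rw [zero_smul, zero_smul] at h0'
      exact h0'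
    have hanc := γ.ancona 3 J₀ (by norm_num) hcard hfree hrank x' hx' hx'0 (by rw [hwt, hp1, hp2, hxe])
    have hpow : T.dim A - 2 * 3 = 0 := by rw [hg]
    rw [hpow, pow_zero, mul_one] at hanc
    have hcod : x' * x' ∈ T.cod A (T.dim A) := by
      rw [hg]
      exact T.mul_mem A 3 3 _ _ hx' hx'
    have htr := d.tr_cl _ hcod
    have hsq1 : Pr η (CL d x) * Pr η (CL d x) = 0 := by
      rw [ha]
      have : (a • MM J b : HC d.Φ Unit) * (a • MM J b) = 0 := by
        rw [smul_mul_smul_comm, MM_self (by norm_num), smul_zero]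
      exact congrArg Subtype.val this
    have hsq2 : Pr (-η) (CL d x) * Pr (-η) (CL d x) = 0 := by
      rw [ha']
      have : (a' • MM J (nb b) : HC d.Φ Unit) * (a' • MM J (nb b)) = 0 := by
        rw [smul_mul_smul_comm, MM_self (by norm_num), smul_zero]
      exact congrArg Subtype.val this
    have hcomm : Pr (-η) (CL d x) * Pr η (CL d x) = Pr η (CL d x) * Pr (-η) (CL d x) := by
      rw [ha, ha']
      exact congrArg Subtype.val (mul_comm (a' • MM J (nb b) : HC d.Φ Unit) (a • MM J b))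
    have hmul : ((d.cl (x' * x') : HC d.Φ Unit) : HH d.Φ Unit) =
        (2 : ℂ) • (Pr η (CL d x) * Pr (-η) (CL d x)) := by
      have : ((d.cl (x' * x') : HC d.Φ Unit) : HH d.Φ Unit) = CL d x' * CL d x' := by
        rw [map_mul]
        rfl
      rw [this, hxe, add_mul, mul_add, mul_add, hsq1, hsq2, hcomm, zero_add, add_zero, two_smul]
    rw [hmul, map_smul, smul_eq_mul] at htr
    refine ⟨-((T.deg A (x' * x') : ℚ) : ℝ) / 2, ?_, ?_⟩
    · have h3 : (0 : ℚ) < - T.deg A (x' * x') := by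
        have := hanc
        norm_num at this ⊢
        linarith
      have h4 : (0 : ℝ) < -((T.deg A (x' * x') : ℚ) : ℝ) := by exact_mod_cast h3
      linarith
    · have : d.tr (Pr η (CL d x) * Pr (-η) (CL d x)) = ((T.deg A (x' * x') : ℚ) : ℂ) / 2 := by
        rw [← htr]
        ring
      rw [this]
      push_cast
      ring

end Pc0b458S
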