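import Pool.Agent.Lib.Pc0b458S.Choice
import Pool.Agent.Lib.Pc0b458S.Psd
import Pool.Agent.Lib.Pc0b458S.SixFull
import Pool.Agent.Lib.Pc0b458S.HalfFull
import Pool.Agent.Lib.Pc0b458S.SignOne
import Pool.Agent.Lib.Pc0b458S.SignTwo

/-!
# The Hodge standard conjecture in dimension six
-/

universe u

open Finset Pc0b458 Pc0b458P

namespace Pc0b458S

/-- codimension three in dimension six -/
theorem hsc_three (T : FpTheory.{u}) (A : T.AV) (hA : T.dim A = 6) (hne : ¬ Exc (T.sl A))
    (L' : T.Z A) (hL' : L' ∈ T.Pol A) : HSC T.toCycleRings A L' 3 := by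
  obtain ⟨L, hL, d, γ, hgood, hext⟩ := choice T A hA hne
  refine NumTheory.indep A hL hL' (by omega) ?_
  refine hsc_six d hL hA (signOK_two d hL) fun x hx η hη => ?_
  by_cases hh : HasHalf γ.X (setOf γ η)
  · exact six_half γ hL hA (fun A' L' hL' d' => signOK_two d' hL') hext η hη hh hx
  · refine six_full γ hL hA (signOK_one d (T.cod_zero A) hL) (signOK_two d hL) η hη
      (fun ht => ?_) hx
    rcases hgood _ ht (setOf_free γ) with h | h | h
    · exact Or.inl h
    · exact Or.inr h
    · exact absurd h hh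

end Pc0b458S
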