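import Pool.Agent.Lib.Pc0b458P.Data
import Pool.Agent.Lib.Pc0b458F.Datum

/-!
# Galois groups, slopes and cycle classes

`Pc0b458Q.FpTheory` (file `Pc0b458P/Data.lean`) lists known properties of the numerical cycle classes
on the abelian varieties over an algebraic closure of the field with `p` elements, of effective
cycles, of complex multiplication by a CM algebra `E` and of the cycle class map. Here we add
the Galois group `G` of a large CM field, the decomposition group `D` of a place above `p`, their
action on the homomorphisms from `E` to the CM field and the slopes of the Frobenius element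
(`Pc0b458F.CMDatum`, file `Pc0b458F/Datum.lean`), and theorems of Tate, Ancona and Markman.
-/

universe u

namespace Pc0b458R

open Pc0b458 Pc0b458Q
open Pc0b458F (CMDatum rho)

/-- The cohomology is the direct sum of lines `L_K`, where `K` is a set of elements of `Φ × Bool`, i.e. a
set of homomorphisms from `E` to the complex numbers, and `L_K` is spanned by the product of the
corresponding generators. `part k P` is the sum of the lines `L_K` for the sets `K` with
`k` elements which are in `P`. -/
noncomputable def part {Φ : Type} [DecidableEq Φ] (k : ℕ) (P : Set (Finset (Φ × Bool))) :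
    Submodule ℂ (Coh Φ Unit) :=
  Submodule.span ℂ {w | ∃ f : Fin k → Φ × Bool, Function.Injective f ∧
    Finset.univ.image f ∈ P ∧ w = (List.ofFn fun i => gen (f i).1 (f i).2 ()).prod}

section

variable {T : NumTheory.{u}} {W : Pc0b458P.EffData T} {A : T.AV} {L : T.Z A}

/-- The action of the Galois group `G` on the set `X.S` of homomorphisms from the CM algebra `E` to
a large Galois CM field; `D` is the decomposition group of a place above `p` and `c` is the complex
conjugation. -/
structure Embeddings (d : CMData T W A L) {G : Type} [Group G] (D : Subgroup G) (c : G) where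
  X : CMDatum G D c
  /-- a homomorphism is an element of `Φ` or the complex conjugate of an element of `Φ` -/
  e : X.S ≃ d.Φ × Bool
  e_conj : ∀ x, e (c • x) = ((e x).1, !(e x).2)

/-- the line of a set of homomorphisms -/
def Embeddings.line {d : CMData T W A L} {G : Type} [Group G] {D : Subgroup G} {c : G}
    (γ : Embeddings d D c) (J : Finset γ.X.S) : Finset (d.Φ × Bool) :=
  J.map γ.e.toEmbedding

/-- the class of `x`, of codimension `n`, has a nonzero component in `L_J` -/
def Embeddings.Occurs {d : CMData T W A L} {G : Type} [Group G] {D : Subgroup G} {c : G}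
    (γ : Embeddings d D c) (n : ℕ) (J : Finset γ.X.S) (x : T.Z A) : Prop :=
  inc (d.c.cl x) ∉ part (2 * n) {K | K ≠ γ.line J}

/-- the class of `x` is in the sum of `L_J` and of the complex conjugate line -/
def Embeddings.Pure {d : CMData T W A L} {G : Type} [Group G] {D : Subgroup G} {c : G}
    (γ : Embeddings d D c) (n : ℕ) (J : Finset γ.X.S) (x : T.Z A) : Prop :=
  inc (d.c.cl x) ∈ part (2 * n) {γ.line J, γ.line (γ.X.tr c J)}

/-- Known properties of the classes of algebraic cycles. -/
structure GalData (d : CMData T W A L) {G : Type} [Group G] (D : Subgroup G) (c : G) extends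
    Embeddings d D c where
  /-- if the class of an algebraic cycle has a nonzero component in `L_J` then the Frobenius
  eigenvalue on `L_J` is `q ^ n` times a root of unity -/
  tate : ∀ (n : ℕ) (J : Finset X.S), J.card = 2 * n → X.Free J → ∀ x ∈ T.cod A n,
    toEmbeddings.Occurs n J x → X.Tate n J
  /-- Tate's theorem for divisors -/
  lef : ∀ x y : X.S, x ≠ y → y ≠ c • x → (∀ g : G, X.s (g • x) + X.s (g • y) = 1) →
    ∃ z ∈ T.cod A 1, toEmbeddings.Occurs 1 {x, y} z ∧ toEmbeddings.Occurs 1 (X.tr c {x, y}) z
  /-- if the orbit of `J` consists of `J` and its complex conjugate then the projection to the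
  corresponding part of the cohomology is defined over `ℚ` -/
  orbit : ∀ (n : ℕ) (J : Finset X.S), J.card = 2 * n → X.Free J → X.RankTwo J → ∀ x ∈ T.cod A n,
    ∃ x' ∈ T.cod A n, toEmbeddings.Pure n J x' ∧
      ¬ toEmbeddings.Occurs n J (x - x') ∧ ¬ toEmbeddings.Occurs n (X.tr c J) (x - x')
  /-- Ancona's theorem on motives of rank two which lift to characteristic zero -/
  ancona : ∀ (n : ℕ) (J : Finset X.S), J.card = 2 * n → X.Free J → X.RankTwo J →
    ∀ x ∈ T.cod A n, x ≠ 0 → toEmbeddings.Pure n J x →
      0 < (-1) ^ n * T.deg A (x * x * L ^ (T.dim A - 2 * n))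
  /-- Markman's theorem on abelian fourfolds of Weil type: if `J` has four elements, its orbit consists
  of `J` and its complex conjugate, and `J` contains a supersingular element, then the line `L_J` comes
  from the product of an abelian threefold and a supersingular elliptic curve, for a suitable
  lift to characteristic zero it consists of Weil classes, and these are algebraic. -/
  markman : ∀ J : Finset X.S, J.card = 4 → X.Free J → X.RankTwo J → X.Tate 2 J →
    (∃ x ∈ J, ∀ g : G, X.s (g • x) = 1 / 2) →
      ∃ z ∈ T.cod A 2, toEmbeddings.Occurs 2 J z ∧ toEmbeddings.Occurs 2 (X.tr c J) z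

end

/-- the map of the first cohomology induced by a map of the sets of homomorphisms -/
noncomputable def extOne {Φ Φ' : Type} [Fintype Φ] [DecidableEq Φ'] (j : Φ → Φ') :
    (Φ × Bool × Unit → ℂ) →ₗ[ℂ] (Φ' × Bool × Unit → ℂ) where
  toFun f i := ∑ s, if j s = i.1 then f (s, i.2) else 0
  map_add' f f' := by
    funext i
    simp only [Pi.add_apply]
    rw [← Finset.sum_add_distrib]
    refine Finset.sum_congr rfl fun s _ => ?_
    split_ifs <;> simp
  map_smul' r f := by
    funext i
    simp only [Pi.smul_apply, RingHom.id_apply, Finset.smul_sum]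
    refine Finset.sum_congr rfl fun s _ => ?_
    split_ifs <;> simp

/-- the map of the cohomology which maps `gen s b ()` to `gen (j s) b ()` -/
noncomputable def ext {Φ Φ' : Type} [Fintype Φ] [DecidableEq Φ'] (j : Φ → Φ') :
    Coh Φ Unit →ₐ[ℂ] Coh Φ' Unit :=
  ExteriorAlgebra.map (extOne j)

section

variable {T : NumTheory.{u}} {W : Pc0b458P.EffData T} {A A' : T.AV} {L : T.Z A} {L' : T.Z A'}

/-- `A'` is the product of `A` and of a supersingular elliptic curve on which the imaginary quadratic
field fixed by `H` acts, with the product of the CM algebras and of the polarisations; `p` is the pull-back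
under the projection. -/
structure ExtData {d : CMData T W A L} {d' : CMData T W A' L'} {G : Type} [Group G]
    {D : Subgroup G} {c : G} (γ : GalData d D c) (γ' : GalData d' D c) (H : Subgroup G) where
  dim_eq : T.dim A' = T.dim A + 1
  p : T.Z A → T.Z A'
  p_mem : ∀ i x, x ∈ T.cod A i → p x ∈ T.cod A' i
  j : d.Φ → d'.Φ
  ι : γ.X.S → γ'.X.S
  inj : Function.Injective ι
  smul : ∀ (g : G) (x : γ.X.S), ι (g • x) = g • ι x
  slope : ∀ x : γ.X.S, γ'.X.s (ι x) = γ.X.s x
  e_ι : ∀ x, γ'.e (ι x) = (j (γ.e x).1, (γ.e x).2)
  cl_p : ∀ x, inc (d'.c.cl (p x)) = ext j (inc (d.c.cl x))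
  ss : ∀ x : γ'.X.S, x ∉ Set.range ι →
    (∀ g : G, γ'.X.s (g • x) = 1 / 2) ∧ ∀ h ∈ H, h • x = x

/-- `γ` describes complex multiplication on the product of an abelian variety without supersingular
factor, with CM datum `X₀`, and of a supersingular abelian variety on which the CM algebra acts
through the imaginary quadratic field fixed by `H`. -/
def Splits {d : CMData T W A L} {G : Type} [Group G] {D : Subgroup G} {c : G}
    (γ : GalData d D c) (X₀ : CMDatum G D c) (H : Subgroup G) : Prop :=
  ∃ ι : X₀.S → γ.X.S, Function.Injective ι ∧ (∀ (g : G) (x : X₀.S), ι (g • x) = g • ι x) ∧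
    (∀ x : X₀.S, γ.X.s (ι x) = X₀.s x) ∧
    ∀ x : γ.X.S, x ∉ Set.range ι → (∀ g : G, γ.X.s (g • x) = 1 / 2) ∧ ∀ h ∈ H, h • x = x

end

/-- `H` is the Galois group of `K` over an imaginary quadratic subfield in which `p` does not
split -/
def Nonsplit {G : Type} [Group G] (D : Subgroup G) (c : G) (H : Subgroup G) : Prop :=
  H.index = 2 ∧ c ∉ H ∧ ¬ D ≤ H

/-- Numerical cycle classes on the abelian varieties over an algebraic closure of the field with
`p` elements. For every abelian variety `A` a finite Galois CM extension `K` of the rationals is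
chosen which is large enough. -/
structure FpTheory extends Pc0b458Q.FpTheory.{u} where
  /-- the Galois group of `K` -/
  Gal : AV → Type
  [grp : ∀ A, Group (Gal A)]
  [finGal : ∀ A, Fintype (Gal A)]
  /-- the decomposition group of a place above `p` -/
  dec : ∀ A, Subgroup (Gal A)
  /-- complex conjugation -/
  conj : ∀ A, Gal A
  /-- for each Frobenius eigenvalue the family of the slopes of its conjugates -/
  sl : ∀ A, Multiset (Gal A → ℚ)
  /-- `K` contains an imaginary quadratic field in which `p` does not split -/
  nonsplit : ∀ A, ∃ H : Subgroup (Gal A), Nonsplit (dec A) (conj A) H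
  /-- Complex multiplication (Tate, Honda, Shimura, Taniyama): `A` is isogenous to `B × B'` with
  `B'` supersingular and `B` without supersingular factor. A CM algebra for `B` is given by `X₀`. For
  every imaginary quadratic subfield in which `p` does not split, it extends to a
  CM algebra for `A` which acts on `B'` through this imaginary quadratic field. -/
  cmg : ∀ A, ∃ X₀ : CMDatum (Gal A) (dec A) (conj A),
    (∀ x : X₀.S, ∃ g : Gal A, X₀.s (g • x) ≠ 1 / 2) ∧
    ∀ H : Subgroup (Gal A), Nonsplit (dec A) (conj A) H →
      ∃ L ∈ Pol A, ∃ (d : CMData toNumTheory eff A L) (γ : GalData d (dec A) (conj A)),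
        Splits γ X₀ H ∧ γ.X.slopes = sl A ∧
        ∀ H' : Subgroup (Gal A), Nonsplit (dec A) (conj A) H' →
          ∃ (A' : AV), ∃ L' ∈ Pol A', ∃ (d' : CMData toNumTheory eff A' L')
            (γ' : GalData d' (dec A) (conj A)), Nonempty (ExtData γ γ' H')

attribute [instance] FpTheory.grp FpTheory.finGal

/-- the multiset of the values of a function on three elements -/
def vals {V : Type} (a : Fin 3 → V) : Multiset V := Finset.univ.val.map a

/-- The exceptional family. The slopes of `A` are `1/2 ± a i`, `1/2 ± b i` (`i = 0, 1, 2`) with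
`a 0 + a 1 + a 2 = 0`, `b 0 + b 1 + b 2 = 0`, every element of the Galois group permutes
`{a i}`, `{-a i}`, `{b i}`, `{-b i}`, and some element maps `{a i}` to `{b i}` or `{-b i}`. -/
def Exceptional {G : Type} [Group G] (M : Multiset (G → ℚ)) : Prop :=
  ∃ a b : Fin 3 → G → ℚ, a 0 + a 1 + a 2 = 0 ∧ b 0 + b 1 + b 2 = 0 ∧
    (∀ i, a i ≠ 0) ∧ (∀ i, b i ≠ 0) ∧ (∀ i j, a i ≠ b j) ∧ (∀ i j, a i ≠ -b j) ∧
    (∀ g : G, ∀ P ∈ ({vals a, vals b} : Set (Multiset (G → ℚ))),
      P.map (rho g) = vals a ∨ P.map (rho g) = vals (-a) ∨ P.map (rho g) = vals b ∨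
        P.map (rho g) = vals (-b)) ∧
    (∃ g : G, (vals a).map (rho g) = vals b ∨ (vals a).map (rho g) = vals (-b)) ∧
    M = (vals a + vals (-a) + vals b + vals (-b)).map fun v g => 1 / 2 + v g

end Pc0b458R
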