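import Pool.Agent.Lib.Pc0b458S.Defs
import Pool.Agent.Lib.Pc0b458S.Data
import Pool.Agent.Lib.Pc0b458P.Conv

/-!
# Lines of the cohomology and components of a given weight
-/

universe u

open Finset Pc0b458 Pc0b458P

namespace Pc0b458S

open Pc0b458R (part)

variable {Φ : Type} [Fintype Φ] [DecidableEq Φ]

/-- the weight of a set -/
def wtF (J : Finset (Φ × Bool)) : Φ → ZMod 3 :=
  fun s => (if (s, true) ∈ J then 1 else 0) - (if (s, false) ∈ J then 1 else 0)

/-- the conjugate set -/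
def cjF (J : Finset (Φ × Bool)) : Finset (Φ × Bool) := J.image fun p => (p.1, !p.2)

omit [Fintype Φ] in
theorem mem_cjF {J : Finset (Φ × Bool)} {s : Φ} {b : Bool} : (s, b) ∈ cjF J ↔ (s, !b) ∈ J := by
  unfold cjF
  rw [mem_image]
  constructor
  · rintro ⟨⟨t, a⟩, h, e⟩
    rw [Prod.mk.injEq] at e
    obtain ⟨rfl, rfl⟩ := e
    rw [Bool.not_not]
    exact h
  · intro h
    exact ⟨(s, !b), h, by rw [Bool.not_not]⟩

omit [Fintype Φ] in
theorem wtF_cjF (J : Finset (Φ × Bool)) : wtF (cjF J) = -wtF J := by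
  funext s
  rw [Pi.neg_apply]
  unfold wtF
  simp only [mem_cjF, Bool.not_true, Bool.not_false]
  ring

omit [Fintype Φ] in
theorem T_mem {k : ℕ} {f : Fin k → Φ × Bool} (hf : Function.Injective f) (s : Φ) (b : Bool) :
    WtAux.T f s b = if (s, b) ∈ univ.image f then 1 else 0 := by
  have h1 := WtAux.T_le hf s b
  split_ifs with h
  · rw [mem_image] at h
    obtain ⟨j, -, hj⟩ := h
    have := WtAux.T_pos j hj
    omega
  · unfold WtAux.T
    rw [Finset.card_eq_zero, Finset.filter_eq_empty_iff]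
    intro j _ hj
    exact h (mem_image.2 ⟨j, mem_univ j, hj⟩)

omit [Fintype Φ] in
theorem wt_image {k : ℕ} {f : Fin k → Φ × Bool} (hf : Function.Injective f) :
    wt f = wtF (univ.image f) := by
  funext s
  rw [WtAux.wt_eq, T_mem hf, T_mem hf]
  unfold wtF
  split_ifs <;> simp

omit [Fintype Φ] in
/-- a set is determined by its weight and by its cardinality if one of the two sets is free -/
theorem eq_of_wtF {J K : Finset (Φ × Bool)} (hJ : ∀ p ∈ J, (p.1, !p.2) ∉ J)
    (hc : K.card = J.card) (h : wtF K = wtF J) : K = J := by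
  symm
  refine Finset.eq_of_subset_of_card_le ?_ hc.le
  rintro ⟨s, b⟩ hs
  have h1 := congrFun h s
  have h2 := hJ _ hs
  unfold wtF at h1
  cases b
  · simp only [Bool.not_false] at h2
    rw [if_neg h2, if_pos hs] at h1
    by_contra h3
    rw [if_neg h3] at h1
    split_ifs at h1
    · exact absurd h1 (by decide)
    · exact absurd h1 (by decide)
  · simp only [Bool.not_true] at h2
    rw [if_pos hs, if_neg h2] at h1
    by_contra h3
    rw [if_neg h3] at h1
    split_ifs at h1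
    · exact absurd h1 (by decide)
    · exact absurd h1 (by decide)

omit [Fintype Φ] in
theorem prod_mo {k : ℕ} (f : Fin k → Φ × Bool) :
    (List.ofFn fun i => (Pc0b458Q.gen (f i).1 (f i).2 () : Pc0b458Q.Coh Φ Unit)).prod = mo f :=
  (ExteriorAlgebra.ιMulti_apply _).symm

/-- the same as `part`, in terms of monomials -/
noncomputable def partP (k : ℕ) (P : Set (Finset (Φ × Bool))) : Submodule ℂ (HH Φ Unit) :=
  Submodule.span ℂ {w | ∃ f : Fin k → Φ × Bool, Function.Injective f ∧ univ.image f ∈ P ∧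
    w = mo f}

omit [Fintype Φ] in
theorem part_iff {k : ℕ} {P : Set (Finset (Φ × Bool))} {z : HH Φ Unit} :
    (z : Pc0b458Q.Coh Φ Unit) ∈ part k P ↔ z ∈ partP k P := by
  unfold part partP
  have e : {w : Pc0b458Q.Coh Φ Unit | ∃ f : Fin k → Φ × Bool, Function.Injective f ∧
      univ.image f ∈ P ∧ w = (List.ofFn fun i => Pc0b458Q.gen (f i).1 (f i).2 ()).prod} =
      {w | ∃ f : Fin k → Φ × Bool, Function.Injective f ∧ univ.image f ∈ P ∧ w = mo f} := by
    ext w
    simp only [prod_mo, Set.mem_setOf_eq]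
    exact Iff.rfl
  rw [e]
  exact Iff.rfl

omit [Fintype Φ] in
theorem part_mo {k : ℕ} {P : Set (Finset (Φ × Bool))} {f : Fin k → Φ × Bool}
    (hf : Function.Injective f) (h : univ.image f ∈ P) :
    (mo f : HH Φ Unit) ∈ partP k P :=
  Submodule.subset_span ⟨f, hf, h, rfl⟩

omit [Fintype Φ] in
/-- induction for elements of `part` -/
theorem part_ind {k : ℕ} {P : Set (Finset (Φ × Bool))} {C : HH Φ Unit → Prop}
    (hm : ∀ f : Fin k → Φ × Bool, Function.Injective f → univ.image f ∈ P → C (mo f))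
    (h0 : C 0) (ha : ∀ x y, C x → C y → C (x + y)) (hs : ∀ (a : ℂ) x, C x → C (a • x))
    {z : HH Φ Unit} (hz : z ∈ partP k P) : C z := by
  unfold partP at hz
  induction hz using Submodule.span_induction with
  | mem w hw =>
    obtain ⟨f, hf, hP, rfl⟩ := hw
    exact hm f hf hP
  | zero => exact h0
  | add x y _ _ hx hy => exact ha x y hx hy
  | smul a x _ hx => exact hs a x hx

variable {n : ℕ} {J : Finset (Φ × Bool)}

omit [Fintype Φ] in
theorem card_image_inj {k : ℕ} {f : Fin k → Φ × Bool} (hf : Function.Injective f) :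
    (univ.image f).card = k := by
  rw [Finset.card_image_of_injective _ hf, Finset.card_univ, Fintype.card_fin]

theorem Pr_of_part (hJ : ∀ p ∈ J, (p.1, !p.2) ∉ J) (hc : J.card = 2 * n) {z : HH Φ Unit}
    (hz : z ∈ partP (2 * n) {K | K ≠ J}) : Pr (wtF J) z = 0 := by
  refine part_ind (C := fun z => Pr (wtF J) z = 0) ?_ (FouAux.Pr_zero _) ?_ ?_ hz
  · intro f hf hP
    rw [Pr_mo, if_neg]
    intro h
    rw [wt_image hf] at h
    exact hP (eq_of_wtF hJ (by rw [card_image_inj hf, hc]) h)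
  · intro x y hx hy
    rw [Pr_add, hx, hy, add_zero]
  · intro a x hx
    rw [Pr_smul, hx, smul_zero]

theorem part_of_Pr {z : HH Φ Unit} (hz : z ∈ ⋀[ℂ]^(2 * n) (HV Φ Unit)) (h : Pr (wtF J) z = 0) :
    z ∈ partP (2 * n) {K | K ≠ J} := by
  rw [← sum_Pr hz]
  refine Submodule.sum_mem _ fun η _ => ?_
  by_cases hη : η = wtF J
  · rw [hη, h]
    exact Submodule.zero_mem _
  · refine (Submodule.span_le.2 ?_) (Pr_span η hz)
    rintro w ⟨f, hf, rfl⟩
    by_cases hi : Function.Injective f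
    · refine part_mo hi ?_
      intro e
      apply hη
      rw [← hf, wt_image hi, e]
    · rw [WtAux.mo_not_inj f hi]
      exact Submodule.zero_mem _

omit [Fintype Φ] in
theorem wtF_ne (hJ : ∀ p ∈ J, (p.1, !p.2) ∉ J) (hc : J.Nonempty) : wtF J ≠ -wtF J := by
  obtain ⟨⟨s, b⟩, hs⟩ := hc
  intro h
  have h1 := congrFun h s
  have h2 := hJ _ hs
  rw [Pi.neg_apply] at h1
  unfold wtF at h1
  cases b
  · simp only [Bool.not_false] at h2
    rw [if_neg h2, if_pos hs] at h1
    exact absurd h1 (by decide)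
  · simp only [Bool.not_true] at h2
    rw [if_pos hs, if_neg h2] at h1
    exact absurd h1 (by decide)

omit [Fintype Φ] in
theorem cjF_free (hJ : ∀ p ∈ J, (p.1, !p.2) ∉ J) : ∀ p ∈ cjF J, (p.1, !p.2) ∉ cjF J := by
  rintro ⟨s, b⟩ h h'
  rw [mem_cjF] at h
  have h2 : (s, !!b) ∈ J := mem_cjF.1 h'
  exact hJ _ h h2

omit [Fintype Φ] in
theorem cjF_card : (cjF J).card = J.card := by
  refine Finset.card_image_of_injective _ ?_
  rintro ⟨s, b⟩ ⟨t, a⟩ h
  rw [Prod.mk.injEq] at h
  obtain ⟨h1, h2⟩ := h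
  exact Prod.ext h1 (Bool.not_inj h2)

theorem Pr_pure (hJ : ∀ p ∈ J, (p.1, !p.2) ∉ J) (hn : J.Nonempty) {z : HH Φ Unit}
    (hz : z ∈ partP (2 * n) {J, cjF J}) :
    z = Pr (wtF J) z + Pr (-wtF J) z := by
  have hne := wtF_ne hJ hn
  refine part_ind (C := fun z => z = Pr (wtF J) z + Pr (-wtF J) z) ?_ ?_ ?_ ?_ hz
  · intro f hf hP
    rw [Pr_mo, Pr_mo, wt_image hf]
    rcases hP with h | h
    · rw [h, if_pos rfl, if_neg hne, add_zero]
    · rw [Set.mem_singleton_iff] at h
      rw [h, wtF_cjF, if_neg hne.symm, if_pos rfl, zero_add]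
  · rw [FouAux.Pr_zero, FouAux.Pr_zero, add_zero]
  · intro x y hx hy
    rw [Pr_add, Pr_add]
    conv_lhs => rw [hx, hy]
    abel
  · intro a x hx
    rw [Pr_smul, Pr_smul, ← smul_add, ← hx]

theorem pure_of_Pr (hJ : ∀ p ∈ J, (p.1, !p.2) ∉ J) (hc : J.card = 2 * n) {z : HH Φ Unit}
    (hz : z ∈ ⋀[ℂ]^(2 * n) (HV Φ Unit)) (h : z = Pr (wtF J) z + Pr (-wtF J) z) :
    z ∈ partP (2 * n) {J, cjF J} := by
  rw [h]
  refine Submodule.add_mem _ ?_ ?_
  · refine (Submodule.span_le.2 ?_) (Pr_span (wtF J) hz)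
    rintro w ⟨f, hf, rfl⟩
    by_cases hi : Function.Injective f
    · refine part_mo hi (Or.inl ?_)
      rw [wt_image hi] at hf
      exact eq_of_wtF hJ (by rw [card_image_inj hi, hc]) hf
    · rw [WtAux.mo_not_inj f hi]
      exact Submodule.zero_mem _
  · refine (Submodule.span_le.2 ?_) (Pr_span (-wtF J) hz)
    rintro w ⟨f, hf, rfl⟩
    by_cases hi : Function.Injective f
    · refine part_mo hi (Or.inr ?_)
      rw [wt_image hi, ← wtF_cjF] at hf
      exact eq_of_wtF (cjF_free hJ) (by rw [card_image_inj hi, cjF_card, hc]) hf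
    · rw [WtAux.mo_not_inj f hi]
      exact Submodule.zero_mem _

end Pc0b458S
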