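import Pool.Agent.Lib.Pc0b458S.Stmt
import Pool.Agent.Lib.Pc0b458S.PartC
import Pool.Agent.Lib.Pc0b458S.Final

/-!
# From the data of `Stmt` to the data used in the proof
-/

universe u

namespace Pc0b458W

open Pc0b458 Finset
open Pc0b458S (wtF cjF partP wtF_cjF Pr_of_part part_of_Pr Pr_pure pure_of_Pr mem_cjF)

section Cohomology

theorem pbOne_eq {Φ X : Type} (v : Φ → X → ℂ) : pbOne v = Pc0b458P.pb v := by
  refine LinearMap.ext fun f => ?_
  funext i
  rfl

theorem extOne_eq {Φ Φ' : Type} [Fintype Φ] [DecidableEq Φ'] (j : Φ → Φ') :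
    extOne j = Pc0b458S.incl j := by
  refine LinearMap.ext fun f => ?_
  funext i
  unfold extOne
  rw [LinearMap.pi_apply, LinearMap.sum_apply]
  refine Finset.sum_congr rfl fun s _ => ?_
  split_ifs <;> rfl

theorem pol_eq {Φ : Type} [Fintype Φ] [DecidableEq Φ] :
    ((Pc0b458P.Dv (Pc0b458P.dls ()) : Pc0b458P.HC Φ Unit) : Pc0b458P.HH Φ Unit) =
      polClass Φ := by
  rw [Pc0b458P.Dv_dls_unit, AddSubmonoidClass.coe_finsetSum]
  rfl

theorem prod_mo {Φ : Type} [Fintype Φ] [DecidableEq Φ] {k : ℕ} (f : Fin k → Φ × Bool) :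
    (List.ofFn fun i => (gen (f i).1 (f i).2 () : Coh Φ Unit)).prod = Pc0b458P.mo f :=
  (ExteriorAlgebra.ιMulti_apply _).symm

theorem lines_iff {Φ : Type} [Fintype Φ] [DecidableEq Φ] {k : ℕ} {P : Finset (Φ × Bool) → Prop}
    {z : Pc0b458P.HH Φ Unit} : InLines k P (z : Coh Φ Unit) ↔ z ∈ partP k {K | P K} := by
  unfold InLines partP
  have e : {w : Coh Φ Unit | ∃ f : Fin k → Φ × Bool, Function.Injective f ∧
      P (univ.image f) ∧ w = (List.ofFn fun i => gen (f i).1 (f i).2 ()).prod} =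
      {w | ∃ f : Fin k → Φ × Bool, Function.Injective f ∧
        univ.image f ∈ {K : Finset (Φ × Bool) | P K} ∧ w = Pc0b458P.mo f} := by
    ext w
    simp only [prod_mo, Set.mem_ofPred_eq]
    exact Iff.rfl
  rw [e]
  exact Iff.rfl

end Cohomology

/-- the ring homomorphism given by a cycle class map -/
noncomputable def CycleMap.hom {T : NumTheory.{u}} {B : T.AV} {Φ X : Type}
    (c : CycleMap T B Φ X) : T.Z B →+* Pc0b458P.HC Φ X where
  toFun x := ⟨c.cl x, Subalgebra.mem_center_iff.2 fun y => (c.cl_comm x y).symm⟩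
  map_one' := Subtype.ext c.cl_one
  map_mul' x y := Subtype.ext (c.cl_mul x y)
  map_zero' := Subtype.ext (by
    have h := c.cl_add 0 0
    rw [add_zero] at h
    exact left_eq_add.1 h)
  map_add' x y := Subtype.ext (c.cl_add x y)

/-- effective cycles -/
def Cycles.toEff (T : Cycles.{u}) : Pc0b458P.EffData T.toNumTheory where
  eff := T.eff
  eff_cod := T.eff_cod
  eff_mul := fun A i j x y hx hy => T.eff_mul A i j x hx y hy
  eff_deg := T.eff_deg
  pol_eff := T.pol_eff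
  pol_int := T.pol_int

section

variable {T : Cycles.{u}} {A A' : T.AV} {L : T.Z A} {L' : T.Z A'}

theorem single_val {M : ℕ} {Φ : Type} (E : Subring (Φ → ℂ)) (l : Fin M) :
    (fun l' => ((Pi.single l 1 : Fin M → E) l').1) = Pi.single l (1 : Φ → ℂ) := by
  funext l'
  by_cases h : l' = l
  · subst h
    rw [Pi.single_eq_same, Pi.single_eq_same]
    rfl
  · rw [Pi.single_eq_of_ne h, Pi.single_eq_of_ne h]
    rfl

/-- the data used in the proof -/
noncomputable def CMData.toP (d : CMData T A L) :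
    Pc0b458P.CMData T.toNumTheory T.toEff A L where
  Φ := d.Φ
  card_Φ := d.card_Φ
  E := d.E
  emb := fun s => (Pi.evalRingHom (fun _ => ℂ) s).comp d.E.subtype
  dense := fun v ε hε => by
    obtain ⟨a, ha, h⟩ := d.dense v ε hε
    exact ⟨⟨a, ha⟩, h⟩
  act := fun a => d.act a.1
  act_mem := fun a i x hx => d.act_mem a.1 a.2 i x hx
  pow := d.pow
  dim_pow := d.dim_pow
  pull := fun M a => d.pull M fun l => (a l).1
  pull_eff := fun M a i x hx => d.pull_eff M _ (fun l => (a l).2) i x hx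
  deg_pull := fun M x hx => by
    have h := d.deg_pull M x hx
    rw [← h]
    congr 1
    refine Finset.prod_congr rfl fun l _ => ?_
    rw [single_val]
    rfl
  cl := d.c.hom
  cl_mem := d.c.cl_mem
  cl_L := Subtype.ext (d.cl_L.trans pol_eq.symm)
  cl_act := fun a x => by
    have h := d.cl_act a.1 a.2 x
    refine h.trans ?_
    unfold pb mapExt
    rw [pbOne_eq]
    rfl
  clp := fun M => (d.cp M).hom
  clp_pull := fun M a x => by
    have h := d.cl_pull M (fun l => (a l).1) (fun l => (a l).2) x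
    refine h.trans ?_
    unfold pb mapExt
    rw [pbOne_eq]
    rfl
  tr := d.c.tr
  tr_cl := d.c.tr_cl
  trp := fun M => (d.cp M).tr
  trp_cl := fun M => (d.cp M).tr_cl

variable {Γ : Galois} (B : CMVar T Γ A)

theorem line_wt (J : Finset B.X.S) : wtF (B.line J) = Pc0b458S.wtJ B.e J := by
  funext s
  unfold wtF Pc0b458S.wtJ CMVar.line
  simp only [Finset.mem_map_equiv]

theorem line_conj (J : Finset B.X.S) : B.line (B.bar J) = cjF (B.line J) := by
  ext ⟨s, b⟩
  rw [mem_cjF]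
  unfold CMVar.line CMVar.bar Pc0b458F.CMDatum.tr
  rw [Finset.mem_map_equiv, Finset.mem_map_equiv, Finset.mem_image]
  constructor
  · rintro ⟨x, hx, h⟩
    have h1 := B.e_conj x
    rw [h, Equiv.apply_symm_apply, Prod.mk.injEq] at h1
    have h2 : B.e.symm (s, !b) = x := by
      rw [Equiv.symm_apply_eq]
      exact Prod.ext h1.1 (by rw [h1.2, Bool.not_not])
    rw [h2]
    exact hx
  · intro h
    refine ⟨_, h, ?_⟩
    rw [← Equiv.apply_eq_iff_eq B.e, B.e_conj, Equiv.apply_symm_apply, Equiv.apply_symm_apply,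
      Bool.not_not]

theorem line_free {J : Finset B.X.S} (h : B.X.Free J) :
    ∀ p ∈ B.line J, (p.1, !p.2) ∉ B.line J := by
  rintro ⟨s, b⟩ hp hq
  have h1 : (s, b) ∈ cjF (B.line J) := mem_cjF.2 hq
  rw [← line_conj] at h1
  unfold CMVar.line at h1 hp
  rw [Finset.mem_map_equiv] at h1 hp
  unfold CMVar.bar Pc0b458F.CMDatum.tr at h1
  rw [Finset.mem_image] at h1
  obtain ⟨x, hx, he⟩ := h1
  exact h x hx (he ▸ hp)

theorem line_card (J : Finset B.X.S) : (B.line J).card = J.card :=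
  Finset.card_map _

theorem bar_card (J : Finset B.X.S) : (B.bar J).card = J.card := Pc0b458F.card_tr _ _

theorem cl_mem {n : ℕ} {x : T.Z A} (hx : IsCod T.toNumTheory A n x) :
    (Pc0b458S.CL B.d.toP x) ∈ ⋀[ℂ]^(2 * n) (Pc0b458P.HV B.d.Φ Unit) :=
  B.d.c.cl_mem n x hx

theorem CL_sub (x y : T.Z A) :
    Pc0b458S.CL B.d.toP (x - y) = Pc0b458S.CL B.d.toP x - Pc0b458S.CL B.d.toP y := by
  unfold Pc0b458S.CL
  rw [map_sub]
  rfl

theorem Pr_sub (η : B.d.toP.Φ → ZMod 3) (x x' : T.Z A)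
    (h : Pc0b458P.Pr η (Pc0b458S.CL B.d.toP (x - x')) = 0) :
    Pc0b458P.Pr η (Pc0b458S.CL B.d.toP x') = Pc0b458P.Pr η (Pc0b458S.CL B.d.toP x) := by
  have e : Pc0b458P.Pr η (Pc0b458S.CL B.d.toP x) =
      Pc0b458P.Pr η (Pc0b458S.CL B.d.toP (x - x')) +
        Pc0b458P.Pr η (Pc0b458S.CL B.d.toP x') := by
    rw [← Pc0b458P.Pr_add, CL_sub, sub_add_cancel]
  rw [e, h, zero_add]

theorem occurs_of {n : ℕ} {J : Finset B.X.S} (hc : J.card = 2 * n)
    (hf : B.X.Free J) {x : T.Z A}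
    (h : Pc0b458P.Pr (Pc0b458S.wtJ B.e J) (Pc0b458S.CL B.d.toP x) ≠ 0) : B.Occurs J x := by
  intro hp
  apply h
  rw [← line_wt]
  rw [hc] at hp
  exact Pr_of_part (line_free B hf) (by rw [line_card, hc]) (lines_iff.1 hp)

theorem of_occurs {n : ℕ} {J : Finset B.X.S} (hc : J.card = 2 * n) {x : T.Z A}
    (hx : IsCod T.toNumTheory A n x) (h : B.Occurs J x) :
    Pc0b458P.Pr (Pc0b458S.wtJ B.e J) (Pc0b458S.CL B.d.toP x) ≠ 0 := by
  intro hp
  apply h
  rw [← line_wt] at hp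
  rw [hc]
  exact lines_iff.2 (part_of_Pr (cl_mem B hx) hp)

theorem wt_conj (J : Finset B.X.S) :
    Pc0b458S.wtJ B.e (B.bar J) = -Pc0b458S.wtJ B.e J := by
  rw [← line_wt, line_conj, wtF_cjF, line_wt]

theorem of_alg {n : ℕ} {J : Finset B.X.S} (hc : J.card = 2 * n) (h : B.Algebraic n J) :
    ∃ z ∈ T.cod A n, Pc0b458P.Pr (Pc0b458S.wtJ B.e J) (Pc0b458S.CL B.d.toP z) ≠ 0 ∧
      Pc0b458P.Pr (-Pc0b458S.wtJ B.e J) (Pc0b458S.CL B.d.toP z) ≠ 0 := by
  obtain ⟨z, hz, h4, h5⟩ := h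
  refine ⟨z, hz, of_occurs B hc hz h4, ?_⟩
  have h6 := of_occurs B ((bar_card B J).trans hc) hz h5
  rwa [wt_conj] at h6

/-- the data used in the proof -/
noncomputable def CMVar.toS (K : B.Known) : Pc0b458S.GalData B.d.toP Γ.D Γ.c where
  X := B.X
  e := B.e
  e_conj := B.e_conj
  tate := fun n J hc hf x hx h => K.1 n J x ⟨hc, hf⟩ hx (occurs_of B hc hf h)
  lef := fun x y h1 h2 h3 => of_alg B (Finset.card_pair h1) (K.2.1 x y ⟨h1, h2, h3⟩)
  orbit := fun n J hn hc hf hr x hx => by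
    obtain ⟨x', hx', h1, h2, h3⟩ := K.2.2.1 n J x ⟨hc, hf⟩ hr hx
    refine ⟨x', hx', ?_⟩
    have hne : (B.line J).Nonempty := by
      rw [← Finset.card_pos, line_card, hc]
      omega
    have h4 : Pc0b458P.Pr (Pc0b458S.wtJ B.e J) (Pc0b458S.CL B.d.toP (x - x')) = 0 := by
      by_contra h
      exact h2 (occurs_of B hc hf h)
    have h5 : Pc0b458P.Pr (-Pc0b458S.wtJ B.e J) (Pc0b458S.CL B.d.toP (x - x')) = 0 := by
      by_contra h
      rw [← wt_conj B] at h
      exact h3 (occurs_of B ((bar_card B J).trans hc) (Pc0b458S.tr_free Γ.c hf) h)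
    have h6 : (Pc0b458S.CL B.d.toP x') =
        Pc0b458P.Pr (wtF (B.line J)) (Pc0b458S.CL B.d.toP x') +
          Pc0b458P.Pr (-wtF (B.line J)) (Pc0b458S.CL B.d.toP x') := by
      refine Pr_pure (n := n) (line_free B hf) hne ?_
      have h7 := lines_iff.1 h1
      rw [line_conj, hc] at h7
      exact h7
    have h8 := Pr_sub B (Pc0b458S.wtJ B.e J) x x' h4
    have h9 := Pr_sub B (-Pc0b458S.wtJ B.e J) x x' h5
    rw [line_wt] at h6
    exact h6.trans (congrArg₂ _ h8 h9)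
  ancona := fun n J hn hc hf hr x hx hx0 h => by
    refine K.2.2.2.1 n J x ⟨hc, hf⟩ hr hx hx0 ?_
    refine lines_iff.2 ?_
    rw [line_conj, hc]
    refine pure_of_Pr (line_free B hf) (by rw [line_card, hc]) (cl_mem B hx) ?_
    rw [line_wt]
    exact h
  markman := fun J hc hf hr ht hs => of_alg B hc (K.2.2.2.2 J ⟨hc, hf⟩ hr ht hs)

variable {B}

/-- the data used in the proof -/
def Ext.toS {B' : CMVar T Γ A'} (K : B.Known) (K' : B'.Known) {H : Subgroup Γ.G}
    (ε : Ext B B' H) : Pc0b458S.ExtData (B.toS K) (B'.toS K') H where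
  dim_eq := ε.dim_eq
  p := ε.p
  p_mem := ε.p_mem
  j := ε.j
  ι := ε.ι
  inj := ε.inj
  smul := ε.smul
  slope := ε.slope
  e_ι := ε.e_ι
  cl_p := fun x => by
    have h := ε.cl_p x
    refine h.trans ?_
    unfold ext mapExt
    rw [extOne_eq]
    rfl
  ss := fun x hx => ⟨ε.ss x hx, ε.fixed x hx⟩

end

/-- the data used in the proof -/
noncomputable def FpTheory.toS (T : FpTheory.{u}) : Pc0b458S.FpTheory.{u} where
  toNumTheory := T.toNumTheory
  eff := T.toEff
  cod_zero := T.cod_zero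
  cm := fun A => by
    obtain ⟨H, hH⟩ := T.nonsplit A
    obtain ⟨X₀, -, h⟩ := T.cm A
    obtain ⟨B, -⟩ := h H hH
    exact ⟨B.L, B.L_mem, ⟨B.d.toP⟩⟩
  Gal := fun A => (T.gal A).G
  grp := fun A => (T.gal A).grp
  finGal := fun A => (T.gal A).fin
  dec := fun A => (T.gal A).D
  conj := fun A => (T.gal A).c
  sl := T.sl
  nonsplit := T.nonsplit
  cmg := fun (A : T.AV) => by
    obtain ⟨X₀, h0, h⟩ := T.cm A
    refine ⟨X₀, h0, fun H hH => ?_⟩
    obtain ⟨B, K, ⟨α⟩, h5, h6⟩ := h H hH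
    refine ⟨B.L, B.L_mem, B.d.toP, B.toS K, α.ι, α.inj, α.smul, α.slope,
      fun x hx => ⟨α.ss x hx, α.fixed x hx⟩, h5, fun H' hH' => ?_⟩
    obtain ⟨A', B', K', ⟨ε⟩⟩ := h6 H' hH'
    exact ⟨A', B'.L, B'.L_mem, B'.d.toP, B'.toS K', ⟨ε.toS K K'⟩⟩

theorem exc_iff {G : Type} [Group G] {M : Multiset (G → ℚ)} (h : Pc0b458S.Exc M) :
    Exceptional M := h

end Pc0b458W
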