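import Pool.Agent.Lib.Pc0b458P.Psd
import Pool.Agent.Lib.Pc0b458F.Theory

/-!
# Abelian varieties of dimension six: definitions
-/

universe u

open Finset Pc0b458 Pc0b458P

namespace Pc0b458S

open Pc0b458F (CMDatum rho IsNonsplit)

section Monomials

variable {Φ : Type} [DecidableEq Φ]

/-- a product of `k` pairs of unit vectors -/
noncomputable def MM {k : ℕ} (J : Fin k × Fin 2 → Φ) (b : Fin k × Fin 2 → Bool) : HC Φ Unit :=
  ∏ i : Fin k, ev (ee (J (i, 0)) (b (i, 0)) ()) (ee (J (i, 1)) (b (i, 1)) ())

/-- the complementary sign vector -/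
def nb {k : ℕ} (b : Fin k × Fin 2 → Bool) : Fin k × Fin 2 → Bool := fun p => !(b p)

/-- the sign of a sign vector -/
def sg {k : ℕ} (b : Fin k × Fin 2 → Bool) : ℂ := ∏ p, if b p then 1 else -1

/-- `η` is the weight of `MM J b` -/
def Fits {k : ℕ} (η : Φ → ZMod 3) (J : Fin k × Fin 2 → Φ) (b : Fin k × Fin 2 → Bool) : Prop :=
  Function.Injective J ∧ (∀ p, η (J p) = if b p then 1 else -1) ∧ ∀ s, η s ≠ 0 → ∃ p, J p = s

/-- the elements at which `η` vanishes -/
def zer [Fintype Φ] (η : Φ → ZMod 3) : Finset Φ := univ.filter fun s => η s = 0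

/-- the elements at which `η` does not vanish -/
def sup [Fintype Φ] (η : Φ → ZMod 3) : Finset Φ := univ.filter fun s => η s ≠ 0

end Monomials

section Weights

variable {T : NumTheory.{u}} {W : EffData T} {A : T.AV} {L : T.Z A}

/-- the class of a cycle in the cohomology ring -/
noncomputable def CL (d : CMData T W A L) (x : T.Z A) : HH d.Φ Unit := (d.cl x : HC d.Φ Unit)

/-- for every real class which is a combination of a product of `k` pairs and of its conjugate,
the product of the coefficients has the sign predicted by the Hodge-Riemann relations -/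
def SignOK (d : CMData T W A L) (k : ℕ) : Prop :=
  ∀ (J : Fin k × Fin 2 → d.Φ) (b : Fin k × Fin 2 → Bool), Function.Injective J → ∀ c c' : ℂ,
    ((c • MM J b + c' • MM J (nb b) : HC d.Φ Unit) : HH d.Φ Unit) ∈ d.rs k →
      ∃ y : ℝ, 0 ≤ y ∧ c * c' * sg b = (y : ℂ)

/-- the weight of a set of homomorphisms -/
def wtJ {S Φ : Type} [DecidableEq S] (e : S ≃ Φ × Bool) (J : Finset S) : Φ → ZMod 3 :=
  fun s => (if e.symm (s, true) ∈ J then 1 else 0) - (if e.symm (s, false) ∈ J then 1 else 0)

/-- The Galois group `G` of a large CM field `K` over `ℚ`, the decomposition group `D` of a place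
above `p` and the complex conjugation `c`, acting on the set of homomorphisms from the CM algebra `E`
of `d` to `K`, and well known properties of the cycle classes. -/
structure GalData (d : CMData T W A L) {G : Type} [Group G] (D : Subgroup G) (c : G) where
  X : CMDatum G D c
  /-- a homomorphism is an element of `Φ` or the complex conjugate of an element of `Φ` -/
  e : X.S ≃ d.Φ × Bool
  e_conj : ∀ x, e (c • x) = ((e x).1, !(e x).2)
  /-- the Frobenius eigenvalue on the line `L_J` is `q ^ n` times a root of unity if the class of an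
  algebraic cycle has a nonzero component in `L_J` -/
  tate : ∀ (n : ℕ) (J : Finset X.S), J.card = 2 * n → X.Free J → ∀ x ∈ T.cod A n,
    Pr (wtJ e J) (CL d x) ≠ 0 → X.Tate n J
  /-- Tate's theorem for divisors -/
  lef : ∀ x y : X.S, x ≠ y → y ≠ c • x → (∀ g : G, X.s (g • x) + X.s (g • y) = 1) →
    ∃ z ∈ T.cod A 1, Pr (wtJ e {x, y}) (CL d z) ≠ 0 ∧ Pr (-wtJ e {x, y}) (CL d z) ≠ 0
  /-- if the orbit of `J` consists of `J` and its complex conjugate then the projection to the
  corresponding part of the cohomology is defined over `ℚ` -/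
  orbit : ∀ (n : ℕ) (J : Finset X.S), n ≠ 0 → J.card = 2 * n → X.Free J → X.RankTwo J →
    ∀ x ∈ T.cod A n, ∃ x' ∈ T.cod A n, CL d x' = Pr (wtJ e J) (CL d x) + Pr (-wtJ e J) (CL d x)
  /-- Ancona's theorem on motives of rank two which lift to characteristic zero -/
  ancona : ∀ (n : ℕ) (J : Finset X.S), n ≠ 0 → J.card = 2 * n → X.Free J → X.RankTwo J →
    ∀ x ∈ T.cod A n, x ≠ 0 → CL d x = Pr (wtJ e J) (CL d x) + Pr (-wtJ e J) (CL d x) →
      0 < (-1) ^ n * T.deg A (x * x * L ^ (T.dim A - 2 * n))
  /-- Markman's theorem on abelian fourfolds of Weil type: if `J` has four elements, its orbit consists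
  of `J` and its complex conjugate, and `J` contains a supersingular element, then the line `L_J` is
  the class of a product of an abelian threefold and a supersingular elliptic curve, for a suitable
  lift to characteristic zero it consists of Weil classes, and it is algebraic. -/
  markman : ∀ J : Finset X.S, J.card = 4 → X.Free J → X.RankTwo J → X.Tate 2 J →
    (∃ x ∈ J, ∀ g : G, X.s (g • x) = 1 / 2) →
      ∃ z ∈ T.cod A 2, Pr (wtJ e J) (CL d z) ≠ 0 ∧ Pr (-wtJ e J) (CL d z) ≠ 0

/-- the inclusion of the first cohomology -/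
noncomputable def incl {Φ Φ' : Type} [Fintype Φ] [DecidableEq Φ'] (j : Φ → Φ') :
    HV Φ Unit →ₗ[ℂ] HV Φ' Unit where
  toFun f i := ∑ s, if j s = i.1 then f (s, i.2) else 0
  map_add' f f' := by
    funext i
    simp only [Pi.add_apply]
    rw [← Finset.sum_add_distrib]
    refine Finset.sum_congr rfl fun s _ => ?_
    split_ifs <;> simp
  map_smul' r f := by
    funext i
    simp only [Pi.smul_apply, RingHom.id_apply, Finset.smul_sum]
    refine Finset.sum_congr rfl fun s _ => ?_
    split_ifs <;> simp

/-- `A'` is the product of `A` and of a supersingular elliptic curve on which the imaginary quadratic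
field fixed by `H` acts, with the product of the CM algebras and of the polarisations; `p` is the pull-back
under the projection. -/
structure ExtData {A' : T.AV} {L' : T.Z A'} {d : CMData T W A L} {d' : CMData T W A' L'}
    {G : Type} [Group G] {D : Subgroup G} {c : G} (γ : GalData d D c) (γ' : GalData d' D c)
    (H : Subgroup G) where
  dim_eq : T.dim A' = T.dim A + 1
  p : T.Z A → T.Z A'
  p_mem : ∀ i x, x ∈ T.cod A i → p x ∈ T.cod A' i
  j : d.Φ → d'.Φ
  ι : γ.X.S → γ'.X.S
  inj : Function.Injective ι
  smul : ∀ (g : G) (x : γ.X.S), ι (g • x) = g • ι x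
  slope : ∀ x : γ.X.S, γ'.X.s (ι x) = γ.X.s x
  e_ι : ∀ x, γ'.e (ι x) = (j (γ.e x).1, (γ.e x).2)
  cl_p : ∀ x, CL d' (p x) = ExteriorAlgebra.map (incl j) (CL d x)
  ss : ∀ x : γ'.X.S, x ∉ Set.range ι →
    (∀ g : G, γ'.X.s (g • x) = 1 / 2) ∧ ∀ h ∈ H, h • x = x

end Weights

section Combinatorics

variable {G : Type} [Group G] {D : Subgroup G} {c : G} (X : CMDatum G D c)

/-- `J` contains two elements `x`, `y` such that `L_x ⊗ L_y` is of Tate type -/
def HasPair (J : Finset X.S) : Prop :=
  ∃ x ∈ J, ∃ y ∈ J, x ≠ y ∧ ∀ g : G, X.s (g • x) + X.s (g • y) = 1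

/-- `J` contains a set of three elements, with sum of the slopes `3 / 2`, whose orbit consists of it
and its complex conjugate -/
def HasHalf (J : Finset X.S) : Prop :=
  ∃ K ⊆ J, K.card = 3 ∧ X.RankTwo K ∧ ∑ x ∈ K, X.a x = 0

/-- `K` is a set of five elements, with sum of the slopes `5 / 2`, which contains neither
conjugate elements nor pairs of Tate type; its orbit consists of `K` and its complex conjugate -/
def IsFive (K : Finset X.S) : Prop :=
  K.card = 5 ∧ X.Free K ∧ ¬ HasPair X K ∧ X.RankTwo K ∧ ∑ x ∈ K, X.a x = 0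

/-- the set with elements `a i`, `-a i`, `b i`, `-b i` -/
def four (a b : Fin 3 → G → ℚ) : Multiset (G → ℚ) :=
  univ.val.map a + univ.val.map (fun i => -a i) + univ.val.map b + univ.val.map (fun i => -b i)

/-- The exceptional family. The slopes of `A` are `1/2 ± a i`, `1/2 ± b i` (`i = 0, 1, 2`) with
`a 0 + a 1 + a 2 = 0`, `b 0 + b 1 + b 2 = 0`, and every element of the Galois group permutes
`{a i}`, `{-a i}`, `{b i}`, `{-b i}`, and some element maps `{a i}` to `{b i}` or `{-b i}`. -/
def Exc (M : Multiset (G → ℚ)) : Prop :=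
  ∃ a b : Fin 3 → G → ℚ, a 0 + a 1 + a 2 = 0 ∧ b 0 + b 1 + b 2 = 0 ∧
    (∀ i, a i ≠ 0) ∧ (∀ i, b i ≠ 0) ∧ (∀ i j, a i ≠ b j) ∧ (∀ i j, a i ≠ -b j) ∧
    (∀ g : G, ∀ P ∈ ({univ.val.map a, univ.val.map b} : Set (Multiset (G → ℚ))),
      P.map (rho g) = univ.val.map a ∨ P.map (rho g) = univ.val.map (fun i => -a i) ∨
      P.map (rho g) = univ.val.map b ∨ P.map (rho g) = univ.val.map (fun i => -b i)) ∧
    (∃ g : G, (univ.val.map a).map (rho g) = univ.val.map b ∨
      (univ.val.map a).map (rho g) = univ.val.map (fun i => -b i)) ∧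
    M = (four a b).map fun v g => 1 / 2 + v g

end Combinatorics

/-- Numerical cycle classes on the abelian varieties over an algebraic closure of the field with
`p` elements. For every abelian variety `A` a finite Galois CM extension `K` of the rationals is
chosen which is large enough. -/
structure FpTheory extends Pc0b458P.FpTheory.{u} where
  /-- the Galois group of `K` -/
  Gal : AV → Type
  [grp : ∀ A, Group (Gal A)]
  [finGal : ∀ A, Fintype (Gal A)]
  /-- the decomposition group of a place above `p` -/
  dec : ∀ A, Subgroup (Gal A)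
  /-- complex conjugation -/
  conj : ∀ A, Gal A
  /-- for each Frobenius eigenvalue the family of the slopes of its conjugates -/
  sl : ∀ A, Multiset (Gal A → ℚ)
  /-- `K` contains an imaginary quadratic field in which `p` does not split -/
  nonsplit : ∀ A, ∃ H : Subgroup (Gal A), IsNonsplit (dec A) (conj A) H
  /-- Complex multiplication (Tate, Honda, Shimura, Taniyama): `A` is isogenous to `B × B'` with
  `B'` supersingular and `B` without supersingular factor. A CM algebra for `B` is given by `X₀`. For
  every imaginary quadratic subfield in which `p` does not split, it extends to a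
  CM algebra for `A` which acts on `B'` through this imaginary quadratic field. -/
  cmg : ∀ A, ∃ X₀ : CMDatum (Gal A) (dec A) (conj A),
    (∀ x : X₀.S, ∃ g : Gal A, X₀.s (g • x) ≠ 1 / 2) ∧
    ∀ H : Subgroup (Gal A), IsNonsplit (dec A) (conj A) H →
      ∃ L ∈ Pol A, ∃ (d : CMData toNumTheory eff A L) (γ : GalData d (dec A) (conj A))
        (ι : X₀.S → γ.X.S), Function.Injective ι ∧ (∀ (g : Gal A) (x : X₀.S), ι (g • x) = g • ι x) ∧
        (∀ x : X₀.S, γ.X.s (ι x) = X₀.s x) ∧
        (∀ x : γ.X.S, x ∉ Set.range ι →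
          (∀ g : Gal A, γ.X.s (g • x) = 1 / 2) ∧ ∀ h ∈ H, h • x = x) ∧
        γ.X.slopes = sl A ∧
        ∀ H' : Subgroup (Gal A), IsNonsplit (dec A) (conj A) H' →
          ∃ (A' : AV) (L' : Z A') (_ : L' ∈ Pol A') (d' : CMData toNumTheory eff A' L')
            (γ' : GalData d' (dec A) (conj A)), Nonempty (ExtData γ γ' H')

attribute [instance] FpTheory.grp FpTheory.finGal

end Pc0b458S
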