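import Pool.Agent.Lib.Pc0b458S.WtGen
import Pool.Agent.Lib.Pc0b458S.Basic

/-!
# Module Down: from codimension `g - k` to codimension `k`

By hard Lefschetz the given element is `β * P` with `β ∈ rs k` and `P = cl L ^ (g - 2k)`; compare the components of weight
`η` and `-η`.
-/

universe u

open Finset Pc0b458 Pc0b458P

namespace Pc0b458S

namespace DownAux

/-- the pairs and their enumeration -/
def e2 (K : ℕ) : Fin K × Fin 2 ≃ Fin (2 * K) :=
  finProdFinEquiv.trans (finCongr (Nat.mul_comm K 2))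

theorem e2_zero {K : ℕ} (i : Fin K) : (e2 K).symm ⟨2 * i.1, by omega⟩ = (i, 0) := by
  rw [Equiv.symm_apply_eq]
  apply Fin.ext
  simp [e2]

theorem e2_one {K : ℕ} (i : Fin K) : (e2 K).symm ⟨2 * i.1 + 1, by omega⟩ = (i, 1) := by
  rw [Equiv.symm_apply_eq]
  apply Fin.ext
  simp [e2, add_comm]

theorem mo_e2 {Φ : Type} [DecidableEq Φ] {K : ℕ} (g : Fin K × Fin 2 → Φ × Bool) :
    mo (fun j => g ((e2 K).symm j)) = ((∏ i : Fin K, ev (ee (g (i, 0)).1 (g (i, 0)).2 ())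
      (ee (g (i, 1)).1 (g (i, 1)).2 ()) : HC Φ Unit) : HH Φ Unit) := by
  rw [mo_pairs]
  congr 1
  refine Finset.prod_congr rfl fun i _ => ?_
  simp only [e2_zero, e2_one]

theorem wt_e2 {Φ : Type} [DecidableEq Φ] {K : ℕ} (g : Fin K × Fin 2 → Φ × Bool) :
    wt (fun j => g ((e2 K).symm j)) =
      ∑ p, Pi.single (g p).1 (if (g p).2 then (1 : ZMod 3) else -1) := by
  unfold wt
  exact Equiv.sum_comp (e2 K).symm
    (fun p => (Pi.single (g p).1 (if (g p).2 then (1 : ZMod 3) else -1) : Φ → ZMod 3))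

theorem sum_fits {Φ : Type} [DecidableEq Φ] {k : ℕ} {η : Φ → ZMod 3}
    {J : Fin k × Fin 2 → Φ} {b : Fin k × Fin 2 → Bool} (h : Fits η J b) :
    (∑ p, Pi.single (J p) (if b p then (1 : ZMod 3) else -1)) = η := by
  obtain ⟨h1, h2, h3⟩ := h
  funext s
  rw [Finset.sum_apply]
  by_cases hs : ∃ p, J p = s
  · obtain ⟨p, rfl⟩ := hs
    rw [Finset.sum_eq_single p]
    · rw [Pi.single_eq_same, h2]
    · intro q _ hq
      exact Pi.single_eq_of_ne (fun hh => hq (h1 hh.symm)) _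
    · intro hh
      exact absurd (Finset.mem_univ _) hh
  · have h0 : η s = 0 := by
      by_contra hne
      exact hs (h3 s hne)
    rw [h0]
    apply Finset.sum_eq_zero
    intro p _
    exact Pi.single_eq_of_ne (fun hh => hs ⟨p, hh.symm⟩) _

theorem zer_neg {Φ : Type} [Fintype Φ] (η : Φ → ZMod 3) : zer (-η) = zer η := by
  unfold zer
  ext s
  simp

end DownAux

open DownAux

/-- `MM J b` is a monomial of weight `η` -/
theorem MM_mo {Φ : Type} [Fintype Φ] [DecidableEq Φ] {k : ℕ} {η : Φ → ZMod 3}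
    {J : Fin k × Fin 2 → Φ} {b : Fin k × Fin 2 → Bool} (h : Fits η J b) :
    ∃ f : Fin (2 * k) → Φ × Bool, wt f = η ∧ ((MM J b : HC Φ Unit) : HH Φ Unit) = mo f := by
  refine ⟨fun j => (fun p => (J p, b p)) ((e2 k).symm j), ?_, ?_⟩
  · exact (wt_e2 (fun p : Fin k × Fin 2 => (J p, b p))).trans (sum_fits h)
  · exact (mo_e2 (fun p : Fin k × Fin 2 => (J p, b p))).symm

/-- products of `MM J b` and of classes `Dc` have weight `η` -/
theorem MM_prod_span {Φ : Type} [Fintype Φ] [DecidableEq Φ] {k : ℕ} {η : Φ → ZMod 3}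
    {J : Fin k × Fin 2 → Φ} {b : Fin k × Fin 2 → Bool} (h : Fits η J b) (R : Finset Φ) :
    (((∏ t ∈ R, Dc t) * MM J b : HC Φ Unit) : HH Φ Unit) ∈
      Submodule.span ℂ {w | ∃ f : Fin (2 * (k + R.card)) → Φ × Bool, wt f = η ∧ w = mo f} := by
  apply Submodule.subset_span
  obtain ⟨t, ht⟩ : ∃ t : Fin R.card → Φ, t = fun i => (R.equivFin.symm i : Φ) := ⟨_, rfl⟩
  obtain ⟨g, hg⟩ : ∃ g : Fin (k + R.card) × Fin 2 → Φ × Bool,
      g = fun p => Fin.addCases (motive := fun _ => Φ × Bool) (fun i => (J (i, p.2), b (i, p.2)))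
        (fun i => (t i, decide (p.2 = 0))) p.1 := ⟨_, rfl⟩
  have hgl : ∀ (i : Fin k) (e : Fin 2), g (Fin.castAdd R.card i, e) = (J (i, e), b (i, e)) := by
    intro i e
    rw [hg]
    simp only [Fin.addCases_left]
  have hgr : ∀ (i : Fin R.card) (e : Fin 2), g (Fin.natAdd k i, e) = (t i, decide (e = 0)) := by
    intro i e
    rw [hg]
    simp only [Fin.addCases_right]
  refine ⟨fun j => g ((e2 (k + R.card)).symm j), ?_, ?_⟩
  · rw [wt_e2, Fintype.sum_prod_type, Fin.sum_univ_add]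
    have h1 : ∀ i : Fin R.card, (∑ y : Fin 2, Pi.single (g (Fin.natAdd k i, y)).1
        (if (g (Fin.natAdd k i, y)).2 then (1 : ZMod 3) else -1) : Φ → ZMod 3) = 0 := by
      intro i
      rw [Fin.sum_univ_two, hgr, hgr]
      simp only [decide_true, if_true]
      have h2 : decide ((1 : Fin 2) = 0) = false := by decide
      rw [h2, ← Pi.single_add]
      simp
    rw [Finset.sum_eq_zero (fun i _ => h1 i), add_zero]
    simp only [hgl]
    rw [← Fintype.sum_prod_type (fun p : Fin k × Fin 2 =>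
      (Pi.single (J (p.1, p.2)) (if b (p.1, p.2) then (1 : ZMod 3) else -1) : Φ → ZMod 3))]
    exact sum_fits h
  · rw [mo_e2]
    congr 1
    rw [Fin.prod_univ_add]
    simp only [hgl, hgr]
    have h2 : decide ((1 : Fin 2) = 0) = false := by decide
    simp only [h2]
    rw [mul_comm]
    have h4 : (∏ s ∈ R, (Dc s : HC Φ Unit)) = ∏ i : Fin R.card, Dc (t i) := by
      rw [← Finset.prod_coe_sort, ← Equiv.prod_comp R.equivFin.symm, ht]
    rw [h4]
    rfl

variable {T : NumTheory.{u}} {W : EffData T} {A : T.AV} {L : T.Z A} (d : CMData T W A L)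

theorem hl_gen (hL : L ∈ T.Pol A) {k : ℕ} (h2 : 2 * k ≤ T.dim A) {y : HH d.Φ Unit}
    (hy : y ∈ d.rs (T.dim A - k)) :
    ∃ β ∈ d.rs k, y = β * ((d.cl L ^ (T.dim A - 2 * k) : HC d.Φ Unit) : HH d.Φ Unit) := by
  unfold CMData.rs at hy
  induction hy using Submodule.span_induction with
  | mem x h =>
    obtain ⟨y, hy, rfl⟩ := h
    obtain ⟨x, hx, hxy⟩ := (T.hl A L hL k (by omega)).2 y hy
    refine ⟨(d.cl x : HH d.Φ Unit), Submodule.subset_span ⟨x, hx, rfl⟩, ?_⟩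
    change ((d.cl y : HC d.Φ Unit) : HH d.Φ Unit) =
      ((d.cl x * d.cl L ^ (T.dim A - 2 * k) : HC d.Φ Unit) : HH d.Φ Unit)
    rw [← hxy, map_mul, map_pow, mul_comm]
  | zero => exact ⟨0, Submodule.zero_mem _, (zero_mul _).symm⟩
  | add x y _ _ hx hy =>
    obtain ⟨β, h1, h2⟩ := hx
    obtain ⟨β', h1', h2'⟩ := hy
    exact ⟨β + β', Submodule.add_mem _ h1 h1', by rw [add_mul, ← h2, ← h2']⟩
  | smul c x _ hx =>
    obtain ⟨β, h1, h2⟩ := hx
    refine ⟨(c : ℂ) • β, LefTwoAux.smul_rs d c h1, ?_⟩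
    change ((c : ℝ) : ℂ) • x = _
    rw [smul_mul_assoc, ← h2]

/-- the component of weight `η` of a real class of degree `2 k` -/
theorem DownAux.Pr_single {k : ℕ} {η : d.Φ → ZMod 3} {J : Fin k × Fin 2 → d.Φ}
    {b : Fin k × Fin 2 → Bool} (h : Fits η J b) {β : HH d.Φ Unit} (hβ : β ∈ d.rs k) :
    ∃ α : ℂ, Pr η β = ((α • MM J b : HC d.Φ Unit) : HH d.Φ Unit) := by
  have h1 : β ∈ ⋀[ℂ]^(2 * (k + 0)) (HV d.Φ Unit) := rs_pow d hβ
  obtain ⟨a, ha⟩ := wt_gen (m := 0) h (Pr_span η h1)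
  refine ⟨a ∅, ?_⟩
  rw [ha, Finset.powersetCard_zero, Finset.sum_singleton, Finset.prod_empty, one_mul]

/-- comparison of the coefficients at one weight -/
theorem DownAux.coeff {k : ℕ} {η : d.Φ → ZMod 3} {J : Fin k × Fin 2 → d.Φ}
    {b : Fin k × Fin 2 → Bool} (hL : L ∈ T.Pol A) (h : Fits η J b) {a α : ℂ}
    (hc : (a • (MM J b * ∏ s ∈ zer η, Dc s) : HC d.Φ Unit) =
      (α • MM J b) * (∑ s, Dc s) ^ (Fintype.card d.Φ - 2 * k)) :
    a = ((Fintype.card d.Φ - 2 * k).factorial : ℂ) * α := by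
  have htopne := LefTwoAux.topF_ne d hL
  rw [smul_mul_assoc, MM_pow h, smul_smul] at hc
  have h1 := congrArg (fun x => x * MM J (nb b)) hc
  simp only [smul_mul_assoc] at h1
  have h2 : (MM J b * ∏ s ∈ zer η, Dc s : HC d.Φ Unit) * MM J (nb b) =
      ((-1) ^ k * sg b) • topF := by
    rw [← MM_top h]
    ring
  rw [h2, smul_smul, smul_smul] at h1
  have h3 : ((a - ((Fintype.card d.Φ - 2 * k).factorial : ℂ) * α) * ((-1) ^ k * sg b)) •
      (topF : HC d.Φ Unit) = 0 := by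
    rw [sub_mul, sub_smul, h1, sub_eq_zero]
    congr 1
    ring
  rcases smul_eq_zero.1 h3 with h4 | h4
  · rcases mul_eq_zero.1 h4 with h5 | h5
    · exact sub_eq_zero.1 h5
    · exfalso
      have h6 := sg_sq b
      rcases mul_eq_zero.1 h5 with h7 | h7
      · exact pow_ne_zero k (neg_ne_zero.2 one_ne_zero) h7
      · rw [h7, mul_zero] at h6
        exact zero_ne_one h6
  · exact absurd h4 htopne

theorem down (hL : L ∈ T.Pol A) {k : ℕ} (h2 : 2 * k ≤ T.dim A) (hk : k ≠ 0)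
    {η : d.Φ → ZMod 3} {J : Fin k × Fin 2 → d.Φ} {b : Fin k × Fin 2 → Bool} (h : Fits η J b)
    (a a' : ℂ)
    (hw : (((a • MM J b + a' • MM J (nb b)) * ∏ s ∈ zer η, Dc s : HC d.Φ Unit) :
      HH d.Φ Unit) ∈ d.rs (T.dim A - k)) :
    ((a • MM J b + a' • MM J (nb b) : HC d.Φ Unit) : HH d.Φ Unit) ∈ d.rs k := by
  have hcard := d.card_Φ
  have hclL : d.cl L = ∑ s, Dc s := by rw [d.cl_L, Dv_dls_unit]
  have hηne : η ≠ -η := by
    intro hh
    have h0 := congrFun hh (J (⟨0, Nat.pos_of_ne_zero hk⟩, 0))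
    rw [Pi.neg_apply, h.2.1] at h0
    revert h0
    generalize b (⟨0, Nat.pos_of_ne_zero hk⟩, 0) = x
    revert x
    decide
  obtain ⟨β, hβ, hβe⟩ := hl_gen d hL h2 hw
  rw [hclL, ← hcard] at hβe
  obtain ⟨α, hα⟩ := Pr_single d h hβ
  obtain ⟨α', hα'⟩ := Pr_single d h.neg hβ
  have hsp := MM_prod_span h (zer η)
  have hsp' := MM_prod_span h.neg (zer η)
  have hZ : (((a • MM J b + a' • MM J (nb b)) * ∏ s ∈ zer η, Dc s : HC d.Φ Unit) : HH d.Φ Unit) =
      a • (((∏ t ∈ zer η, Dc t) * MM J b : HC d.Φ Unit) : HH d.Φ Unit) +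
      a' • (((∏ t ∈ zer η, Dc t) * MM J (nb b) : HC d.Φ Unit) : HH d.Φ Unit) := by
    have e1 : ((a • MM J b + a' • MM J (nb b)) * ∏ s ∈ zer η, Dc s : HC d.Φ Unit) =
        a • ((∏ t ∈ zer η, Dc t) * MM J b) + a' • ((∏ t ∈ zer η, Dc t) * MM J (nb b)) := by
      rw [add_mul, smul_mul_assoc, smul_mul_assoc, mul_comm (MM J b), mul_comm (MM J (nb b))]
    rw [e1]
    rfl
  have hc1 : (a • (MM J b * ∏ s ∈ zer η, Dc s) : HC d.Φ Unit) =
      (α • MM J b) * (∑ s, Dc s) ^ (Fintype.card d.Φ - 2 * k) := by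
    have e1 := congrArg (Pr η) hβe
    rw [Pr_mul _ _ _ (fun u => LefTwoAux.fix_sum u _), hα, hZ, Pr_add, Pr_smul, Pr_smul,
      LefTwoAux.Pr_of_span η η hsp, LefTwoAux.Pr_of_span η (-η) hsp', if_pos rfl,
      if_neg (Ne.symm hηne), smul_zero, add_zero] at e1
    apply Subtype.ext
    rw [mul_comm (MM J b)]
    exact e1
  have hc2 : (a' • (MM J (nb b) * ∏ s ∈ zer (-η), Dc s) : HC d.Φ Unit) =
      (α' • MM J (nb b)) * (∑ s, Dc s) ^ (Fintype.card d.Φ - 2 * k) := by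
    have e1 := congrArg (Pr (-η)) hβe
    rw [Pr_mul _ _ _ (fun u => LefTwoAux.fix_sum u _), hα', hZ, Pr_add, Pr_smul, Pr_smul,
      LefTwoAux.Pr_of_span (-η) η hsp, LefTwoAux.Pr_of_span (-η) (-η) hsp', if_pos rfl,
      if_neg hηne, smul_zero, zero_add] at e1
    apply Subtype.ext
    rw [zer_neg, mul_comm (MM J (nb b))]
    exact e1
  have ha := coeff d hL h hc1
  have ha' := coeff d hL h.neg hc2
  have hfin : ((a • MM J b + a' • MM J (nb b) : HC d.Φ Unit) : HH d.Φ Unit) =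
      (((Fintype.card d.Φ - 2 * k).factorial : ℝ) : ℂ) • (Pr η β + Pr (-η) β) := by
    rw [hα, hα', ha, ha']
    push_cast
    rw [← smul_smul, ← smul_smul, smul_add]
  rw [hfin]
  exact LefTwoAux.smul_rs d _ (Pr_rs d k η hβ)

end Pc0b458S
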