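import Pool.Agent.Lib.Pc0b458S.Down

/-!
# Module FourSix: dimension six, weights with a support of four elements

`dim A = 6`, `zer η = {s, t}`. By `wt_gen` (`k = 2`, `m = 1`)
`Pr η z = (α • Dc s + β • Dc t) * MM J b` and `Pr (-η) z = (α' • Dc s + β' • Dc t) * MM J (nb b)`. As `cl L * z = 0` one gets
`β = -α`, `β' = -α'`. By `down` and the hypothesis on signs, `α * α' * sg b` is real and nonnegative.
-/

universe u

open Finset Pc0b458 Pc0b458P

namespace Pc0b458S

namespace FourSixAux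

section

variable {Φ : Type} [Fintype Φ] [DecidableEq Φ]

omit [DecidableEq Φ] in
theorem zer_neg (η : Φ → ZMod 3) : zer (-η) = zer η := by
  unfold zer
  ext s
  simp

omit [Fintype Φ] in
theorem sum_pair_zer {s t : Φ} (hst : s ≠ t) (a : Finset Φ → ℂ) (m : HC Φ Unit) :
    (∑ R ∈ powersetCard 1 ({s, t} : Finset Φ), a R • ((∏ t ∈ R, Dc t) * m) : HC Φ Unit) =
      (a {s} • Dc s + a {t} • Dc t) * m := by
  rw [Finset.powersetCard_one, Finset.sum_map, Finset.sum_pair hst]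
  simp only [Function.Embedding.coeFn_mk, Finset.prod_singleton]
  rw [add_mul, smul_mul_assoc, smul_mul_assoc]

theorem rep {η : Φ → ZMod 3} {J : Fin 2 × Fin 2 → Φ} {b : Fin 2 × Fin 2 → Bool}
    (h : Fits η J b) {s t : Φ} (hst : s ≠ t) (hzer : zer η = {s, t}) {z : HH Φ Unit}
    (hz : z ∈ ⋀[ℂ]^(2 * 3) (HV Φ Unit)) :
    ∃ α β : ℂ, Pr η z = (((α • Dc s + β • Dc t) * MM J b : HC Φ Unit) : HH Φ Unit) := by
  obtain ⟨a, ha⟩ := wt_gen (k := 2) (m := 1) h (Pr_span η hz)
  rw [hzer, sum_pair_zer hst] at ha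
  exact ⟨a {s}, a {t}, ha⟩

theorem sum_mul_PP {η : Φ → ZMod 3} {J : Fin 2 × Fin 2 → Φ} {b : Fin 2 × Fin 2 → Bool}
    (h : Fits η J b) :
    ((∑ u, Dc u) * (MM J b * MM J (nb b)) : HC Φ Unit) =
      (∑ u ∈ zer η, Dc u) * (MM J b * MM J (nb b)) := by
  rw [Finset.sum_mul, Finset.sum_mul]
  symm
  apply Finset.sum_subset (subset_univ _)
  intro u _ hu
  have hu' : η u ≠ 0 := by
    intro h0
    exact hu (by simp [zer, h0])
  obtain ⟨p, rfl⟩ := h.2.2 u hu'
  rw [MM_nb, mul_smul_comm, ← Finset.mul_prod_erase univ _ (mem_univ p), ← mul_assoc, Dc_sq,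
    zero_mul, smul_zero]

theorem neg_of_zero {η : Φ → ZMod 3} {J : Fin 2 × Fin 2 → Φ} {b : Fin 2 × Fin 2 → Bool}
    (h : Fits η J b) {s t : Φ} (hst : s ≠ t) (hzer : zer η = {s, t})
    (hne : (topF : HC Φ Unit) ≠ 0) (α β : ℂ)
    (hx : ((α • Dc s + β • Dc t) * MM J b * ∑ u, Dc u : HC Φ Unit) = 0) : β = -α := by
  have h1 : ((α • Dc s + β • Dc t) * (Dc s + Dc t) * (MM J b * MM J (nb b)) : HC Φ Unit) = 0 := by
    have h2 := sum_mul_PP h
    rw [hzer, Finset.sum_pair hst] at h2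
    calc ((α • Dc s + β • Dc t) * (Dc s + Dc t) * (MM J b * MM J (nb b)) : HC Φ Unit)
        = (α • Dc s + β • Dc t) * ((Dc s + Dc t) * (MM J b * MM J (nb b))) := by ring
      _ = (α • Dc s + β • Dc t) * ((∑ u, Dc u) * (MM J b * MM J (nb b))) := by rw [h2]
      _ = ((α • Dc s + β • Dc t) * MM J b * ∑ u, Dc u) * MM J (nb b) := by ring
      _ = 0 := by rw [hx, zero_mul]
  have h3 : ((α • Dc s + β • Dc t) * (Dc s + Dc t) : HC Φ Unit) = (α + β) • (Dc s * Dc t) := by
    have e1 := Dc_sq (Φ := Φ) s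
    have e2 := Dc_sq (Φ := Φ) t
    simp only [add_mul, mul_add, smul_mul_assoc, e1, e2, smul_zero, zero_add, add_zero, add_smul]
    rw [mul_comm (Dc t) (Dc s)]
    exact add_comm _ _
  have h4 := MM_top h
  rw [hzer, Finset.prod_pair hst] at h4
  rw [h3, smul_mul_assoc, mul_comm (Dc s * Dc t), h4, smul_smul] at h1
  have h5 : (α + β) * ((-1) ^ 2 * sg b) = 0 := by
    by_contra hc
    exact hne ((smul_eq_zero.1 h1).resolve_left hc)
  have h6 : sg b ≠ 0 := by
    intro h0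
    have := sg_sq b
    rw [h0, mul_zero] at this
    exact zero_ne_one this
  have h7 : α + β = 0 := by
    rcases mul_eq_zero.1 h5 with h | h
    · exact h
    · exact absurd h (mul_ne_zero (by norm_num) h6)
  exact eq_neg_of_add_eq_zero_right h7

end

end FourSixAux

variable {T : NumTheory.{u}} {W : EffData T} {A : T.AV} {L : T.Z A} (d : CMData T W A L)

open FourSixAux in
theorem four_six (hL : L ∈ T.Pol A) (hg : T.dim A = 6) (h2 : SignOK d 2) (η : d.Φ → ZMod 3)
    (hη : (sup η).card = 4) {z : HH d.Φ Unit} (hz : z ∈ d.rs 3)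
    (hp : ((d.cl L : HC d.Φ Unit) : HH d.Φ Unit) * z = 0) :
    ∃ r : ℝ, 0 ≤ r ∧ - d.tr (Pr η z * Pr (-η) z) = r := by
  classical
  have hne := LefTwoAux.topF_ne d hL
  have hclL : (d.cl L : HC d.Φ Unit) = ∑ s, Dc s := by rw [d.cl_L, Dv_dls_unit]
  have hcard : Fintype.card d.Φ = 6 := by rw [d.card_Φ, hg]
  have hz2 : (zer η).card = 2 := by
    have h1 : (zer η).card + (sup η).card = Fintype.card d.Φ := by
      unfold zer sup
      exact Finset.card_filter_add_card_filter_not (s := (univ : Finset d.Φ)) (fun s => η s = 0)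
    omega
  obtain ⟨s, t, hst, hzer⟩ := Finset.card_eq_two.1 hz2
  obtain ⟨J, b, h⟩ := exists_fits (k := 2) η hη
  have h' : Fits (-η) J (nb b) := h.neg
  have hzer' : zer (-η) = {s, t} := by rw [zer_neg, hzer]
  have hz6 : z ∈ ⋀[ℂ]^(2 * 3) (HV d.Φ Unit) := rs_pow d hz
  obtain ⟨α, β, hα⟩ := rep h hst hzer hz6
  obtain ⟨α', β', hα'⟩ := rep h' hst hzer' hz6
  -- primitivity
  have hz0 : z * ((d.cl L : HC d.Φ Unit) : HH d.Φ Unit) = 0 := by
    rw [rs_comm d hz, hp]
  have hfix : ∀ u, tor (pt u) ((d.cl L : HC d.Φ Unit) : HH d.Φ Unit) =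
      ((d.cl L : HC d.Φ Unit) : HH d.Φ Unit) := by
    intro u
    have h1 := LefTwoAux.fix_sum (Φ := d.Φ) u 1
    rw [pow_one] at h1
    rw [hclL]
    exact h1
  have hkill : ∀ η' : d.Φ → ZMod 3, Pr η' z * ((d.cl L : HC d.Φ Unit) : HH d.Φ Unit) = 0 := by
    intro η'
    rw [← Pr_mul η' z _ hfix, hz0, FouAux.Pr_zero]
  have hβ : β = -α := by
    apply neg_of_zero h hst hzer hne
    apply Subtype.ext
    have h1 := hkill η
    rw [hα, hclL] at h1
    exact h1
  have hβ' : β' = -α' := by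
    apply neg_of_zero h' hst hzer' hne
    apply Subtype.ext
    have h1 := hkill (-η)
    rw [hα', hclL] at h1
    exact h1
  -- the sign
  have hrs : (Pr η z + Pr (-η) z) * Ds t ∈ d.rs (3 + 1) := rs_mul d (Pr_rs d 3 η hz) (Ds_rs d hL t)
  have hdown : ((α • MM J b + α' • MM J (nb b) : HC d.Φ Unit) : HH d.Φ Unit) ∈ d.rs 2 := by
    apply down d hL (by omega) (by norm_num) h
    rw [hg]
    have e : (((α • MM J b + α' • MM J (nb b)) * ∏ s ∈ zer η, Dc s : HC d.Φ Unit) :
        HH d.Φ Unit) = (Pr η z + Pr (-η) z) * Ds t := by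
      rw [hα, hα', hzer, Finset.prod_pair hst]
      have e1 : ((α • MM J b + α' • MM J (nb b)) * (Dc s * Dc t) : HC d.Φ Unit) =
          ((α • Dc s + β • Dc t) * MM J b + (α' • Dc s + β' • Dc t) * MM J (nb b)) * Dc t := by
        have e2 := Dc_sq (Φ := d.Φ) t
        have e3 : ∀ (c : ℂ) (m : HC d.Φ Unit), c • Dc t * m * Dc t = 0 := by
          intro c m
          rw [smul_mul_assoc, smul_mul_assoc, mul_right_comm, e2, zero_mul, smul_zero]
        rw [add_mul, add_mul, add_mul, add_mul, add_mul, add_mul, e3, e3, add_zero, add_zero]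
        simp only [smul_mul_assoc]
        congr 2 <;> ring
      rw [e1]
      rfl
    rw [e]
    exact hrs
  obtain ⟨y, hy, hyc⟩ := h2 J b h.1 α α' hdown
  obtain ⟨κ, hκ, hκt⟩ := kap_one d hL
  refine ⟨2 * y * κ, by positivity, ?_⟩
  have hprod : Pr η z * Pr (-η) z =
      (-(2 * (α * α' * sg b)) : ℂ) • ((topF : HC d.Φ Unit) : HH d.Φ Unit) := by
    have h4 := MM_top h
    rw [hzer, Finset.prod_pair hst] at h4
    have e1 : ((α • Dc s + β • Dc t) * MM J b * ((α' • Dc s + β' • Dc t) * MM J (nb b)) :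
        HC d.Φ Unit) = (-(2 * (α * α' * sg b)) : ℂ) • topF := by
      have e2 := Dc_sq (Φ := d.Φ) s
      have e3 := Dc_sq (Φ := d.Φ) t
      have e4 : ((α • Dc s + β • Dc t) * (α' • Dc s + β' • Dc t) : HC d.Φ Unit) =
          (-(2 * (α * α')) : ℂ) • (Dc s * Dc t) := by
        rw [hβ, hβ']
        simp only [add_mul, mul_add, smul_mul_assoc, mul_smul_comm, e2, e3, smul_zero, zero_add,
          add_zero, smul_smul]
        rw [mul_comm (Dc t) (Dc s), ← add_smul]
        congr 1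
        ring
      calc ((α • Dc s + β • Dc t) * MM J b * ((α' • Dc s + β' • Dc t) * MM J (nb b)) :
            HC d.Φ Unit)
          = ((α • Dc s + β • Dc t) * (α' • Dc s + β' • Dc t)) * (MM J b * MM J (nb b)) := by ring
        _ = (-(2 * (α * α')) : ℂ) • (MM J b * MM J (nb b) * (Dc s * Dc t)) := by
            rw [e4, smul_mul_assoc, mul_comm (Dc s * Dc t)]
        _ = _ := by
            rw [h4, smul_smul]
            congr 1
            ring
    rw [hα, hα']
    change (((α • Dc s + β • Dc t) * MM J b * ((α' • Dc s + β' • Dc t) * MM J (nb b)) :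
        HC d.Φ Unit) : HH d.Φ Unit) = _
    rw [e1]
    rfl
  rw [hprod, map_smul, hκt, hyc, smul_eq_mul]
  push_cast
  ring

end Pc0b458S
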