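import Pool.Agent.Lib.Pc0b458S.Down

/-!
# Module Half: dimension seven, a weight of six elements and a weight of four elements
-/

universe u

open Finset Pc0b458 Pc0b458P

namespace Pc0b458S

theorem fits_exists {Φ : Type} [DecidableEq Φ] {k : ℕ} (J : Fin k × Fin 2 → Φ)
    (b : Fin k × Fin 2 → Bool) (hJ : Function.Injective J) : ∃ η : Φ → ZMod 3, Fits η J b := by
  classical
  refine ⟨fun s => if ∃ p, J p = s ∧ b p = true then 1 else if ∃ p, J p = s then -1 else 0,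
    hJ, fun p => ?_, fun s hs => ?_⟩
  · by_cases h : b p = true
    · have h1 : ∃ q, J q = J p ∧ b q = true := ⟨p, rfl, h⟩
      simp only [if_pos h1, if_pos h]
    · have h1 : ¬ ∃ q, J q = J p ∧ b q = true := by
        rintro ⟨q, hq, hbq⟩
        rw [hJ hq] at hbq
        exact h hbq
      have h2 : ∃ q, J q = J p := ⟨p, rfl⟩
      simp only [if_neg h1, if_pos h2, if_neg h]
  · by_contra hcon
    apply hs
    have h1 : ¬ ∃ p, J p = s ∧ b p = true := fun ⟨p, hp, _⟩ => hcon ⟨p, hp⟩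
    simp only [if_neg h1, if_neg hcon]

namespace HalfAux

/-- the sign -/
noncomputable def sn (b : Bool) : ℂ := if b then 1 else -1

theorem sn_not (b : Bool) : sn (!b) = -sn b := by
  cases b <;> simp [sn]

theorem sn_sq (b : Bool) : sn b * sn b = 1 := by
  cases b <;> simp [sn]

theorem sn_ne (b : Bool) : sn b ≠ 0 := by
  cases b <;> simp [sn]

theorem sn_pm (b : Bool) : sn b = 1 ∨ sn b = -1 := by
  cases b <;> simp [sn]

variable {Φ : Type} [DecidableEq Φ]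

/-- the embedding of the scalars -/
noncomputable def C : ℂ →+* HC Φ Unit := algebraMap ℂ (HC Φ Unit)

omit [DecidableEq Φ] in
theorem smul_C (r : ℂ) (x : HC Φ Unit) : r • x = C r * x := Algebra.smul_def r x

theorem bool_C [Fintype Φ] (s : Φ) (b : Bool) :
    (ev (ee s b ()) (ee s (!b) ()) : HC Φ Unit) = C (sn b) * Dc s := by
  rw [DegAux.ev_bool, smul_C]
  rfl

/-- the product of `u v` and `v' w` -/
theorem mid [Fintype Φ] (s : Φ) (b : Bool) (u w : HV Φ Unit) :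
    (ev u (ee s b ()) * ev (ee s (!b) ()) w : HC Φ Unit) = C (sn b) * Dc s * ev u w := by
  have h1 : (ev u (ee s b ()) * ev (ee s (!b) ()) w : HC Φ Unit) =
      -(ev (ee s b ()) u) * ev (ee s (!b) ()) w := by rw [DegAux.ev_swap u (ee s b ())]
  have h2 : (-(ev (ee s b ()) u) * ev (ee s (!b) ()) w : HC Φ Unit) =
      -(ev (ee s b ()) u * ev (ee s (!b) ()) w) := neg_mul _ _
  have h3 : (ev u (ee s b ()) * ev (ee s (!b) ()) w : HC Φ Unit) =
      -(-(ev (ee s b ()) (ee s (!b) ()) * ev u w)) := by rw [h1, h2, DegAux.ev_cross]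
  refine h3.trans ((neg_neg _).trans ?_)
  rw [bool_C]

theorem cross [Fintype Φ] (s t : Φ) (b b' : Bool) :
    (ev (ee s b ()) (ee t b' ()) * ev (ee s (!b) ()) (ee t (!b') ()) : HC Φ Unit) =
      -(C (sn b) * Dc s * (C (sn b') * Dc t)) := by
  rw [DegAux.ev_cross, bool_C, bool_C]

theorem alg {R : Type*} [CommRing R] {c c' a a' s0 s1 s2 P1 P1' P2 P2' P3 P3' S S' E E' D0 D1 D2 : R}
    (f1 : P3 * P3 = 0) (f1' : P3' * P3' = 0) (f2 : P2 * S' = s0 * D0 * E)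
    (f2' : P2' * S = -s0 * D0 * E') (f3 : P3 * P3' = -(s1 * D1 * (s2 * D2))) :
    (c * (P1 * P2 * P3) + c' * (P1' * P2' * P3')) * (a * (S * P3) + a' * (S' * P3')) =
      -(s0 * s1 * s2) * ((c * a' * (P1 * E) + -(c' * a) * (P1' * E')) * (D0 * D1 * D2)) := by
  linear_combination (c * a * P1 * P2 * S) * f1 + (c' * a' * P1' * P2' * S') * f1' +
    (c * a' * P1 * P3 * P3') * f2 + (c' * a * P1' * P3 * P3') * f2' +
    (c * a' * P1 * (s0 * D0 * E) - c' * a * P1' * (s0 * D0 * E')) * f3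

/-- the product of the two classes -/
theorem prod_classes [Fintype Φ] (i0 i1 i2 k0 k1 k2 x : Φ) (b0 b1 b2 c0 c1 c2 bx : Bool)
    (c c' a a' : ℂ) :
    ((c • (ev (ee i0 b0 ()) (ee i1 b1 ()) * ev (ee i2 b2 ()) (ee k0 c0 ()) *
        ev (ee k1 c1 ()) (ee k2 c2 ())) +
      c' • (ev (ee i0 (!b0) ()) (ee i1 (!b1) ()) * ev (ee i2 (!b2) ()) (ee k0 (!c0) ()) *
        ev (ee k1 (!c1) ()) (ee k2 (!c2) ()))) *
      (a • (ev (ee k0 c0 ()) (ee x bx ()) * ev (ee k1 c1 ()) (ee k2 c2 ())) +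
      a' • (ev (ee k0 (!c0) ()) (ee x (!bx) ()) * ev (ee k1 (!c1) ()) (ee k2 (!c2) ()))) :
        HC Φ Unit) =
    (-(sn c0 * sn c1 * sn c2)) •
      (((c * a') • (ev (ee i0 b0 ()) (ee i1 b1 ()) * ev (ee i2 b2 ()) (ee x (!bx) ())) +
        (-(c' * a)) • (ev (ee i0 (!b0) ()) (ee i1 (!b1) ()) * ev (ee i2 (!b2) ()) (ee x bx ()))) *
        (Dc k0 * Dc k1 * Dc k2)) := by
  have f1 := DegAux.ev_sq (ee k1 c1 () : HV Φ Unit) (ee k2 c2 ())
  have f1' := DegAux.ev_sq (ee k1 (!c1) () : HV Φ Unit) (ee k2 (!c2) ())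
  have f2 := mid k0 c0 (ee i2 b2 ()) (ee x (!bx) ())
  have f2' := mid k0 (!c0) (ee i2 (!b2) ()) (ee x bx ())
  rw [Bool.not_not, sn_not] at f2'
  have f3 := cross k1 k2 c1 c2
  simp only [smul_C, map_mul, map_neg] at f2' ⊢
  exact alg f1 f1' f2 f2' f3

end HalfAux

open HalfAux in
variable {T : NumTheory.{u}} {W : EffData T} {A : T.AV} {L : T.Z A} (d : CMData T W A L) in
theorem half (hL : L ∈ T.Pol A) (hg : T.dim A = 7) (h2 : SignOK d 2)
    (J : Fin 3 × Fin 2 → d.Φ) (b : Fin 3 × Fin 2 → Bool) (hJ : Function.Injective J)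
    (x : d.Φ) (bx : Bool) (hx : ∀ p, J p ≠ x) (c c' : ℂ)
    (h : ((c • MM J b + c' • MM J (nb b) : HC d.Φ Unit) : HH d.Φ Unit) ∈ d.rs 3)
    (a a' : ℂ) (ha : a ≠ 0) (ha' : a' ≠ 0)
    (hv : ((a • (ev (ee (J (1, 1)) (b (1, 1)) ()) (ee x bx ()) *
        ev (ee (J (2, 0)) (b (2, 0)) ()) (ee (J (2, 1)) (b (2, 1)) ())) +
      a' • (ev (ee (J (1, 1)) (!b (1, 1)) ()) (ee x (!bx) ()) *
        ev (ee (J (2, 0)) (!b (2, 0)) ()) (ee (J (2, 1)) (!b (2, 1)) ())) : HC d.Φ Unit) :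
        HH d.Φ Unit) ∈ d.rs 2) :
    ∃ y : ℝ, 0 ≤ y ∧ c * c' * sg b = (y : ℂ) := by
  have hne : ∀ p q : Fin 3 × Fin 2, p ≠ q → J p ≠ J q := fun p q hpq h => hpq (hJ h)
  -- the weight `Q`
  obtain ⟨Q, hQ⟩ : ∃ Q : Fin 2 × Fin 2 → d.Φ, Q = fun p =>
    ![![J (0, 0), J (0, 1)], ![J (1, 0), x]] p.1 p.2 := ⟨_, rfl⟩
  obtain ⟨q, hq⟩ : ∃ q : Fin 2 × Fin 2 → Bool, q = fun p =>
    ![![b (0, 0), b (0, 1)], ![b (1, 0), !bx]] p.1 p.2 := ⟨_, rfl⟩
  have n1 := hne (0, 0) (0, 1) (by decide)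
  have n2 := hne (0, 0) (1, 0) (by decide)
  have n3 := hne (0, 1) (1, 0) (by decide)
  have n4 := hx (0, 0)
  have n5 := hx (0, 1)
  have n6 := hx (1, 0)
  have hQi : Function.Injective Q := by
    rw [hQ]
    rintro ⟨i, j⟩ ⟨i', j'⟩ h
    fin_cases i <;> fin_cases j <;> fin_cases i' <;> fin_cases j' <;>
      simp_all [Ne.symm n1, Ne.symm n2, Ne.symm n3, Ne.symm n4, Ne.symm n5, Ne.symm n6]
  obtain ⟨η, hη⟩ := fits_exists Q q hQi
  -- the complement
  have m1 := hne (1, 1) (2, 0) (by decide)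
  have m2 := hne (1, 1) (2, 1) (by decide)
  have m3 := hne (2, 0) (2, 1) (by decide)
  have hzer : zer η = {J (1, 1), J (2, 0), J (2, 1)} := by
    symm
    apply Finset.eq_of_subset_of_card_le
    · intro s hs
      rw [zer, Finset.mem_filter]
      refine ⟨mem_univ _, ?_⟩
      by_contra h0
      obtain ⟨p, hp⟩ := hη.2.2 s h0
      have hs' : ∃ r : Fin 3 × Fin 2, (r = (1, 1) ∨ r = (2, 0) ∨ r = (2, 1)) ∧ J r = s := by
        simp only [Finset.mem_insert, Finset.mem_singleton] at hs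
        rcases hs with h | h | h
        · exact ⟨_, Or.inl rfl, h.symm⟩
        · exact ⟨_, Or.inr (Or.inl rfl), h.symm⟩
        · exact ⟨_, Or.inr (Or.inr rfl), h.symm⟩
      obtain ⟨r, hr, hrs⟩ := hs'
      rw [← hrs, hQ] at hp
      obtain ⟨i, j⟩ := p
      fin_cases i <;> fin_cases j
      · have h := hJ (show J (0, 0) = J r from hp)
        rw [← h] at hr
        revert hr
        decide
      · have h := hJ (show J (0, 1) = J r from hp)
        rw [← h] at hr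
        revert hr
        decide
      · have h := hJ (show J (1, 0) = J r from hp)
        rw [← h] at hr
        revert hr
        decide
      · exact hx r (show x = J r from hp).symm
    · rw [BasicAux.card_zer hη, d.card_Φ, hg, Finset.card_insert_of_notMem,
        Finset.card_insert_of_notMem, Finset.card_singleton]
      · simpa using m3
      · simp only [Finset.mem_insert, Finset.mem_singleton, not_or]
        exact ⟨m1, m2⟩
  have hprodD : (∏ s ∈ zer η, Dc s : HC d.Φ Unit) =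
      Dc (J (1, 1)) * Dc (J (2, 0)) * Dc (J (2, 1)) := by
    rw [hzer, Finset.prod_insert, Finset.prod_insert, Finset.prod_singleton, mul_assoc]
    · simpa using m3
    · simp only [Finset.mem_insert, Finset.mem_singleton, not_or]
      exact ⟨m1, m2⟩
  have hMMJ : (MM J b : HC d.Φ Unit) = ev (ee (J (0, 0)) (b (0, 0)) ()) (ee (J (0, 1)) (b (0, 1)) ()) *
      ev (ee (J (1, 0)) (b (1, 0)) ()) (ee (J (1, 1)) (b (1, 1)) ()) *
      ev (ee (J (2, 0)) (b (2, 0)) ()) (ee (J (2, 1)) (b (2, 1)) ()) := by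
    unfold MM
    rw [Fin.prod_univ_three]
  have hMMJ' : (MM J (nb b) : HC d.Φ Unit) =
      ev (ee (J (0, 0)) (!b (0, 0)) ()) (ee (J (0, 1)) (!b (0, 1)) ()) *
      ev (ee (J (1, 0)) (!b (1, 0)) ()) (ee (J (1, 1)) (!b (1, 1)) ()) *
      ev (ee (J (2, 0)) (!b (2, 0)) ()) (ee (J (2, 1)) (!b (2, 1)) ()) := by
    unfold MM
    rw [Fin.prod_univ_three]
    rfl
  have hMMQ : (MM Q q : HC d.Φ Unit) = ev (ee (J (0, 0)) (b (0, 0)) ()) (ee (J (0, 1)) (b (0, 1)) ()) *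
      ev (ee (J (1, 0)) (b (1, 0)) ()) (ee x (!bx) ()) := by
    unfold MM
    rw [Fin.prod_univ_two, hQ, hq]
    rfl
  have hMMQ' : (MM Q (nb q) : HC d.Φ Unit) =
      ev (ee (J (0, 0)) (!b (0, 0)) ()) (ee (J (0, 1)) (!b (0, 1)) ()) *
      ev (ee (J (1, 0)) (!b (1, 0)) ()) (ee x bx ()) := by
    unfold MM
    rw [Fin.prod_univ_two, hQ, hq]
    have hbb : (!(!bx)) = bx := Bool.not_not bx
    show ev (ee (J (0, 0)) (!b (0, 0)) ()) (ee (J (0, 1)) (!b (0, 1)) ()) *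
      ev (ee (J (1, 0)) (!b (1, 0)) ()) (ee x (!(!bx)) ()) = _
    rw [hbb]
  -- the product
  have hprod := rs_mul d h hv
  have hcoe : ((c • MM J b + c' • MM J (nb b) : HC d.Φ Unit) : HH d.Φ Unit) *
      ((a • (ev (ee (J (1, 1)) (b (1, 1)) ()) (ee x bx ()) *
        ev (ee (J (2, 0)) (b (2, 0)) ()) (ee (J (2, 1)) (b (2, 1)) ())) +
      a' • (ev (ee (J (1, 1)) (!b (1, 1)) ()) (ee x (!bx) ()) *
        ev (ee (J (2, 0)) (!b (2, 0)) ()) (ee (J (2, 1)) (!b (2, 1)) ())) : HC d.Φ Unit) :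
        HH d.Φ Unit) =
      ((-(sn (b (1, 1)) * sn (b (2, 0)) * sn (b (2, 1)))) •
        ((((c * a') • MM Q q + (-(c' * a)) • MM Q (nb q)) * ∏ s ∈ zer η, Dc s : HC d.Φ Unit) :
          HH d.Φ Unit)) := by
    have h1 := prod_classes (J (0, 0)) (J (0, 1)) (J (1, 0)) (J (1, 1)) (J (2, 0)) (J (2, 1)) x
      (b (0, 0)) (b (0, 1)) (b (1, 0)) (b (1, 1)) (b (2, 0)) (b (2, 1)) bx c c' a a'
    rw [← hMMJ, ← hMMJ', ← hMMQ, ← hMMQ', ← hprodD] at h1
    exact congrArg (fun z : HC d.Φ Unit => (z : HH d.Φ Unit)) h1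
  rw [hcoe] at hprod
  have hW : (((c * a') • MM Q q + (-(c' * a)) • MM Q (nb q)) * ∏ s ∈ zer η, Dc s : HC d.Φ Unit) ∈
      {z : HC d.Φ Unit | (z : HH d.Φ Unit) ∈ d.rs (T.dim A - 2)} := by
    show ((((c * a') • MM Q q + (-(c' * a)) • MM Q (nb q)) * ∏ s ∈ zer η, Dc s : HC d.Φ Unit) :
      HH d.Φ Unit) ∈ d.rs (T.dim A - 2)
    have hs : -(sn (b (1, 1)) * sn (b (2, 0)) * sn (b (2, 1))) = 1 ∨
        -(sn (b (1, 1)) * sn (b (2, 0)) * sn (b (2, 1))) = -1 := by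
      rcases sn_pm (b (1, 1)) with e1 | e1 <;> rcases sn_pm (b (2, 0)) with e2 | e2 <;>
        rcases sn_pm (b (2, 1)) with e3 | e3 <;> rw [e1, e2, e3] <;> norm_num
    rw [hg]
    rcases hs with hs | hs
    · rw [hs, one_smul] at hprod
      exact hprod
    · rw [hs, neg_one_smul] at hprod
      have h3 := Submodule.neg_mem _ hprod
      rw [neg_neg] at h3
      exact h3
  have hdown := down d hL (k := 2) (by rw [hg]; norm_num) (by norm_num) hη (c * a') (-(c' * a)) hW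
  obtain ⟨y₁, hy₁, e₁⟩ := h2 Q q hQi _ _ hdown
  -- the second weight
  obtain ⟨R, hR⟩ : ∃ R : Fin 2 × Fin 2 → d.Φ, R = fun p =>
    ![![J (1, 1), x], ![J (2, 0), J (2, 1)]] p.1 p.2 := ⟨_, rfl⟩
  obtain ⟨r, hr⟩ : ∃ r : Fin 2 × Fin 2 → Bool, r = fun p =>
    ![![b (1, 1), bx], ![b (2, 0), b (2, 1)]] p.1 p.2 := ⟨_, rfl⟩
  have n7 := hx (1, 1)
  have n8 := hx (2, 0)
  have n9 := hx (2, 1)
  have hRi : Function.Injective R := by
    rw [hR]
    rintro ⟨i, j⟩ ⟨i', j'⟩ h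
    fin_cases i <;> fin_cases j <;> fin_cases i' <;> fin_cases j' <;>
      simp_all [Ne.symm m1, Ne.symm m2, Ne.symm m3, Ne.symm n7, Ne.symm n8, Ne.symm n9]
  have hMMR : (MM R r : HC d.Φ Unit) = ev (ee (J (1, 1)) (b (1, 1)) ()) (ee x bx ()) *
        ev (ee (J (2, 0)) (b (2, 0)) ()) (ee (J (2, 1)) (b (2, 1)) ()) := by
    unfold MM
    rw [Fin.prod_univ_two, hR, hr]
    rfl
  have hMMR' : (MM R (nb r) : HC d.Φ Unit) = ev (ee (J (1, 1)) (!b (1, 1)) ()) (ee x (!bx) ()) *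
        ev (ee (J (2, 0)) (!b (2, 0)) ()) (ee (J (2, 1)) (!b (2, 1)) ()) := by
    unfold MM
    rw [Fin.prod_univ_two, hR, hr]
    rfl
  rw [← hMMR, ← hMMR'] at hv
  obtain ⟨y₂, hy₂, e₂⟩ := h2 R r hRi _ _ hv
  -- the signs
  have s1 : sg q = sn (b (0, 0)) * sn (b (0, 1)) * (sn (b (1, 0)) * sn (!bx)) := by
    unfold sg
    rw [Fintype.prod_prod_type, Fin.prod_univ_two, Fin.prod_univ_two, Fin.prod_univ_two, hq]
    rfl
  have s2 : sg r = sn (b (1, 1)) * sn bx * (sn (b (2, 0)) * sn (b (2, 1))) := by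
    unfold sg
    rw [Fintype.prod_prod_type, Fin.prod_univ_two, Fin.prod_univ_two, Fin.prod_univ_two, hr]
    rfl
  have s3 : sg b = sn (b (0, 0)) * sn (b (0, 1)) * (sn (b (1, 0)) * sn (b (1, 1))) *
      (sn (b (2, 0)) * sn (b (2, 1))) := by
    unfold sg
    rw [Fintype.prod_prod_type, Fin.prod_univ_three, Fin.prod_univ_two, Fin.prod_univ_two,
      Fin.prod_univ_two]
    rfl
  rw [s1, sn_not] at e₁
  rw [s2] at e₂
  have hy₂0 : (y₂ : ℂ) ≠ 0 := by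
    rw [← e₂]
    exact mul_ne_zero (mul_ne_zero ha ha') (mul_ne_zero (mul_ne_zero (sn_ne _) (sn_ne _))
      (mul_ne_zero (sn_ne _) (sn_ne _)))
  have hkey : c * c' * sg b * (y₂ : ℂ) = (y₁ : ℂ) := by
    rw [← e₁, ← e₂, s3]
    have q1 := sn_sq (b (1, 1))
    have q2 := sn_sq (b (2, 0))
    have q3 := sn_sq (b (2, 1))
    linear_combination (c * c' * a * a' * sn (b (0, 0)) * sn (b (0, 1)) * sn (b (1, 0)) * sn bx *
        (sn (b (2, 0)) * sn (b (2, 0))) * (sn (b (2, 1)) * sn (b (2, 1)))) * q1 +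
      (c * c' * a * a' * sn (b (0, 0)) * sn (b (0, 1)) * sn (b (1, 0)) * sn bx *
        (sn (b (2, 1)) * sn (b (2, 1)))) * q2 +
      (c * c' * a * a' * sn (b (0, 0)) * sn (b (0, 1)) * sn (b (1, 0)) * sn bx) * q3
  refine ⟨y₁ / y₂, div_nonneg hy₁ hy₂, ?_⟩
  push_cast
  rw [eq_div_iff hy₂0]
  exact hkey

end Pc0b458S
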