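import Pool.Agent.Lib.Pc0b458S.Down

/-!
# Module LefOne: weights with a support of two elements (about 1.2h)

Let `Fits η J b`, `J : Fin 1 × Fin 2 → Φ` (`exists_fits`), `z ∈ rs n`, `1 ≤ n`, `2 n ≤ g`. By `wt_gen` (with `k = 1`, `m = n - 1`;
write `n = 1 + m`) `Pr η z = ∑_R a R • (∏_{R} Dc) * MM J b`, `Pr (-η) z = ∑_R a' R • (∏_R Dc) * MM J (nb b)`, over the subsets `R` of
`zer η` with `m` elements. Fix `R` and multiply `Pr η z + Pr (-η) z ∈ rs n` (`Pr_rs`) by `∏_{t ∈ zer η \ R} Dc t ∈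
rs (g - 2 - m)` (`LefTwoAux.prod_rs`, `rs_mul`): as `Dc t * Dc t = 0`, only the term of `R` survives (`R' ≠ R` with as
many elements contains an element of `zer η \ R`), so `(a R • MM J b + a' R • MM J (nb b)) * ∏_{zer η} Dc ∈ rs (g - 1)`, and
`a R • MM J b + a' R • MM J (nb b) ∈ rs 1` by `down` (`k = 1`). Hence `(∏_R Dc) * (...)` is a product of `n` elements of `rs 1`,
which is in `rl n` (`prod_rl` below, by induction with the argument of `mul_rl`: `rs 1` is spanned by the classes of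
divisors). Sum over `R` (`Submodule.sum_mem`).

`prod_rl`: `Lef T A n * Lef T A 1 ⊆ Lef T A (n + 1)` (`Fin.snoc` or `Fin.cons`, `Fin.prod_univ_succ`), see also
`Pc0b458.NumTheory.lef_mul` in `Pc0b458/Reduce2.lean`.
-/

universe u

open Finset Pc0b458 Pc0b458P

namespace Pc0b458S

variable {T : NumTheory.{u}} {W : EffData T} {A : T.AV} {L : T.Z A} (d : CMData T W A L)

theorem rl_mul {n : ℕ} {z w : HH d.Φ Unit} (hz : z ∈ d.rl n) (hw : w ∈ d.rs 1) :
    z * w ∈ d.rl (n + 1) := by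
  unfold CMData.rl at hz
  induction hz using Submodule.span_induction with
  | mem z h =>
    obtain ⟨x, hx, rfl⟩ := h
    unfold CMData.rs at hw
    induction hw using Submodule.span_induction with
    | mem w h =>
      obtain ⟨y, hy, rfl⟩ := h
      apply Submodule.subset_span
      refine ⟨x * y, ?_, ?_⟩
      · have h1 := T.lef_mul A hy n hx
        rw [mul_comm] at h1
        exact h1
      · change ((d.cl (x * y) : HC d.Φ Unit) : HH d.Φ Unit) =
          ((d.cl x * d.cl y : HC d.Φ Unit) : HH d.Φ Unit)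
        rw [map_mul]
    | zero => rw [mul_zero]; exact Submodule.zero_mem _
    | add a b _ _ ha hb => rw [mul_add]; exact Submodule.add_mem _ ha hb
    | smul c a _ ha => rw [mul_smul_comm]; exact Submodule.smul_mem _ _ ha
  | zero => rw [zero_mul]; exact Submodule.zero_mem _
  | add a b _ _ ha hb => rw [add_mul]; exact Submodule.add_mem _ ha hb
  | smul c a _ ha => rw [smul_mul_assoc]; exact Submodule.smul_mem _ _ ha

theorem rs_one_le : d.rs 1 ≤ d.rl 1 := by
  unfold CMData.rs CMData.rl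
  apply Submodule.span_mono
  rintro _ ⟨x, hx, rfl⟩
  refine ⟨x, ?_, rfl⟩
  apply Submodule.subset_span
  refine ⟨fun _ => x, fun _ => hx, ?_⟩
  simp

theorem one_rl : (1 : HH d.Φ Unit) ∈ d.rl 0 := by
  apply Submodule.subset_span
  refine ⟨1, ?_, ?_⟩
  · apply Submodule.subset_span
    exact ⟨Fin.elim0, fun i => i.elim0, by simp⟩
  · change ((d.cl 1 : HC d.Φ Unit) : HH d.Φ Unit) = _
    rw [map_one]
    rfl

/-- products of classes `Dc s` -/
theorem prod_Dc_rl (hL : L ∈ T.Pol A) (R : Finset d.Φ) :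
    ((∏ t ∈ R, Dc t : HC d.Φ Unit) : HH d.Φ Unit) ∈ d.rl R.card := by
  induction R using Finset.induction_on with
  | empty =>
    rw [Finset.prod_empty, Finset.card_empty]
    exact one_rl d
  | insert a s ha ih =>
    rw [Finset.prod_insert ha, Finset.card_insert_of_notMem ha, mul_comm]
    exact rl_mul d ih (Ds_rs d hL a)

namespace LefOneAux

section

variable {Φ : Type} [Fintype Φ] [DecidableEq Φ]

omit [DecidableEq Φ] in
theorem zer_neg (η : Φ → ZMod 3) : zer (-η) = zer η := by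
  unfold zer
  ext s
  simp only [Finset.mem_filter, Finset.mem_univ, true_and, Pi.neg_apply, neg_eq_zero]

omit [DecidableEq Φ] in
theorem card_zer (η : Φ → ZMod 3) : (sup η).card + (zer η).card = Fintype.card Φ := by
  unfold sup zer
  rw [← Finset.card_univ, add_comm]
  exact Finset.card_filter_add_card_filter_not (s := (univ : Finset Φ)) (fun s => η s = 0)

theorem pick {m : ℕ} {Z R : Finset Φ} (hR : R ∈ powersetCard m Z) (c : Finset Φ → ℂ)
    (ν : HC Φ Unit) :
    (∑ R' ∈ powersetCard m Z, c R' • ((∏ t ∈ R', Dc t) * ν) : HC Φ Unit) *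
      ∏ t ∈ Z \ R, Dc t = c R • (ν * ∏ t ∈ Z, Dc t) := by
  rw [Finset.mem_powersetCard] at hR
  rw [Finset.sum_mul, Finset.sum_eq_single_of_mem R (Finset.mem_powersetCard.2 hR)]
  · rw [smul_mul_assoc, ← Finset.prod_sdiff hR.1]
    congr 1
    ring
  · intro R' hR' hne
    rw [Finset.mem_powersetCard] at hR'
    obtain ⟨t, ht, htR⟩ : ∃ t ∈ R', t ∉ R := by
      by_contra hcon
      push Not at hcon
      exact hne (Finset.eq_of_subset_of_card_le hcon (by rw [hR.2, hR'.2]))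
    have h1 : (Dc t : HC Φ Unit) * ∏ r ∈ Z \ R, Dc r = 0 :=
      LefTwoAux.Dc_prod_zero (Finset.mem_sdiff.2 ⟨hR'.1 ht, htR⟩)
    rw [← Finset.mul_prod_erase R' _ ht, smul_mul_assoc]
    have h2 : (Dc t * ∏ x ∈ R'.erase t, Dc x) * ν * ∏ r ∈ Z \ R, Dc r =
        (∏ x ∈ R'.erase t, Dc x) * ν * ((Dc t : HC Φ Unit) * ∏ r ∈ Z \ R, Dc r) := by ring
    rw [h2, h1, mul_zero, smul_zero]

end

end LefOneAux

open LefOneAux

theorem lef_one (hL : L ∈ T.Pol A) {n : ℕ} (h0 : n ≠ 0) (hn : 2 * n ≤ T.dim A)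
    (η : d.Φ → ZMod 3) (hη : (sup η).card = 2) {z : HH d.Φ Unit} (hz : z ∈ d.rs n) :
    Pr η z + Pr (-η) z ∈ d.rl n := by
  obtain ⟨m, rfl⟩ : ∃ m, n = 1 + m := ⟨n - 1, by omega⟩
  obtain ⟨J, b, h⟩ := exists_fits (k := 1) η (by rw [hη])
  obtain ⟨a, ha⟩ := wt_gen h (Pr_span η (rs_pow d hz))
  obtain ⟨a', ha'⟩ := wt_gen h.neg (Pr_span (-η) (rs_pow d hz))
  rw [zer_neg] at ha'
  have hcz := card_zer η
  rw [hη, d.card_Φ] at hcz
  have key : ∀ R ∈ powersetCard m (zer η),
      ((a R • MM J b + a' R • MM J (nb b) : HC d.Φ Unit) : HH d.Φ Unit) ∈ d.rs 1 := by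
    intro R hR
    apply down d hL (k := 1) (by omega) one_ne_zero h (a R) (a' R)
    have hR' := Finset.mem_powersetCard.1 hR
    have h1 := rs_mul d (Pr_rs d (1 + m) η hz) (LefTwoAux.prod_rs d hL (zer η \ R))
    rw [Finset.card_sdiff_of_subset hR'.1, hR'.2] at h1
    have h2 : 1 + m + ((zer η).card - m) = T.dim A - 1 := by omega
    rw [h2, ha, ha'] at h1
    have h3 : (a R • MM J b + a' R • MM J (nb b)) * ∏ s ∈ zer η, Dc s =
        ((∑ R ∈ powersetCard m (zer η), a R • ((∏ t ∈ R, Dc t) * MM J b) : HC d.Φ Unit) +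
          ∑ R ∈ powersetCard m (zer η), a' R • ((∏ t ∈ R, Dc t) * MM J (nb b))) *
            ∏ t ∈ zer η \ R, Dc t := by
      rw [add_mul, add_mul, pick hR, pick hR, smul_mul_assoc, smul_mul_assoc]
    rw [h3]
    exact h1
  have hsum : Pr η z + Pr (-η) z = ∑ R ∈ powersetCard m (zer η),
      ((∏ t ∈ R, Dc t : HC d.Φ Unit) : HH d.Φ Unit) *
        ((a R • MM J b + a' R • MM J (nb b) : HC d.Φ Unit) : HH d.Φ Unit) := by
    rw [ha, ha', AddSubmonoidClass.coe_finsetSum, AddSubmonoidClass.coe_finsetSum,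
      ← Finset.sum_add_distrib]
    refine Finset.sum_congr rfl fun R _ => ?_
    have e : (a R • ((∏ t ∈ R, Dc t) * MM J b) + a' R • ((∏ t ∈ R, Dc t) * MM J (nb b)) :
        HC d.Φ Unit) = (∏ t ∈ R, Dc t) * (a R • MM J b + a' R • MM J (nb b)) := by
      rw [mul_add, mul_smul_comm, mul_smul_comm]
    exact congrArg (fun x : HC d.Φ Unit => (x : HH d.Φ Unit)) e
  rw [hsum, add_comm 1 m]
  refine Submodule.sum_mem _ fun R hR => ?_
  have h1 := prod_Dc_rl d hL R
  rw [(Finset.mem_powersetCard.1 hR).2] at h1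
  exact rl_mul d h1 (key R hR)

end Pc0b458S
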