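import Pool.Agent.Lib.Pc0b458S.Conv2

/-!
# Q1 in dimension six
-/

universe u

namespace Pc0b458W

open Pc0b458 Finset

theorem Q1.of_P {T : NumTheory.{u}} {A : T.AV} (h : Pc0b458P.Q1 T A) : Q1 T A :=
  fun L hL n hn x hx hx0 => h L hL n hn x hx.1 hx0 hx.2

theorem q1_six (T : FpTheory.{u}) (A : T.AV) (hA : T.dim A = 6) (hne : ¬ Exceptional (T.sl A)) :
    Q1 T.toNumTheory A := by
  refine Q1.of_P fun L hL n hn => ?_
  rcases Nat.lt_or_ge n 1 with h | h
  · obtain rfl : n = 0 := by omega
    exact Pc0b458P.hsc_zero hL fun x hx => T.cod_zero A x hx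
  · rcases Nat.lt_or_ge n 2 with h' | h'
    · obtain rfl : n = 1 := by omega
      exact Pc0b458P.hsc_one hL (by omega)
    · rcases Nat.lt_or_ge n 3 with h'' | h''
      · obtain rfl : n = 2 := by omega
        exact Pc0b458P.hsc_two T.toS.toFpTheory A (by
          show 4 ≤ T.dim A
          omega) hL
      · obtain rfl : n = 3 := by omega
        exact Pc0b458S.hsc_three T.toS A hA (fun h => hne (exc_iff h)) L hL

theorem Q1.of_spec {T T₀ : NumTheory.{u}} (S : Specialisation T T₀) {A : T.AV} {A₀ : T₀.AV}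
    (hA₀ : A₀ ∈ S.sp A) (h : Q1 T₀ A₀) : Q1 T A := by
  refine Q1.of_P fun L hL n hn => ?_
  obtain ⟨L₀, hL₀, hx⟩ := S.prim A A₀ hA₀ L hL
  have hd := S.dim_eq A A₀ hA₀
  refine NumTheory.pos_of_psd A hL hn fun x hxc hxp => ?_
  obtain ⟨x₀, hx₀, he⟩ := hx n x hn ⟨hxc, hxp⟩
  show 0 ≤ form T A L n x
  rw [← he]
  by_cases h0 : x₀ = 0
  · unfold form
    rw [h0, zero_mul, zero_mul, map_zero, mul_zero]
  · exact (h L₀ hL₀ n (by rw [hd]; exact hn) x₀ hx₀ h0).le

theorem mem_vals {V : Type} {a : Fin 3 → V} {v : V} : v ∈ vals a ↔ ∃ i, a i = v := by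
  unfold vals
  rw [Multiset.mem_map]
  simp

/-- an exceptional abelian variety has no supersingular factor and its `p`-rank is at most four -/
theorem Exceptional.facts {G : Type} [Group G] {M : Multiset (G → ℚ)} (h : Exceptional M) :
    (fun _ => 1 / 2) ∉ M ∧ ∀ g : G, zeros M g ≤ 4 := by
  obtain ⟨a, b, ha, hb, ha0, hb0, -, -, -, -, rfl⟩ := h
  constructor
  · intro hm
    rw [Multiset.mem_map] at hm
    obtain ⟨v, hv, he⟩ := hm
    have hv0 : v = 0 := by
      funext g
      have := congrFun he g
      simp only [Pi.zero_apply]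
      linarith
    subst hv0
    simp only [Multiset.mem_add, mem_vals, Pi.neg_apply, neg_eq_zero] at hv
    rcases hv with ((⟨i, h⟩ | ⟨i, h⟩) | ⟨i, h⟩) | ⟨i, h⟩
    · exact ha0 i h
    · exact ha0 i h
    · exact hb0 i h
    · exact hb0 i h
  · intro g
    unfold zeros
    rw [Multiset.countP_map]
    have key : ∀ (c : Fin 3 → G → ℚ), c 0 + c 1 + c 2 = 0 →
        Multiset.card (Multiset.filter (fun v : G → ℚ => 1 / 2 + v g = 0) (vals c + vals (-c))) ≤
          2 := by
      intro c hc
      have hc' : c 0 g + c 1 g + c 2 g = 0 := congrFun hc g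
      have e : ∀ c : Fin 3 → G → ℚ,
          Multiset.card (Multiset.filter (fun v : G → ℚ => 1 / 2 + v g = 0) (vals c)) =
          (if 1 / 2 + c 0 g = 0 then 1 else 0) + (if 1 / 2 + c 1 g = 0 then 1 else 0) +
            (if 1 / 2 + c 2 g = 0 then 1 else 0) := by
        intro c
        have e1 : vals c = {c 0, c 1, c 2} := by
          unfold vals
          rfl
        rw [e1]
        simp only [Multiset.insert_eq_cons, Multiset.filter_cons, Multiset.filter_singleton,
          Multiset.card_add]
        split_ifs <;> simp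
      rw [Multiset.filter_add, Multiset.card_add, e, e]
      simp only [Pi.neg_apply]
      split_ifs <;> first | omega | (exfalso; linarith)
    have h1 := key a ha
    have h2 := key b hb
    rw [Multiset.filter_add, Multiset.card_add] at h1 h2
    beta_reduce
    rw [Multiset.filter_add, Multiset.filter_add, Multiset.filter_add, Multiset.card_add,
      Multiset.card_add, Multiset.card_add]
    omega

end Pc0b458W
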