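import Pool.Agent.Lib.Pc0b458S.Down

/-!
# Module SixPair: dimension six, full weights containing the weight of a divisor

`dim A = 6`, `J : Fin 3 × Fin 2 → Φ` bijective. Write `J2`, `b2` for the restriction to the first two pairs and `E`, `E'` for the
factors of `MM J b`, `MM J (nb b)` belonging to the last pair. The product of the two given real classes is
`(-σ) • ((c a') • MM J2 b2 + (c' a) • MM J2 (nb b2)) * Dc _ * Dc _`, and `down` applies.
-/

universe u

open Finset Pc0b458 Pc0b458P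

namespace Pc0b458S

namespace SixPairAux

section

variable {Φ : Type} [DecidableEq Φ]

omit [DecidableEq Φ] in
theorem expand_aux (c c' a a' : ℂ) (x y E E' : HC Φ Unit) :
    (c • (x * E) + c' • (y * E')) * (a • E + a' • E') = (c * a) • (x * (E * E)) +
      (c * a') • (x * (E * E')) + (c' * a) • (y * (E * E')) + (c' * a') • (y * (E' * E')) := by
  simp only [Algebra.smul_def, map_mul]
  ring

/-- the first two pairs -/
def fst2 {α : Type} (f : Fin 3 × Fin 2 → α) : Fin 2 × Fin 2 → α := fun p => f (p.1.castSucc, p.2)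

/-- the last pair -/
def lst1 {α : Type} (f : Fin 3 × Fin 2 → α) : Fin 1 × Fin 2 → α := fun p => f (2, p.2)

/-- the factor of the last pair -/
noncomputable def E2 (J : Fin 3 × Fin 2 → Φ) (b : Fin 3 × Fin 2 → Bool) : HC Φ Unit :=
  ev (ee (J (2, 0)) (b (2, 0)) ()) (ee (J (2, 1)) (b (2, 1)) ())

/-- the sign of the last pair -/
def s2 (b : Fin 3 × Fin 2 → Bool) : ℂ :=
  (if b (2, 0) then 1 else -1) * (if b (2, 1) then 1 else -1)

theorem MM_split (J : Fin 3 × Fin 2 → Φ) (b : Fin 3 × Fin 2 → Bool) :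
    (MM J b : HC Φ Unit) = MM (fst2 J) (fst2 b) * E2 J b := by
  unfold MM
  rw [Fin.prod_univ_castSucc]
  rfl

theorem MM_last (J : Fin 3 × Fin 2 → Φ) (b : Fin 3 × Fin 2 → Bool) :
    (MM (lst1 J) (lst1 b) : HC Φ Unit) = E2 J b := by
  unfold MM
  rw [Fin.prod_univ_one]
  rfl

theorem sg_split (b : Fin 3 × Fin 2 → Bool) : sg b = sg (fst2 b) * s2 b := by
  unfold sg
  rw [Fintype.prod_prod_type, Fintype.prod_prod_type, Fin.prod_univ_castSucc]
  congr 1
  rw [Fin.prod_univ_two]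
  rfl

theorem sg_last (b : Fin 3 × Fin 2 → Bool) : sg (lst1 b) = s2 b := by
  unfold sg
  rw [Fintype.prod_prod_type, Fin.prod_univ_one, Fin.prod_univ_two]
  rfl

theorem s2_sq (b : Fin 3 × Fin 2 → Bool) : s2 b * s2 b = 1 := by
  unfold s2
  split_ifs <;> norm_num

theorem E2_sq (J : Fin 3 × Fin 2 → Φ) (b : Fin 3 × Fin 2 → Bool) :
    (E2 J b * E2 J b : HC Φ Unit) = 0 := DegAux.ev_sq _ _

theorem E2_nb (J : Fin 3 × Fin 2 → Φ) (b : Fin 3 × Fin 2 → Bool) :
    (E2 J b * E2 J (nb b) : HC Φ Unit) = (-s2 b) • (Dc (J (2, 0)) * Dc (J (2, 1))) := by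
  unfold E2 nb s2
  rw [DegAux.ev_cross, DegAux.ev_bool, DegAux.ev_bool, smul_mul_smul_comm, neg_smul]

/-- the weight of the first two pairs -/
def et (J : Fin 3 × Fin 2 → Φ) (b : Fin 3 × Fin 2 → Bool) : Φ → ZMod 3 :=
  fun s => ∑ p, if fst2 J p = s then (if fst2 b p then 1 else -1) else 0

omit [DecidableEq Φ] in
theorem fst2_inj {J : Fin 3 × Fin 2 → Φ} (hJ : Function.Injective J) :
    Function.Injective (fst2 J) := by
  intro p q h
  have h1 := hJ h
  simp only [Prod.mk.injEq] at h1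
  exact Prod.ext (Fin.castSucc_injective _ h1.1) h1.2

theorem et_val {J : Fin 3 × Fin 2 → Φ} (hJ : Function.Injective J) (b : Fin 3 × Fin 2 → Bool)
    (q : Fin 2 × Fin 2) : et J b (fst2 J q) = if fst2 b q then 1 else -1 := by
  unfold et
  rw [Finset.sum_eq_single q]
  · rw [if_pos rfl]
  · intro p _ hp
    rw [if_neg (fun h => hp (fst2_inj hJ h))]
  · intro h
    exact absurd (mem_univ _) h

theorem et_ne {J : Fin 3 × Fin 2 → Φ} (b : Fin 3 × Fin 2 → Bool) (s : Φ) (h : et J b s ≠ 0) :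
    ∃ p, fst2 J p = s := by
  unfold et at h
  obtain ⟨p, _, hp⟩ := Finset.exists_ne_zero_of_sum_ne_zero h
  exact ⟨p, by by_contra hc; exact hp (if_neg hc)⟩

theorem et_fits {J : Fin 3 × Fin 2 → Φ} (hJ : Function.Injective J) (b : Fin 3 × Fin 2 → Bool) :
    Fits (et J b) (fst2 J) (fst2 b) := ⟨fst2_inj hJ, et_val hJ b, et_ne b⟩

theorem et_zer [Fintype Φ] {J : Fin 3 × Fin 2 → Φ} (hJ : Function.Bijective J)
    (b : Fin 3 × Fin 2 → Bool) : zer (et J b) = {J (2, 0), J (2, 1)} := by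
  have hlast : ∀ q : Fin 2, ∀ p, fst2 J p ≠ J (2, q) := by
    intro q p h
    have h1 := hJ.1 h
    simp only [Prod.mk.injEq] at h1
    have h5 := Fin.castSucc_lt_last p.1
    rw [h1.1] at h5
    exact absurd h5 (by decide)
  have hz : ∀ q : Fin 2, et J b (J (2, q)) = 0 := by
    intro q
    by_contra hc
    obtain ⟨p, hp⟩ := et_ne b _ hc
    exact hlast q p hp
  ext s
  unfold zer
  rw [mem_filter, mem_insert, mem_singleton]
  constructor
  · rintro ⟨_, hs⟩
    obtain ⟨⟨i, j⟩, rfl⟩ := hJ.2 s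
    by_cases hi : i = 2
    · subst hi
      fin_cases j
      · exact Or.inl rfl
      · exact Or.inr rfl
    · exfalso
      have hi2 : (i : ℕ) < 2 := by
        have h1 := i.2
        have h2 : (i : ℕ) ≠ 2 := fun h => hi (Fin.ext h)
        omega
      have h3 : J (i, j) = fst2 J (⟨i, hi2⟩, j) := rfl
      rw [h3, et_val hJ.1] at hs
      split_ifs at hs
      · exact absurd hs (by decide)
      · exact absurd hs (by decide)
  · rintro (rfl | rfl)
    · exact ⟨mem_univ _, hz 0⟩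
    · exact ⟨mem_univ _, hz 1⟩

end

end SixPairAux

variable {T : NumTheory.{u}} {W : EffData T} {A : T.AV} {L : T.Z A} (d : CMData T W A L)

open SixPairAux in
theorem six_pair (hL : L ∈ T.Pol A) (hg : T.dim A = 6) (h1 : SignOK d 1) (h2 : SignOK d 2)
    (J : Fin 3 × Fin 2 → d.Φ) (b : Fin 3 × Fin 2 → Bool) (hJ : Function.Injective J) (c c' : ℂ)
    (h : ((c • MM J b + c' • MM J (nb b) : HC d.Φ Unit) : HH d.Φ Unit) ∈ d.rs 3)
    (a a' : ℂ) (ha : a ≠ 0) (ha' : a' ≠ 0)
    (hv : ((a • ev (ee (J (2, 0)) (b (2, 0)) ()) (ee (J (2, 1)) (b (2, 1)) ()) +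
      a' • ev (ee (J (2, 0)) (!b (2, 0)) ()) (ee (J (2, 1)) (!b (2, 1)) ()) : HC d.Φ Unit) :
        HH d.Φ Unit) ∈ d.rs 1) :
    ∃ y : ℝ, 0 ≤ y ∧ c * c' * sg b = (y : ℂ) := by
  classical
  have hcard : Fintype.card (Fin 3 × Fin 2) = Fintype.card d.Φ := by
    rw [d.card_Φ, hg]
    rfl
  have hJb : Function.Bijective J := (Fintype.bijective_iff_injective_and_card J).2 ⟨hJ, hcard⟩
  have hv' : ((a • E2 J b + a' • E2 J (nb b) : HC d.Φ Unit) : HH d.Φ Unit) ∈ d.rs 1 := hv
  have hne : J (2, 0) ≠ J (2, 1) := by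
    intro h0
    have h1 := hJ h0
    simp at h1
  -- the product
  have hmul := rs_mul d h hv'
  have hs := s2_sq b
  have e1 : ((c • MM J b + c' • MM J (nb b)) * (a • E2 J b + a' • E2 J (nb b)) : HC d.Φ Unit) =
      (-s2 b) • ((((c * a') • MM (fst2 J) (fst2 b) + (c' * a) • MM (fst2 J) (nb (fst2 b))) *
        (Dc (J (2, 0)) * Dc (J (2, 1)))) : HC d.Φ Unit) := by
    have f1 := E2_sq J b
    have f2 := E2_sq J (nb b)
    have f3 := E2_nb J b
    have f4 : fst2 (nb b) = nb (fst2 b) := rfl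
    rw [MM_split J b, MM_split J (nb b), f4]
    calc ((c • (MM (fst2 J) (fst2 b) * E2 J b) + c' • (MM (fst2 J) (nb (fst2 b)) * E2 J (nb b))) *
          (a • E2 J b + a' • E2 J (nb b)) : HC d.Φ Unit)
        = (c * a) • (MM (fst2 J) (fst2 b) * (E2 J b * E2 J b)) +
          (c * a') • (MM (fst2 J) (fst2 b) * (E2 J b * E2 J (nb b))) +
          (c' * a) • (MM (fst2 J) (nb (fst2 b)) * (E2 J b * E2 J (nb b))) +
          (c' * a') • (MM (fst2 J) (nb (fst2 b)) * (E2 J (nb b) * E2 J (nb b))) := by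
          exact expand_aux _ _ _ _ _ _ _ _
      _ = _ := by
          rw [f1, f2, f3]
          simp only [mul_zero, smul_zero, zero_add, add_zero, add_mul, smul_mul_assoc,
            mul_smul_comm, smul_add, smul_smul]
          rw [mul_comm (c * a'), mul_comm (c' * a)]
  have hdown : (((c * a') • MM (fst2 J) (fst2 b) + (c' * a) • MM (fst2 J) (nb (fst2 b)) :
      HC d.Φ Unit) : HH d.Φ Unit) ∈ d.rs 2 := by
    apply down d hL (by omega) (by norm_num) (et_fits hJ b)
    rw [hg, et_zer hJb b, Finset.prod_pair hne]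
    have e2 : ((((c * a') • MM (fst2 J) (fst2 b) + (c' * a) • MM (fst2 J) (nb (fst2 b))) *
        (Dc (J (2, 0)) * Dc (J (2, 1))) : HC d.Φ Unit) : HH d.Φ Unit) =
        (-s2 b) • (((c • MM J b + c' • MM J (nb b) : HC d.Φ Unit) : HH d.Φ Unit) *
          ((a • E2 J b + a' • E2 J (nb b) : HC d.Φ Unit) : HH d.Φ Unit)) := by
      have e3 := congrArg (fun x : HC d.Φ Unit => ((-s2 b) • x : HC d.Φ Unit)) e1
      simp only [smul_smul, neg_mul_neg, hs, one_smul] at e3
      rw [← e3]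
      rfl
    have hreal : ∃ r : ℝ, (-s2 b) = (r : ℂ) := by
      unfold s2
      split_ifs
      · exact ⟨-1, by norm_num⟩
      · exact ⟨1, by norm_num⟩
      · exact ⟨1, by norm_num⟩
      · exact ⟨-1, by norm_num⟩
    obtain ⟨r, hr⟩ := hreal
    rw [e2, hr]
    exact LefTwoAux.smul_rs d r hmul
  obtain ⟨y2, hy2, hy2c⟩ := h2 (fst2 J) (fst2 b) (fst2_inj hJ) _ _ hdown
  have hlinj : Function.Injective (lst1 J) := by
    intro p q hpq
    have h3 := hJ hpq
    simp only [Prod.mk.injEq, true_and] at h3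
    exact Prod.ext (Subsingleton.elim _ _) h3
  obtain ⟨y1, hy1, hy1c⟩ := h1 (lst1 J) (lst1 b) hlinj a a' (by
    have e4 : (nb (lst1 b) : Fin 1 × Fin 2 → Bool) = lst1 (nb b) := rfl
    rw [e4, MM_last, MM_last]
    exact hv')
  rw [sg_last] at hy1c
  have hs0 : s2 b ≠ 0 := by
    intro h0
    rw [h0, mul_zero] at hs
    exact zero_ne_one hs
  have hy1n : (y1 : ℂ) ≠ 0 := by
    rw [← hy1c]
    exact mul_ne_zero (mul_ne_zero ha ha') hs0
  refine ⟨y2 / y1, div_nonneg hy2 hy1, ?_⟩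
  push_cast
  rw [eq_div_iff hy1n, ← hy1c, ← hy2c, sg_split]
  linear_combination (c * c' * a * a' * sg (fst2 b)) * hs

end Pc0b458S
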