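import Pool.Agent.Lib.Pc0b458.Theory
import Pool.Agent.Lib.Pc0b458F.Datum

/-!
# Numerical cycle classes over an algebraic closure of a finite field

`Pc0b458.NumTheory` lists known properties of the numerical cycle classes on the abelian varieties
over a field. Here we add known properties over an algebraic closure of the field with `p`
elements: effective cycles, complex multiplication by a CM algebra, the cycle class map, the Galois
group of a large CM field, the slopes of the Frobenius elements (`Pc0b458F.CMDatum`), and theorems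
of Tate, Ancona and Markman.
-/

universe u

namespace Pc0b458W

open Pc0b458 Finset ComplexConjugate
open Pc0b458F (CMDatum rho)

section Cohomology

/-- the cohomology ring of `A^X`, with complex coefficients, for an abelian variety `A` with complex
multiplication by a CM algebra `E`: the exterior algebra of the first cohomology; `Φ` is a set of
representatives of the homomorphisms from `E` to `ℂ` modulo complex conjugation -/
def Coh (Φ X : Type) : Type := ExteriorAlgebra ℂ (Φ × Bool × X → ℂ)

section Exterior

/-- the ring structure -/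
@[instance_reducible] noncomputable def ringExt (V : Type) [AddCommGroup V] [Module ℂ V] :
    Ring (ExteriorAlgebra ℂ V) := inferInstance

/-- the algebra structure -/
@[instance_reducible] noncomputable def algExt (V : Type) [AddCommGroup V] [Module ℂ V] :
    Algebra ℂ (ExteriorAlgebra ℂ V) := inferInstance

/-- `x` has degree `k` -/
def degExt {V : Type} [AddCommGroup V] [Module ℂ V] (k : ℕ) (x : ExteriorAlgebra ℂ V) : Prop :=
  x ∈ ⋀[ℂ]^k V

/-- the homomorphism defined by a linear map -/
noncomputable def mapExt {V V' : Type} [AddCommGroup V] [Module ℂ V] [AddCommGroup V']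
    [Module ℂ V'] (f : V →ₗ[ℂ] V') (x : ExteriorAlgebra ℂ V) : ExteriorAlgebra ℂ V' :=
  ExteriorAlgebra.map f x

end Exterior

noncomputable instance instRing (Φ X : Type) : Ring (Coh Φ X) := ringExt (Φ × Bool × X → ℂ)

noncomputable instance instAlgebra (Φ X : Type) : Algebra ℂ (Coh Φ X) :=
  algExt (Φ × Bool × X → ℂ)

/-- the first cohomology in the cohomology ring -/
noncomputable def iota (Φ X : Type) : (Φ × Bool × X → ℂ) →ₗ[ℂ] Coh Φ X := ExteriorAlgebra.ι ℂ

/-- `x` is in the cohomology of degree `k` -/
def InDeg {Φ X : Type} (k : ℕ) (x : Coh Φ X) : Prop :=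
  degExt (V := Φ × Bool × X → ℂ) k x

/-- The generator `gen s true x` spans the part of the first cohomology of the factor `x` on which `E`
acts through `s`, and `gen s false x` the part where it acts through the complex conjugate. -/
noncomputable def gen {Φ X : Type} [DecidableEq Φ] [DecidableEq X] (s : Φ) (b : Bool) (x : X) :
    Coh Φ X :=
  iota Φ X (Pi.single (s, b, x) 1)

/-- pull-back on the first cohomology under the homomorphism `A^X → A` with coefficients `v · x` -/
noncomputable def pbOne {Φ X : Type} (v : Φ → X → ℂ) :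
    (Φ × Bool × Unit → ℂ) →ₗ[ℂ] (Φ × Bool × X → ℂ) :=
  LinearMap.pi fun i => (if i.2.1 then v i.1 i.2.2 else conj (v i.1 i.2.2)) •
    LinearMap.proj (i.1, i.2.1, ())

/-- pull-back under the homomorphism `A^X → A` with coefficients `v · x`: it maps
`gen s true ()` to the sum over `x` of `v s x • gen s true x`, and `gen s false ()` to the sum of
`conj (v s x) • gen s false x` -/
noncomputable def pb {Φ X : Type} (v : Φ → X → ℂ) (x : Coh Φ Unit) : Coh Φ X :=
  mapExt (pbOne v) x

/-- the map of the first cohomology which maps `gen s b ()` to `gen (j s) b ()` -/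
noncomputable def extOne {Φ Φ' : Type} [Fintype Φ] [DecidableEq Φ'] (j : Φ → Φ') :
    (Φ × Bool × Unit → ℂ) →ₗ[ℂ] (Φ' × Bool × Unit → ℂ) :=
  LinearMap.pi fun i => ∑ s, if j s = i.1 then LinearMap.proj (s, i.2) else 0

/-- the map of the cohomology which maps `gen s b ()` to `gen (j s) b ()` -/
noncomputable def ext {Φ Φ' : Type} [Fintype Φ] [DecidableEq Φ'] (j : Φ → Φ') (x : Coh Φ Unit) :
    Coh Φ' Unit :=
  mapExt (extOne j) x

/-- the class of a polarisation for which the basis vectors are suitably chosen -/
noncomputable def polClass (Φ : Type) [Fintype Φ] [DecidableEq Φ] : Coh Φ Unit :=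
  ∑ s, gen s true () * gen s false ()

/-- `x` is a linear combination of the products of the generators in `K`, where `K` runs through
the sets in `P` with `k` elements. The products of the generators in `K` span the line `L_K`. -/
def InLines {Φ : Type} [DecidableEq Φ] (k : ℕ) (P : Finset (Φ × Bool) → Prop)
    (x : Coh Φ Unit) : Prop :=
  x ∈ Submodule.span ℂ {w : Coh Φ Unit | ∃ f : Fin k → Φ × Bool, Function.Injective f ∧
    P (Finset.univ.image f) ∧ w = (List.ofFn fun i => gen (f i).1 (f i).2 ()).prod}

end Cohomology

section Statement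

variable (T : NumTheory.{u}) (A : T.AV)

/-- `x` is the class of a cycle of codimension `n` -/
def IsCod (n : ℕ) (x : T.Z A) : Prop := x ∈ T.cod A n

/-- the ring homomorphisms from `Z A` to `Z A'` -/
def Hom (A' : T.AV) : Type u := T.Z A →ₐ[ℚ] T.Z A'

variable {T A} in
/-- the image of `x` under `f` -/
def Hom.app {A' : T.AV} (f : Hom T A A') (x : T.Z A) : T.Z A' :=
  (show T.Z A →ₐ[ℚ] T.Z A' from f) x

/-- the number `(-1)^n x . x . L^(g-2n)` -/
def form (L : T.Z A) (n : ℕ) (x : T.Z A) : ℚ :=
  (-1) ^ n * T.deg A (x * x * L ^ (T.dim A - 2 * n))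

/-- `x` is the class of a cycle of codimension `n` and primitive for `L` -/
def Prim (L : T.Z A) (n : ℕ) (x : T.Z A) : Prop :=
  IsCod T A n x ∧ L ^ (T.dim A - 2 * n + 1) * x = 0

/-- the statement of Q1 for `A` -/
def Q1 : Prop :=
  ∀ L ∈ T.Pol A, ∀ n, 2 * n ≤ T.dim A → ∀ x, Prim T A L n x → x ≠ 0 → 0 < form T A L n x

end Statement

/-- Specialisation of the abelian varieties over a field `k` to an algebraic closure of a finite
field, at the places of an algebraic closure of `k` where there is good reduction. -/
structure Specialisation (T T₀ : NumTheory.{u}) where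
  /-- the reductions of `A` -/
  sp : T.AV → Set T₀.AV
  sp_exists : ∀ A, ∃ A₀, A₀ ∈ sp A
  dim_eq : ∀ A, ∀ A₀ ∈ sp A, T₀.dim A₀ = T.dim A
  /-- Polarisations specialise to polarisations. A primitive class is the class of an algebraic
  cycle which is primitive for homological equivalence, and the specialisation of this cycle is
  primitive and has the same self intersection. -/
  prim : ∀ A, ∀ A₀ ∈ sp A, ∀ L ∈ T.Pol A, ∃ L₀ ∈ T₀.Pol A₀, ∀ n x, 2 * n ≤ T.dim A →
    Prim T A L n x → ∃ x₀, Prim T₀ A₀ L₀ n x₀ ∧ form T₀ A₀ L₀ n x₀ = form T A L n x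

/-- Numerical cycle classes and the classes of effective cycles, with nonnegative rational
coefficients, on the abelian varieties over an algebraically closed field. -/
structure Cycles extends NumTheory.{u} where
  /-- cycles of codimension zero -/
  cod_zero : ∀ A x, IsCod toNumTheory A 0 x → ∃ r : ℚ, x = algebraMap ℚ (Z A) r
  /-- the classes of the effective cycles of codimension `i` -/
  eff : ∀ A, ℕ → Set (Z A)
  eff_cod : ∀ A i, ∀ x ∈ eff A i, IsCod toNumTheory A i x
  /-- two cycles on an abelian variety meet properly after a translation -/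
  eff_mul : ∀ A i j, ∀ x ∈ eff A i, ∀ y ∈ eff A j, x * y ∈ eff A (i + j)
  eff_deg : ∀ A, ∀ x ∈ eff A (dim A), 0 ≤ deg A x
  pol_eff : ∀ A, ∀ L ∈ Pol A, L ∈ eff A 1
  /-- a subvariety of codimension `i` is a component of an intersection of `i` divisors
  whose class is a multiple of `L` -/
  pol_int : ∀ A, ∀ L ∈ Pol A, ∀ i x, IsCod toNumTheory A i x →
    ∃ r : ℚ, 0 < r ∧ r • L ^ i + x ∈ eff A i

/-- The cycle class map of `B` to the cohomology ring, and the trace map. -/
structure CycleMap (T : NumTheory.{u}) (B : T.AV) (Φ X : Type) where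
  cl : T.Z B → Coh Φ X
  cl_one : cl 1 = 1
  cl_add : ∀ x y, cl (x + y) = cl x + cl y
  cl_mul : ∀ x y, cl (x * y) = cl x * cl y
  /-- algebraic classes have even degree and are central -/
  cl_comm : ∀ x y, cl x * y = y * cl x
  cl_mem : ∀ i x, IsCod T B i x → InDeg (2 * i) (cl x)
  tr : Coh Φ X →ₗ[ℂ] ℂ
  tr_cl : ∀ x, IsCod T B (T.dim B) x → tr (cl x) = (T.deg B x : ℂ)

/-- Complex multiplication of `A` by a CM algebra `E` of degree `2 dim A`. -/
structure CMAlg (T : NumTheory.{u}) (A : T.AV) where
  /-- representatives of the homomorphisms from `E` to `ℂ` modulo complex conjugation -/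
  Φ : Type
  [finΦ : Fintype Φ]
  [decΦ : DecidableEq Φ]
  card_Φ : Fintype.card Φ = T.dim A
  /-- the elements of `E`, as functions on `Φ` -/
  E : Subring (Φ → ℂ)
  /-- `E` is dense in the product of the fields `ℂ` over `Φ` -/
  dense : ∀ v : Φ → ℂ, ∀ ε : ℝ, 0 < ε → ∃ a ∈ E, ∀ s, ‖a s - v s‖ < ε
  /-- pull-back of cycle classes under the elements of `E` in `End(A) ⊗ ℚ` -/
  act : (Φ → ℂ) → Hom T A A
  act_mem : ∀ a ∈ E, ∀ i x, IsCod T A i x → IsCod T A i ((act a).app x)

attribute [instance] CMAlg.finΦ CMAlg.decΦ

/-- The powers of `A`. -/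
structure CMPow (T : Cycles.{u}) (A : T.AV) extends CMAlg T.toNumTheory A where
  pow : ℕ → T.AV
  dim_pow : ∀ M, T.dim (pow M) = M * T.dim A
  /-- pull-back under `(a_1, ..., a_M) : A^M → A`, where `a_l` is in `E` -/
  pull : ∀ M, (Fin M → Φ → ℂ) → Hom T.toNumTheory A (pow M)
  pull_eff : ∀ M a, (∀ l, a l ∈ E) → ∀ i, ∀ x ∈ T.eff A i, (pull M a).app x ∈ T.eff (pow M) i
  /-- the degree of an exterior product -/
  deg_pull : ∀ M (x : Fin M → T.Z A), (∀ l, IsCod T.toNumTheory A (T.dim A) (x l)) →
    T.deg (pow M) (∏ l, (pull M (Pi.single l 1)).app (x l)) = ∏ l, T.deg A (x l)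

/-- The cycle class maps of `A` and of its powers (for a prime number for which numerical and
homological equivalence agree on all powers of `A`). The Rosati involution of `L` is the complex
conjugation on `E`. -/
structure CMData (T : Cycles.{u}) (A : T.AV) (L : T.Z A) extends CMPow T A where
  c : CycleMap T.toNumTheory A Φ Unit
  cp : ∀ M, CycleMap T.toNumTheory (pow M) Φ (Fin M)
  cl_L : c.cl L = polClass Φ
  cl_act : ∀ a ∈ E, ∀ x, c.cl ((act a).app x) = pb (fun s _ => a s) (c.cl x)
  cl_pull : ∀ M a, (∀ l, a l ∈ E) → ∀ x,
    (cp M).cl ((pull M a).app x) = pb (fun s l => a l s) (c.cl x)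

/-- The Galois group `G` of a finite Galois CM extension `K` of the rationals, the decomposition group
`D` of a place above `p` and the complex conjugation `c`. -/
structure Galois where
  G : Type
  [grp : Group G]
  [fin : Fintype G]
  D : Subgroup G
  c : G

attribute [instance] Galois.grp Galois.fin

/-- `A` with complex multiplication and with a polarisation `L`. The group `G` acts on the set
`X.S` of homomorphisms from the CM algebra `E` to `K`. -/
structure CMVar (T : Cycles.{u}) (Γ : Galois) (A : T.AV) where
  L : T.Z A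
  L_mem : L ∈ T.Pol A
  d : CMData T A L
  X : CMDatum Γ.G Γ.D Γ.c
  /-- a homomorphism is an element of `Φ` or the complex conjugate of an element of `Φ` -/
  e : X.S ≃ d.Φ × Bool
  e_conj : ∀ x, e (Γ.c • x) = ((e x).1, !(e x).2)

namespace CMVar

variable {T : Cycles.{u}} {Γ : Galois} {A : T.AV} (B : CMVar T Γ A)

/-- the set of generators for a set of homomorphisms; the corresponding line is called `L_J` -/
def line (J : Finset B.X.S) : Finset (B.d.Φ × Bool) := J.map B.e.toEmbedding

/-- the class of `x` has a nonzero component in `L_J` -/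
def Occurs (J : Finset B.X.S) (x : T.Z A) : Prop :=
  ¬ InLines J.card (fun K => K ≠ B.line J) (B.d.c.cl x)

/-- the complex conjugate of `J` -/
def bar (J : Finset B.X.S) : Finset B.X.S := B.X.tr Γ.c J

/-- the class of `x` is in the sum of `L_J` and of the complex conjugate line -/
def Pure (J : Finset B.X.S) (x : T.Z A) : Prop :=
  InLines J.card (fun K => K = B.line J ∨ K = B.line (B.bar J)) (B.d.c.cl x)

/-- `L_J` is part of the cohomology of degree `2 * n` and `J` contains no conjugate elements -/
def Fits (n : ℕ) (J : Finset B.X.S) : Prop := J.card = 2 * n ∧ B.X.Free J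

/-- there is an algebraic class with nonzero components in `L_J` and in the conjugate line -/
def Algebraic (n : ℕ) (J : Finset B.X.S) : Prop :=
  ∃ z, IsCod T.toNumTheory A n z ∧ B.Occurs J z ∧ B.Occurs (B.bar J) z

/-- all conjugates of `x` have slope `1 / 2` -/
def Supersingular (x : B.X.S) : Prop := ∀ g : Γ.G, B.X.s (g • x) = 1 / 2

/-- the sum of the slopes is `1` for all conjugates of the pair `x`, `y` -/
def Pair (x y : B.X.S) : Prop :=
  x ≠ y ∧ y ≠ Γ.c • x ∧ ∀ g : Γ.G, B.X.s (g • x) + B.X.s (g • y) = 1

/-- if the class of an algebraic cycle has a nonzero component in `L_J` then the Frobenius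
eigenvalue on `L_J` is `q ^ n` times a root of unity -/
def Frobenius : Prop := ∀ n J x, B.Fits n J → IsCod T.toNumTheory A n x → B.Occurs J x → B.X.Tate n J

/-- Tate's theorem for divisors -/
def Divisors : Prop := ∀ x y, B.Pair x y → B.Algebraic 1 {x, y}

/-- if the orbit of `J` consists of `J` and its complex conjugate then the projection to the
corresponding part of the cohomology is defined over `ℚ` -/
def Projection : Prop := ∀ n J x, B.Fits n J → B.X.RankTwo J → IsCod T.toNumTheory A n x →
  ∃ x', IsCod T.toNumTheory A n x' ∧ B.Pure J x' ∧ ¬ B.Occurs J (x - x') ∧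
    ¬ B.Occurs (B.bar J) (x - x')

/-- Ancona's theorem on motives of rank two which lift to characteristic zero -/
def Ancona : Prop := ∀ n J x, B.Fits n J → B.X.RankTwo J → IsCod T.toNumTheory A n x → x ≠ 0 →
  B.Pure J x → 0 < form T.toNumTheory A B.L n x

/-- Markman's theorem on abelian fourfolds of Weil type: if `J` has four elements, its orbit consists
of `J` and its complex conjugate, and `J` contains a supersingular element, then `L_J` consists of
classes of Weil type on an abelian fourfold which can be lifted to characteristic zero in such a way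
that they become Hodge classes. -/
def Markman : Prop := ∀ J, B.Fits 2 J → B.X.RankTwo J → B.X.Tate 2 J →
  (∃ x ∈ J, B.Supersingular x) → B.Algebraic 2 J

/-- known properties of the classes of algebraic cycles -/
def Known : Prop := B.Frobenius ∧ B.Divisors ∧ B.Projection ∧ B.Ancona ∧ B.Markman

end CMVar

/-- `X'` is the CM datum of a product of the abelian variety with CM datum `X` and of a
supersingular abelian variety, on which the CM algebra acts through the imaginary quadratic field
fixed by `H`. -/
structure Adds {Γ : Galois} (X X' : CMDatum Γ.G Γ.D Γ.c) (H : Subgroup Γ.G) where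
  ι : X.S → X'.S
  inj : Function.Injective ι
  smul : ∀ (g : Γ.G) (x : X.S), ι (g • x) = g • ι x
  slope : ∀ x : X.S, X'.s (ι x) = X.s x
  ss : ∀ x : X'.S, x ∉ Set.range ι → ∀ g : Γ.G, X'.s (g • x) = 1 / 2
  fixed : ∀ x : X'.S, x ∉ Set.range ι → ∀ h ∈ H, h • x = x

/-- `A'` is the product of `A` and of a supersingular elliptic curve on which the imaginary quadratic
field fixed by `H` acts, with the product of the CM algebras and of the polarisations; `p` is the
pull-back under the projection. -/
structure Ext {T : Cycles.{u}} {Γ : Galois} {A A' : T.AV} (B : CMVar T Γ A) (B' : CMVar T Γ A')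
    (H : Subgroup Γ.G) extends Adds B.X B'.X H where
  dim_eq : T.dim A' = T.dim A + 1
  p : T.Z A → T.Z A'
  p_mem : ∀ i x, IsCod T.toNumTheory A i x → IsCod T.toNumTheory A' i (p x)
  j : B.d.Φ → B'.d.Φ
  e_ι : ∀ x, B'.e (ι x) = (j (B.e x).1, (B.e x).2)
  cl_p : ∀ x, B'.d.c.cl (p x) = ext j (B.d.c.cl x)

/-- `H` is the Galois group of `K` over an imaginary quadratic subfield in which `p` does not
split -/
def Nonsplit (Γ : Galois) (H : Subgroup Γ.G) : Prop := H.index = 2 ∧ Γ.c ∉ H ∧ ¬ Γ.D ≤ H

/-- Numerical cycle classes on the abelian varieties over an algebraic closure of the field with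
`p` elements. For every abelian variety `A` a finite Galois CM extension `K` of the rationals is
chosen which is large enough. -/
structure FpTheory extends Cycles.{u} where
  gal : AV → Galois
  /-- for each Frobenius eigenvalue the family of the slopes of its conjugates -/
  sl : ∀ A, Multiset ((gal A).G → ℚ)
  /-- `K` contains an imaginary quadratic field in which `p` does not split -/
  nonsplit : ∀ A, ∃ H, Nonsplit (gal A) H
  /-- Complex multiplication (Tate, Honda, Shimura, Taniyama): `A` is isogenous to `B × B'` with
  `B'` supersingular and `B` without supersingular factor. A CM algebra for `B` is given by `X₀`. For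
  every imaginary quadratic subfield in which `p` does not split, it extends to a
  CM algebra for `A` which acts on `B'` through this imaginary quadratic field. -/
  cm : ∀ A, ∃ X₀ : CMDatum (gal A).G (gal A).D (gal A).c, (∀ x : X₀.S, ∃ g : (gal A).G,
      X₀.s (g • x) ≠ 1 / 2) ∧
    ∀ H, Nonsplit (gal A) H → ∃ B : CMVar toCycles (gal A) A,
      B.Known ∧ Nonempty (Adds X₀ B.X H) ∧ B.X.slopes = sl A ∧
        ∀ H', Nonsplit (gal A) H' → ∃ (A' : AV) (B' : CMVar toCycles (gal A) A'),
          B'.Known ∧ Nonempty (Ext B B' H')

section Exceptional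

/-- the multiset of the values of a function on three elements -/
def vals {V : Type} (a : Fin 3 → V) : Multiset V := Finset.univ.val.map a

/-- The exceptional family. The slopes of `A` are `1/2 ± a i`, `1/2 ± b i` (`i = 0, 1, 2`) with
`a 0 + a 1 + a 2 = 0`, `b 0 + b 1 + b 2 = 0`, every element of the Galois group permutes
`{a i}`, `{-a i}`, `{b i}`, `{-b i}`, and some element maps `{a i}` to `{b i}` or `{-b i}`. -/
def Exceptional {G : Type} [Group G] (M : Multiset (G → ℚ)) : Prop :=
  ∃ a b : Fin 3 → G → ℚ, a 0 + a 1 + a 2 = 0 ∧ b 0 + b 1 + b 2 = 0 ∧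
    (∀ i, a i ≠ 0) ∧ (∀ i, b i ≠ 0) ∧ (∀ i j, a i ≠ b j) ∧ (∀ i j, a i ≠ -b j) ∧
    (∀ g : G, ∀ P ∈ ({vals a, vals b} : Set (Multiset (G → ℚ))),
      P.map (rho g) = vals a ∨ P.map (rho g) = vals (-a) ∨ P.map (rho g) = vals b ∨
        P.map (rho g) = vals (-b)) ∧
    (∃ g : G, (vals a).map (rho g) = vals b ∨ (vals a).map (rho g) = vals (-b)) ∧
    M = (vals a + vals (-a) + vals b + vals (-b)).map fun v g => 1 / 2 + v g

/-- the number of slopes zero at a place -/
def zeros {G : Type} (M : Multiset (G → ℚ)) (g : G) : ℕ := M.countP fun f => f g = 0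

end Exceptional

end Pc0b458W
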